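import Pool.Agent.H638.IB.Defs

/-! Definitions and statements (Props `S_X`) of the project KP (problem MP_242fd5_gt):
there are star bodies in `ℝ⁶`, not ellipsoids, which are `m`-fold iterated intersection bodies of
star bodies for every `m`. -/

set_option autoImplicit false

open MeasureTheory Set Filter Topology Metric
open scoped Pointwise RealInnerProductSpace ENNReal

namespace Pool.Agent.H638.KP

open Pool.Agent.H638.IB (E secVol IB)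

/-! ### The one-dimensional model -/

/-- The profile of the ball. -/
noncomputable def U (v : ℝ) : ℝ := (√(Real.cosh v))⁻¹

/-- The intersection body operator in the one-dimensional model. -/
noncomputable def T (G : ℝ → ℝ) (v : ℝ) : ℝ :=
  3 / 4 * ∫ s : ℝ, Real.exp (-(|v - s| / 2)) * G s ^ 5

/-- The value at infinity of `T G / U`. -/
noncomputable def Ti (G : ℝ → ℝ) : ℝ := 3 / (4 * √2) * ∫ s : ℝ, Real.cosh (s / 2) * G s ^ 5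

/-- The initial data: two bubbles at `R` and `-R`. -/
noncomputable def B (R v : ℝ) : ℝ := U (|v| - R)

/-- The energy. -/
noncomputable def En (G : ℝ → ℝ) : ℝ := ∫ v : ℝ, G v ^ 6

/-- `G` increases on `[0, R]` and decreases on `[R, ∞)`. -/
def Mode (G : ℝ → ℝ) (R : ℝ) : Prop := 0 ≤ R ∧ MonotoneOn G (Icc 0 R) ∧ AntitoneOn G (Ici R)

/-- Continuous even functions comparable with `U`. -/
structure Cl (G : ℝ → ℝ) : Prop where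
  cont : Continuous G
  even : ∀ v, G (-v) = G v
  bd : ∃ c C : ℝ, 0 < c ∧ ∀ v, c * U v ≤ G v ∧ G v ≤ C * U v

/-- Admissible functions. -/
structure Adm (G : ℝ → ℝ) : Prop where
  cl : Cl G
  lip : ∀ v v' : ℝ, G v ≤ Real.exp (|v - v'| / 2) * G v'
  mono : ∀ v v' : ℝ, 0 ≤ v → v ≤ v' → G v * U v' ≤ G v' * U v
  uni : ∃ R : ℝ, Mode G R

/-- UF: facts on `U`. -/
def S_UF : Prop := Continuous U ∧ (∀ v, U (-v) = U v) ∧ (∀ v, 0 < U v ∧ U v ≤ 1) ∧ U 0 = 1 ∧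
  (∀ v, Real.exp (-(|v| / 2)) ≤ U v ∧ U v ≤ √2 * Real.exp (-(|v| / 2))) ∧
  (∀ v v', U v ≤ Real.exp (|v - v'| / 2) * U v') ∧ AntitoneOn U (Ici 0) ∧
  (∀ v v' R : ℝ, 0 ≤ R → v ≤ v' → U (v - R) * U v' ≤ U (v' - R) * U v) ∧
  Integrable (fun v => U v ^ 6) ∧ En U ≤ 6

/-- UI: integrability. -/
def S_UI : Prop := ∀ G : ℝ → ℝ, Continuous G → (∃ C : ℝ, ∀ v, |G v| ≤ C * U v) →
  (∀ v : ℝ, Integrable (fun s => Real.exp (-(|v - s| / 2)) * G s ^ 5)) ∧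
  Integrable (fun s => Real.cosh (s / 2) * G s ^ 5) ∧
  Integrable (fun s => Real.exp (s / 2) * G s ^ 5) ∧
  Integrable (fun s => G s ^ 6) ∧ Integrable (fun s => G s ^ 5)

/-- TU: the profile of the ball is a fixed point. -/
def S_TU : Prop := T U = U

/-- TM: monotonicity and homogeneity. -/
def S_TM : Prop := (∀ G H : ℝ → ℝ, Continuous G → Continuous H →
    (∃ C : ℝ, ∀ v, 0 ≤ G v ∧ G v ≤ H v ∧ H v ≤ C * U v) →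
    (∀ v, T G v ≤ T H v) ∧ Ti G ≤ Ti H) ∧
  ∀ (l : ℝ) (G : ℝ → ℝ), T (fun v => l * G v) = (fun v => l ^ 5 * T G v) ∧
    Ti (fun v => l * G v) = l ^ 5 * Ti G

/-- TC: `T` preserves the class `Cl`. -/
def S_TC : Prop := ∀ G : ℝ → ℝ, Cl G → Cl (T G) ∧
  ∀ c C : ℝ, 0 ≤ c → (∀ v, c * U v ≤ G v ∧ G v ≤ C * U v) →
    ∀ v, c ^ 5 * U v ≤ T G v ∧ T G v ≤ C ^ 5 * U v

/-- TL: log-Lipschitz bound for `T G`. -/
def S_TL : Prop := ∀ G : ℝ → ℝ, Cl G → ∀ v v' : ℝ, T G v ≤ Real.exp (|v - v'| / 2) * T G v'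

/-- TMO: `G / U` nondecreasing on the half-line is preserved. -/
def S_TMO : Prop := ∀ G : ℝ → ℝ, Cl G →
  (∀ v v' : ℝ, 0 ≤ v → v ≤ v' → G v * U v' ≤ G v' * U v) →
  ∀ v v' : ℝ, 0 ≤ v → v ≤ v' → T G v * U v' ≤ T G v' * U v

/-- TUN: unimodality on the half-line is preserved. -/
def S_TUN : Prop := ∀ G : ℝ → ℝ, Cl G → (∃ R, Mode G R) → ∃ R, Mode (T G) R

/-- ADM: `T` preserves admissible functions. -/
def S_ADM : Prop := ∀ G : ℝ → ℝ, Adm G → Adm (T G)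

/-- BA: the initial data are admissible. -/
def S_BA : Prop := ∀ R : ℝ, 0 ≤ R → Adm (B R) ∧ Mode (B R) R ∧
  (∀ v, B R v ≤ 1) ∧ B R R = 1 ∧ (∀ v, Real.exp (-(R / 2)) * U v ≤ B R v ∧ B R v ≤ Real.exp (R / 2) * U v) ∧
  (∀ v, R ≤ v → B R v ≤ √2 * Real.exp (-((v - R) / 2))) ∧
  Tendsto (fun v => B R v / U v) atTop (𝓝 (Real.exp (R / 2))) ∧
  ∀ R' : ℝ, 0 ≤ R' → ∀ v, B R v ≤ Real.exp (|R - R'| / 2) * B R' v

/-- BE: energy of the initial data. -/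
def S_BE : Prop := ∀ R : ℝ, 0 ≤ R → 0 < En (B R) ∧ En (B R) ≤ 12

/-- BT: the initial data are increased by `T`. -/
def S_BT : Prop := ∀ R : ℝ, 0 ≤ R → ∀ v, B R v ≤ T (B R) v

/-- LOW: lower bound. -/
def S_LOW : Prop := ∀ G : ℝ → ℝ, Cl G → (∀ v v' : ℝ, G v ≤ Real.exp (|v - v'| / 2) * G v') →
  ∀ v, G v ^ 5 / 2 ≤ T G v

/-- UPP: upper bound. -/
def S_UPP : Prop := ∀ G : ℝ → ℝ, Cl G → ∀ S : ℝ, (∀ v, G v ≤ S) → ∀ v, T G v ≤ 3 * S ^ 5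

/-- ENE: monotonicity of the Busemann ratio. -/
def S_ENE : Prop := ∀ G : ℝ → ℝ, Cl G → 0 < En G ∧ En (T G) ^ 6 ≤ En G ^ 5 * En (T (T G))

/-- INF: behaviour at infinity. -/
def S_INF : Prop := ∀ G : ℝ → ℝ, Cl G → Tendsto (fun v => T G v / U v) atTop (𝓝 (Ti G)) ∧ 0 < Ti G

/-- IVT: choice of the distance of the bubbles. -/
def S_IVT : Prop := ∀ (m : ℕ) (κ : ℝ), 1 ≤ κ → ∃ R : ℝ, 0 ≤ R ∧
  Ti (T^[m] (B R)) = κ * T^[m + 1] (B R) 0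

/-- Finite backward orbits starting from two bubbles. -/
structure Chain (κ : ℝ) (m : ℕ) (G : ℕ → ℝ → ℝ) : Prop where
  adm : ∀ j, j ≤ m → Adm (G j)
  step : ∀ j, j < m → T (G (j + 1)) = G j
  zero : G 0 0 = 1
  inf : Ti (G 1) = κ
  last : ∃ μ R : ℝ, 0 < μ ∧ 0 ≤ R ∧ G m = fun v => μ * B R v

/-- CHN: existence of the chains. -/
def S_CHN : Prop := ∀ (κ : ℝ) (m : ℕ), 1 ≤ κ → 1 ≤ m → ∃ G : ℕ → ℝ → ℝ, Chain κ m G

/-- CH0: the last function of a chain. -/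
def S_CH0 : Prop := ∀ (κ : ℝ) (m : ℕ) (G : ℕ → ℝ → ℝ), 1 ≤ κ → κ ≤ 2 → 1 ≤ m → Chain κ m G →
  ∀ v, U v ≤ G 0 v ∧ G 0 v ≤ 2 * U v

/-- CHS: bounds for the suprema. -/
def S_CHS : Prop := ∀ (κ : ℝ) (m : ℕ) (G : ℕ → ℝ → ℝ), 1 ≤ κ → κ ≤ 2 → 1 ≤ m → Chain κ m G →
  ∀ j, j ≤ m → (∀ v, G j v ≤ 2) ∧ ∃ v, 3 / 4 ≤ G j v

/-- CHE: bounds for the energies. -/
def S_CHE : Prop := ∀ (κ : ℝ) (m : ℕ) (G : ℕ → ℝ → ℝ), 1 ≤ κ → κ ≤ 2 → 1 ≤ m → Chain κ m G →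
  ∀ j, j ≤ m → En (G j) ≤ 400

/-- The bound for the displacement of the mode. -/
noncomputable def DD : ℝ := 400 * 9 ^ 6

/-- CHM: bounds for the modes. -/
def S_CHM : Prop := ∀ (κ : ℝ) (m : ℕ) (G : ℕ → ℝ → ℝ), 1 ≤ κ → κ ≤ 2 → 1 ≤ m → Chain κ m G →
  (∀ R, Mode (G 0) R → R ≤ 3) ∧ (∀ j, j ≤ m → ∀ R, Mode (G j) R → 3 / 4 ≤ G j R) ∧
  ∀ j, j < m → ∀ R R' : ℝ, Mode (G j) R → Mode (G (j + 1)) R' → R' ≤ R + DD

/-- SML: smallness after the mode. -/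
def S_SML : Prop := ∀ G : ℝ → ℝ, Cl G → ∀ R η : ℝ, Mode G R → En G ≤ 400 → 0 < η →
  ∀ v, R + 400 / η ^ 6 ≤ v → G v ≤ η

/-- STEP: one step of the tail estimate. -/
def S_STEP : Prop := ∀ G : ℝ → ℝ, Cl G → (∀ v, G v ≤ 2) → (∀ v, T G v ≤ 2) →
  ∀ D η L X R R' : ℝ, 0 ≤ D → 0 < η → 0 ≤ L → 0 ≤ X → R' ≤ R + D →
    (∀ v, R' + L ≤ v → G v ≤ η ∧ G v ≤ X * Real.exp (-((v - R' - L) / 2))) →
    ∀ v, R + L ≤ v →
      T G v ≤ Real.exp (D / 2) * (48 + 3 / 2 * η ^ 3 * X ^ 2) * Real.exp (-((v - R - L) / 2))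

/-- CHT: uniform tail estimate for the chains. -/
def S_CHT : Prop := ∃ L X : ℝ, 0 ≤ L ∧ 0 ≤ X ∧
  ∀ (κ : ℝ) (m : ℕ) (G : ℕ → ℝ → ℝ), 1 ≤ κ → κ ≤ 2 → 1 ≤ m → Chain κ m G →
    ∀ j, j ≤ m → ∃ R : ℝ, Mode (G j) R ∧ R ≤ 3 + DD * j ∧
      ∀ v, R + L ≤ v → G j v ≤ X * Real.exp (-((v - R - L) / 2))

/-- CHU: uniform comparison with `U`. -/
def S_CHU : Prop := ∃ c A : ℕ → ℝ, (∀ j, 0 < c j) ∧
  ∀ (κ : ℝ) (m : ℕ) (G : ℕ → ℝ → ℝ), 1 ≤ κ → κ ≤ 2 → 1 ≤ m → Chain κ m G →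
    ∀ j, j ≤ m → ∀ v, c j * U v ≤ G j v ∧ G j v ≤ A j * U v

/-- CPT: compactness. -/
def S_CPT : Prop := ∀ F : ℕ → ℕ → ℝ → ℝ, (∀ j m, j ≤ m → ∀ v, 0 ≤ F m j v ∧ F m j v ≤ 2) →
  (∀ j m, j ≤ m → ∀ v v', F m j v ≤ Real.exp (|v - v'| / 2) * F m j v') →
  ∃ (φ : ℕ → ℕ) (G : ℕ → ℝ → ℝ), StrictMono φ ∧ (∀ j, Continuous (G j)) ∧
    ∀ j v, Tendsto (fun i => F (φ i) j v) atTop (𝓝 (G j v))

/-- DOM: passage to the limit. -/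
def S_DOM : Prop := ∀ (F : ℕ → ℝ → ℝ) (G : ℝ → ℝ) (A : ℝ), (∀ᶠ i in atTop, Continuous (F i)) →
  (∀ᶠ i in atTop, ∀ v, 0 ≤ F i v ∧ F i v ≤ A * U v) →
  (∀ v, Tendsto (fun i => F i v) atTop (𝓝 (G v))) →
  (∀ v, Tendsto (fun i => T (F i) v) atTop (𝓝 (T G v))) ∧
  Tendsto (fun i => Ti (F i)) atTop (𝓝 (Ti G))

/-- LIM: infinite backward orbits. -/
def S_LIM : Prop := ∀ κ : ℝ, 1 ≤ κ → κ ≤ 2 → ∃ G : ℕ → ℝ → ℝ, (∀ j, Cl (G j)) ∧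
  (∀ j, T (G (j + 1)) = G j) ∧ G 0 0 = 1 ∧ Ti (G 1) = κ

/-! ### Star bodies -/

/-- The radial function. -/
noncomputable def rad {n : ℕ} (K : Set (E n)) (x : E n) : ℝ := sSup {l : ℝ | 0 ≤ l ∧ l • x ∈ K}

/-- Star bodies. -/
structure StarBody {n : ℕ} (K : Set (E n)) : Prop where
  compact : IsCompact K
  star : StarConvex ℝ 0 K
  pos : ∀ x ∈ sphere (0 : E n) 1, 0 < rad K x
  cont : ContinuousOn (rad K) (sphere 0 1)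

/-- The set with given radial function. -/
def body {n : ℕ} (ρ : E n → ℝ) : Set (E n) :=
  {x | ∃ u : E n, ‖u‖ = 1 ∧ ∃ r : ℝ, 0 ≤ r ∧ r ≤ ρ u ∧ x = r • u}

/-- SBR: star bodies with given radial function. -/
def S_SBR : Prop := ∀ {n : ℕ} (ρ : E n → ℝ), 1 ≤ n → ContinuousOn ρ (sphere 0 1) →
  (∀ u ∈ sphere (0 : E n) 1, 0 < ρ u) →
  StarBody (body ρ) ∧ (∀ u ∈ sphere (0 : E n) 1, rad (body ρ) u = ρ u) ∧
  ((∀ u ∈ sphere (0 : E n) 1, ρ (-u) = ρ u) → body ρ = -body ρ)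

/-- BEQ: the intersection body as a set with given radial function. -/
def S_BEQ : Prop := ∀ {n : ℕ} (K : Set (E n)) (ρ : E n → ℝ),
  (∀ u ∈ sphere (0 : E n) 1, secVol K u = ρ u) → IB K = body ρ

/-- The norm of the first three coordinates. -/
noncomputable def PP (z : E 6) : ℝ := √(z 0 ^ 2 + z 1 ^ 2 + z 2 ^ 2)

/-- The norm of the last three coordinates. -/
noncomputable def QQ (z : E 6) : ℝ := √(z 3 ^ 2 + z 4 ^ 2 + z 5 ^ 2)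

/-- A point with given norms of the two components. -/
noncomputable def pt (a b : ℝ) : E 6 := WithLp.toLp 2 ![a, 0, 0, b, 0, 0]

/-- The radial function of the profile `G`, with value `g` of `G / U` at infinity. -/
noncomputable def rho (G : ℝ → ℝ) (g : ℝ) (z : E 6) : ℝ :=
  if PP z = 0 ∨ QQ z = 0 then √2 * g
  else √2 * (G (Real.log (QQ z / PP z)) / U (Real.log (QQ z / PP z)))

/-- PQ: facts on `PP` and `QQ`. -/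
def S_PQ : Prop := Continuous PP ∧ Continuous QQ ∧ (∀ z, 0 ≤ PP z ∧ 0 ≤ QQ z) ∧
  (∀ z, ‖z‖ ^ 2 = PP z ^ 2 + QQ z ^ 2) ∧
  (∀ (r : ℝ) z, PP (r • z) = |r| * PP z ∧ QQ (r • z) = |r| * QQ z) ∧
  (∀ a b : ℝ, PP (pt a b) = |a| ∧ QQ (pt a b) = |b|) ∧ ∀ z, PP (-z) = PP z ∧ QQ (-z) = QQ z

/-- RHC: continuity of the radial function. -/
def S_RHC : Prop := ∀ (G : ℝ → ℝ) (g : ℝ), Cl G → Tendsto (fun v => G v / U v) atTop (𝓝 g) →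
  0 < g → ContinuousOn (rho G g) (sphere 0 1) ∧
    (∀ u ∈ sphere (0 : E 6) 1, 0 < rho G g u) ∧ ∀ u, rho G g (-u) = rho G g u

/-- ROT: rotation invariance of the section volume. -/
def S_ROT : Prop := ∀ L : Set (E 6),
  (∀ z z' : E 6, PP z = PP z' → QQ z = QQ z' → (z ∈ L ↔ z' ∈ L)) →
  ∀ u : E 6, secVol L u = secVol L (pt (PP u) (QQ u))

/-- PAR: the section volume as an integral. -/
def S_PAR : Prop := ∀ S : Set (ℝ × ℝ), MeasurableSet S → ∀ a b : ℝ, 0 ≤ a → 0 ≤ b →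
  a ^ 2 + b ^ 2 = 1 →
    (volume : Measure (ℝ ∙ pt a b)ᗮ) {z | (PP (z : E 6) ^ 2, QQ (z : E 6) ^ 2) ∈ S} =
      ENNReal.ofReal (Real.pi ^ 2) * ∫⁻ s : ℝ, ∫⁻ x in Ioi (0 : ℝ), ∫⁻ y in Ioi (0 : ℝ),
        S.indicator (fun _ => (1 : ℝ≥0∞)) (s ^ 2 * b ^ 2 + x, s ^ 2 * a ^ 2 + y)

/-- FUB: integration over `s`. -/
def S_FUB : Prop := ∀ S : Set (ℝ × ℝ), MeasurableSet S → ∀ a b : ℝ, 0 ≤ a → 0 ≤ b →
  a ^ 2 + b ^ 2 = 1 →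
    ∫⁻ s : ℝ, ∫⁻ x in Ioi (0 : ℝ), ∫⁻ y in Ioi (0 : ℝ),
        S.indicator (fun _ => (1 : ℝ≥0∞)) (s ^ 2 * b ^ 2 + x, s ^ 2 * a ^ 2 + y) =
      ∫⁻ x in Ioi (0 : ℝ), ∫⁻ y in Ioi (0 : ℝ), S.indicator (fun _ => (1 : ℝ≥0∞)) (x, y) *
        ENNReal.ofReal (2 / max (b / √x) (a / √y))

/-- The set of the pairs of squared norms of the points of the body with profile `G`. -/
def SS (G : ℝ → ℝ) (g : ℝ) : Set (ℝ × ℝ) :=
  {w | (0 < w.1 → 0 < w.2 → √(w.1 * w.2) ≤ G (Real.log (w.2 / w.1) / 2) ^ 2) ∧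
    (w.1 = 0 ∨ w.2 = 0 → w.1 + w.2 ≤ 2 * g ^ 2)}

/-- SUB: change of variables. -/
def S_SUB : Prop := ∀ (G : ℝ → ℝ) (g : ℝ), Cl G → ∀ a b : ℝ, 0 ≤ a → 0 ≤ b →
  a ^ 2 + b ^ 2 = 1 →
    ∫⁻ x in Ioi (0 : ℝ), ∫⁻ y in Ioi (0 : ℝ), (SS G g).indicator (fun _ => (1 : ℝ≥0∞)) (x, y) *
        ENNReal.ofReal (2 / max (b / √x) (a / √y)) =
      ∫⁻ v : ℝ, ENNReal.ofReal (8 / 5 * (G v ^ 5 * Real.exp (-(v / 2)) /
        max b (a * Real.exp (-v))))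

/-- SSB: the body with profile `G` in terms of `SS`. -/
def S_SSB : Prop := ∀ (G : ℝ → ℝ) (g : ℝ), Cl G → 0 < g →
  MeasurableSet (SS G g) ∧ ∀ z : E 6, z ∈ body (rho G g) ↔ (PP z ^ 2, QQ z ^ 2) ∈ SS G g

/-- SEV: the section volume. -/
def S_SEV : Prop := ∀ (G : ℝ → ℝ) (g : ℝ), Cl G → 0 < g → ∀ u ∈ sphere (0 : E 6) 1,
  secVol (body (rho G g)) u =
    8 * Real.pi ^ 2 / 5 * ∫ v : ℝ, G v ^ 5 * Real.exp (-(v / 2)) /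
      max (QQ u) (PP u * Real.exp (-v))

/-- SET: the one-dimensional identity. -/
def S_SET : Prop := ∀ G : ℝ → ℝ, Cl G → ∀ u ∈ sphere (0 : E 6) 1,
  8 * Real.pi ^ 2 / 5 * ∫ v : ℝ, G v ^ 5 * Real.exp (-(v / 2)) /
      max (QQ u) (PP u * Real.exp (-v)) =
    32 * Real.pi ^ 2 / 15 * rho (T G) (Ti G) u

/-- SCA: dilates. -/
def S_SCA : Prop := ∀ (ρ : E 6 → ℝ) (l : ℝ), 0 < l → ∀ u ∈ sphere (0 : E 6) 1,
  secVol (body (fun z => l * ρ z)) u = l ^ 5 * secVol (body ρ) u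

/-- The normalizing factor. -/
noncomputable def lam : ℝ := √(√(15 / (32 * Real.pi ^ 2)))

/-- FIX: the intersection body of the normalized body with profile `G`. -/
def S_FIX : Prop := ∀ (G : ℝ → ℝ) (g : ℝ), Cl G → 0 < g →
  IB (body (fun z => lam * rho G g z)) = body (fun z => lam * rho (T G) (Ti G) z)

/-- NEL: the bodies are not ellipsoids. -/
def S_NEL : Prop := ∀ (G : ℝ → ℝ) (g : ℝ), Cl G → Tendsto (fun v => G v / U v) atTop (𝓝 g) →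
  0 < g → G 0 = 1 → g ≠ 1 → ∀ l : ℝ, 0 < l →
    ¬ ∃ (M : E 6 ≃ₗ[ℝ] E 6) (c : E 6),
      body (fun z => l * rho G g z) = (fun x => c + M x) '' closedBall 0 1

/-- END: the conclusion. -/
def S_END : Prop := ∀ κ : ℝ, 1 < κ → κ ≤ 2 → ∃ L : Set (E 6), StarBody L ∧ L = -L ∧
  (∀ m : ℕ, ∃ M : Set (E 6), StarBody M ∧ M = -M ∧ IB^[m] M = L) ∧
  (¬ ∃ (M : E 6 ≃ₗ[ℝ] E 6) (c : E 6), L = (fun x => c + M x) '' closedBall 0 1) ∧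
  ∃ r : ℝ, 0 < r ∧ ∀ u ∈ sphere (0 : E 6) 1, (PP u = QQ u → rad L u = r) ∧
    (PP u = 0 ∨ QQ u = 0 → rad L u = κ * r)

end Pool.Agent.H638.KP
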