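import Pool.Agent.H638.KP.Defs

set_option autoImplicit false

namespace Pool.Agent.H638.KP

/-- ADM. -/
theorem ADM_ok (h1 : S_TC) (h2 : S_TL) (h3 : S_TMO) (h4 : S_TUN) : S_ADM := fun G hG =>
  ⟨(h1 G hG.cl).1, h2 G hG.cl, h3 G hG.cl hG.mono, h4 G hG.cl hG.uni⟩

end Pool.Agent.H638.KP
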