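import Pool.Agent.H638.KP.Defs

set_option autoImplicit false

open MeasureTheory Set Filter Topology Metric

namespace Pool.Agent.H638.KP

open Pool.Agent.H638.IB (E secVol IB)

namespace BAaux

theorem ratio (R v : ℝ) : Real.cosh v / Real.cosh (v - R) =
    (1 + Real.exp (-(2 * v))) / (Real.exp (-R) + Real.exp R * Real.exp (-(2 * v))) := by
  rw [Real.cosh_eq, Real.cosh_eq, div_eq_div_iff (by positivity) (by positivity)]
  have h1 : Real.exp (v - R) = Real.exp v * Real.exp (-R) := by
    rw [← Real.exp_add]; congr 1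
  have h2 : Real.exp (-(v - R)) = Real.exp (-v) * Real.exp R := by
    rw [← Real.exp_add]; congr 1; ring
  have h3 : Real.exp (-(2 * v)) = Real.exp (-v) * Real.exp (-v) := by
    rw [← Real.exp_add]; congr 1; ring
  have h4 : Real.exp v * Real.exp (-v) = 1 := by
    rw [← Real.exp_add]; simp
  rw [h1, h2, h3]
  linear_combination (Real.exp (-v) * Real.exp R / 2
    - Real.exp (-v) * Real.exp (-R) / 2 ) * h4

theorem ratio_tendsto (R : ℝ) : Tendsto (fun v => Real.cosh v / Real.cosh (v - R)) atTop
    (𝓝 (Real.exp R)) := by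
  have h0 : Tendsto (fun v : ℝ => Real.exp (-(2 * v))) atTop (𝓝 0) := by
    apply Real.tendsto_exp_neg_atTop_nhds_zero.comp
    exact tendsto_id.const_mul_atTop (by norm_num)
  have h1 : Tendsto (fun v : ℝ => (1 + Real.exp (-(2 * v))) /
      (Real.exp (-R) + Real.exp R * Real.exp (-(2 * v)))) atTop
      (𝓝 ((1 + 0) / (Real.exp (-R) + Real.exp R * 0))) := by
    apply Tendsto.div
    · exact tendsto_const_nhds.add h0
    · exact tendsto_const_nhds.add (tendsto_const_nhds.mul h0)
    · rw [mul_zero, add_zero]; exact (Real.exp_pos _).ne'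
  have h2 : (1 + 0) / (Real.exp (-R) + Real.exp R * 0) = Real.exp R := by
    rw [mul_zero, add_zero, add_zero, Real.exp_neg, one_div, inv_inv]
  rw [h2] at h1
  refine h1.congr (fun v => ?_)
  rw [ratio]

end BAaux

open BAaux

theorem BA_ok (hUF : S_UF) : S_BA := by
  obtain ⟨uc, ue, ub, u0, ud, ul, ua, um, -, -⟩ := hUF
  intro R hR
  have uabs : ∀ v, U |v| = U v := by
    intro v
    rcases abs_cases v with ⟨h, _⟩ | ⟨h, _⟩
    · rw [h]
    · rw [h, ue]
  have habs : |R| = R := abs_of_nonneg hR
  have hb : ∀ v, Real.exp (-(R / 2)) * U v ≤ B R v ∧ B R v ≤ Real.exp (R / 2) * U v := by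
    intro v
    constructor
    · have h1 := ul |v| (|v| - R)
      have h2 : |v| - (|v| - R) = R := by ring
      rw [h2, habs, uabs] at h1
      have h3 := mul_le_mul_of_nonneg_left h1 (Real.exp_pos (-(R / 2))).le
      rw [← mul_assoc, ← Real.exp_add, neg_add_cancel, Real.exp_zero, one_mul] at h3
      exact h3
    · have h1 := ul (|v| - R) |v|
      have h2 : |v| - R - |v| = -R := by ring
      rw [h2, abs_neg, habs, uabs] at h1
      exact h1
  have hmode : Mode (B R) R := by
    refine ⟨hR, ?_, ?_⟩
    · intro a ha b hb hab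
      unfold B
      rw [abs_of_nonneg ha.1, abs_of_nonneg hb.1, ← ue (a - R), ← ue (b - R)]
      apply ua
      · show 0 ≤ -(b - R)
        linarith [hb.2]
      · show 0 ≤ -(a - R)
        linarith [ha.2]
      · linarith
    · intro a ha b hb hab
      have ha' : R ≤ a := ha
      have hb' : R ≤ b := hb
      unfold B
      rw [abs_of_nonneg (le_trans hR ha'), abs_of_nonneg (le_trans hR hb')]
      apply ua
      · show 0 ≤ a - R
        linarith
      · show 0 ≤ b - R
        linarith
      · linarith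
  refine ⟨⟨⟨?_, ?_, ?_⟩, ?_, ?_, ⟨R, hmode⟩⟩, hmode, ?_, ?_, hb, ?_, ?_, ?_⟩
  · exact uc.comp (continuous_abs.sub continuous_const)
  · intro v
    unfold B
    rw [abs_neg]
  · exact ⟨_, _, Real.exp_pos _, hb⟩
  · intro v v'
    refine (ul (|v| - R) (|v'| - R)).trans ?_
    refine mul_le_mul_of_nonneg_right ?_ (ub _).1.le
    apply Real.exp_le_exp.2
    have h1 : |v| - R - (|v'| - R) = |v| - |v'| := by ring
    rw [h1]
    have := abs_abs_sub_abs_le_abs_sub v v'
    linarith
  · intro v v' h1 h2
    unfold B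
    rw [abs_of_nonneg h1, abs_of_nonneg (h1.trans h2)]
    exact um v v' R hR h2
  · intro v
    exact (ub _).2
  · unfold B
    rw [habs, sub_self, u0]
  · intro v hv
    unfold B
    rw [abs_of_nonneg (hR.trans hv)]
    have h1 := (ud (v - R)).2
    rw [abs_of_nonneg (sub_nonneg.2 hv)] at h1
    exact h1
  · have h1 := (Real.continuous_sqrt.tendsto _).comp (ratio_tendsto R)
    have h2 : √(Real.exp R) = Real.exp (R / 2) := by
      rw [Real.exp_half]
    rw [h2] at h1
    refine h1.congr' ?_
    filter_upwards [eventually_ge_atTop 0] with v hv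
    show √(Real.cosh v / Real.cosh (v - R)) = B R v / U v
    unfold B U
    rw [abs_of_nonneg hv, Real.sqrt_div (Real.cosh_pos v).le, div_inv_eq_mul, div_eq_inv_mul]
  · intro R' _ v
    refine (ul (|v| - R) (|v| - R')).trans ?_
    have h1 : |v| - R - (|v| - R') = -(R - R') := by ring
    rw [h1, abs_neg]
    exact le_rfl

end Pool.Agent.H638.KP
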