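import Pool.Agent.H638.KP.Defs

set_option autoImplicit false

open MeasureTheory Set Filter Topology Metric

namespace Pool.Agent.H638.KP

theorem BE_ok (h1 : S_UF) (h2 : S_BA) : S_BE := by
  intro R hR
  obtain ⟨hUc, -, hU01, -, -, -, -, -, hUi, hUE⟩ := h1
  obtain ⟨hadm, -, -, -, hcmp, -⟩ := h2 R hR
  have hBc : Continuous (B R) := hadm.cl.cont
  have hBpos : ∀ v, 0 < B R v := fun v => (hU01 _).1
  have hBi : Integrable (fun v => B R v ^ 6) := by
    refine Integrable.mono' (hUi.const_mul (Real.exp (R / 2) ^ 6)) (hBc.pow 6).aestronglyMeasurable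
      (Eventually.of_forall (fun v => ?_))
    rw [Real.norm_of_nonneg (pow_pos (hBpos v) 6).le, ← mul_pow]
    exact pow_le_pow_left₀ (hBpos v).le (hcmp v).2 6
  constructor
  · unfold En
    rw [integral_pos_iff_support_of_nonneg (fun v => (pow_pos (hBpos v) 6).le) hBi]
    have : Function.support (fun v => B R v ^ 6) = univ := by
      ext v
      simp [(hBpos v).ne']
    rw [this]
    simp
  · unfold En B
    rw [integral_comp_abs (f := fun v => U (v - R) ^ 6)]
    have hi : Integrable (fun v => U (v - R) ^ 6) := hUi.comp_sub_right R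
    have h3 : ∫ v in Ioi (0 : ℝ), U (v - R) ^ 6 ≤ ∫ v : ℝ, U (v - R) ^ 6 :=
      setIntegral_le_integral hi (Eventually.of_forall (fun v => (pow_pos (hU01 _).1 6).le))
    have h5 : ∫ v : ℝ, U (v - R) ^ 6 = ∫ v : ℝ, U v ^ 6 :=
      integral_sub_right_eq_self (fun v => U v ^ 6) R
    have h4 : ∫ v : ℝ, U v ^ 6 ≤ 6 := hUE
    linarith

end Pool.Agent.H638.KP
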