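import Pool.Agent.H638.KP.Defs

set_option autoImplicit false

open MeasureTheory Set Filter Topology Metric

namespace Pool.Agent.H638.KP

open Pool.Agent.H638.IB (E secVol IB)

/-- BEQ. -/
theorem BEQ_ok : S_BEQ := by
  intro n K ρ h
  ext x
  constructor
  · rintro ⟨u, hu, r, hr, hr', hx⟩
    exact ⟨u, hu, r, hr, by rw [← h u (by simpa using hu)]; exact hr', hx⟩
  · rintro ⟨u, hu, r, hr, hr', hx⟩
    exact ⟨u, hu, r, hr, by rw [h u (by simpa using hu)]; exact hr', hx⟩

end Pool.Agent.H638.KP
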