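import Pool.Agent.H638.KP.Defs

set_option autoImplicit false

open MeasureTheory Set Filter Topology Metric
open scoped Pointwise RealInnerProductSpace ENNReal

namespace Pool.Agent.H638.KP

namespace BTaux

lemma U_abs (h : S_UF) (a : ℝ) : U |a| = U a := by
  rcases abs_choice a with h1 | h1
  · rw [h1]
  · rw [h1, h.2.1]

lemma U_le (h : S_UF) {a b : ℝ} (hab : |a| ≤ |b|) : U b ≤ U a := by
  rw [← U_abs h a, ← U_abs h b]
  exact h.2.2.2.2.2.2.1 (abs_nonneg a) (abs_nonneg b) hab

lemma T_shift (h : S_TU) (R v : ℝ) : T (fun s => U (s - R)) v = U (v - R) := by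
  have e : T U (v - R) = U (v - R) := by rw [h]
  rw [← e]
  unfold T
  congr 1
  rw [← integral_add_right_eq_self (fun s => Real.exp (-(|v - s| / 2)) * U (s - R) ^ 5) R]
  congr 1
  funext s
  rw [add_sub_cancel_right, show v - (s + R) = v - R - s by ring]

end BTaux

open BTaux in
theorem BT_ok (h1 : S_UF) (h2 : S_UI) (h3 : S_TU) (h4 : S_TM) (h5 : S_BA) : S_BT := by
  intro R hR v
  obtain ⟨hadm, -, -, -, hb, -⟩ := h5 R hR
  have hpos : ∀ w, 0 ≤ U w := fun w => (h1.2.2.1 w).1.le
  have key : ∀ R' : ℝ, |R'| = R → U (v - R') ≤ T (B R) v := by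
    intro R' hR'
    have hle : ∀ w, U (w - R') ≤ B R w := by
      intro w
      unfold B
      apply U_le h1
      have := abs_sub_abs_le_abs_sub w R'
      have h2' := abs_sub_abs_le_abs_sub R' w
      rw [abs_sub_comm R' w] at h2'
      rw [abs_le]
      rw [hR'] at this h2'
      constructor <;> linarith
    have := (h4.1 (fun w => U (w - R')) (B R) (h1.1.comp (continuous_id.sub continuous_const))
      hadm.cl.cont ⟨Real.exp (R / 2), fun w => ⟨hpos _, hle w, (hb w).2⟩⟩).1 v
    rwa [T_shift h3] at this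
  rcases le_total 0 v with hv | hv
  · have e : B R v = U (v - R) := by unfold B; rw [abs_of_nonneg hv]
    rw [e]
    exact key R (abs_of_nonneg hR)
  · have e : B R v = U (v - (-R)) := by
      unfold B; rw [abs_of_nonpos hv, ← h1.2.1]
      congr 1; ring
    rw [e]
    exact key (-R) (by rw [abs_neg, abs_of_nonneg hR])

end Pool.Agent.H638.KP
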