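import Pool.Agent.H638.KP.Defs

set_option autoImplicit false

open MeasureTheory Set Filter Topology Metric

namespace Pool.Agent.H638.KP

/-- CH0. -/
theorem CH0_ok (h1 : S_INF) (h2 : S_UF) (_h3 : S_ADM) : S_CH0 := by
  intro κ m G hκ1 hκ2 hm hC
  have hU : ∀ v, 0 < U v := fun v => (h2.2.2.1 v).1
  have hU0 : U 0 = 1 := h2.2.2.2.1
  have hA := hC.adm 0 (Nat.zero_le _)
  have hs : T (G 1) = G 0 := hC.step 0 (by omega)
  have hlim := (h1 (G 1) (hC.adm 1 hm).cl).1
  rw [hC.inf, hs] at hlim
  have key : ∀ v : ℝ, 0 ≤ v → U v ≤ G 0 v ∧ G 0 v ≤ 2 * U v := by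
    intro v hv
    constructor
    · have := hA.mono 0 v le_rfl hv
      rw [hC.zero, hU0] at this
      linarith
    · have h : G 0 v / U v ≤ κ := by
        refine ge_of_tendsto hlim ?_
        filter_upwards [eventually_ge_atTop v] with w hw
        rw [div_le_div_iff₀ (hU v) (hU w)]
        exact hA.mono v w hv hw
      rw [div_le_iff₀ (hU v)] at h
      nlinarith [hU v]
  intro v
  rcases le_total 0 v with hv | hv
  · exact key v hv
  · have := key (-v) (by linarith)
    rwa [hA.cl.even, h2.2.1] at this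

end Pool.Agent.H638.KP
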