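import Pool.Agent.H638.KP.Defs

set_option autoImplicit false

open MeasureTheory Set Filter Topology Metric
open scoped Pointwise RealInnerProductSpace ENNReal

namespace Pool.Agent.H638.KP

open Pool.Agent.H638.IB (E secVol IB)

namespace CHEaux

theorem pos (hUF : S_UF) {G : ℝ → ℝ} (hG : Cl G) (v : ℝ) : 0 < G v := by
  obtain ⟨c, C, hc, h⟩ := hG.bd
  exact lt_of_lt_of_le (mul_pos hc (hUF.2.2.1 v).1) (h v).1

theorem int6 (hUI : S_UI) (hUF : S_UF) {G : ℝ → ℝ} (hG : Cl G) :
    Integrable (fun s => G s ^ 6) := by
  obtain ⟨c, C, hc, h⟩ := hG.bd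
  exact (hUI G hG.cont ⟨C, fun v => by
    rw [abs_of_pos (pos hUF hG v)]
    exact (h v).2⟩).2.2.2.1

theorem En_mul (l : ℝ) (G : ℝ → ℝ) : En (fun v => l * G v) = l ^ 6 * En G := by
  unfold En
  rw [← integral_const_mul]
  congr 1
  funext v
  ring

end CHEaux

open CHEaux

theorem CHE_ok (hENE : S_ENE) (hBE : S_BE) (hBT : S_BT) (hTM : S_TM) (hBA : S_BA) (hCH0 : S_CH0)
    (hUF : S_UF) (hUI : S_UI) : S_CHE := by
  intro κ m G hκ1 hκ2 hm hC
  have hcl : ∀ j, j ≤ m → Cl (G j) := fun j hj => (hC.adm j hj).cl
  have hpos : ∀ j, j ≤ m → 0 < En (G j) := fun j hj => (hENE (G j) (hcl j hj)).1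
  -- downward induction
  have hdown : ∀ i, i + 1 ≤ m → En (G (m - i)) ^ 5 ≤ 12 ^ 4 * En (G (m - i - 1)) := by
    intro i
    induction i with
    | zero =>
      intro _
      obtain ⟨μ, R, hμ, hR, hG⟩ := hC.last
      have h1 : G (m - 1) = fun v => μ ^ 5 * T (B R) v := by
        have := hC.step (m - 1) (by omega)
        rw [show m - 1 + 1 = m by omega, hG, (hTM.2 μ (B R)).1] at this
        exact this.symm
      have h2 : En (G m) = μ ^ 6 * En (B R) := by rw [hG, En_mul]
      have h3 : μ ^ 30 * En (B R) ≤ En (G (m - 1)) := by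
        have e : μ ^ 30 * En (B R) = En (fun v => μ ^ 5 * B R v) := by
          rw [En_mul]; ring
        rw [e]
        unfold En
        refine integral_mono_of_nonneg (Filter.Eventually.of_forall fun v => ?_)
          (int6 hUI hUF (hcl (m - 1) (by omega))) (Filter.Eventually.of_forall fun v => ?_)
        · simp only [Pi.zero_apply]
          positivity
        · have h4 := hBT R hR v
          have h5 := pos hUF (hBA R hR).1.cl v
          rw [h1]
          beta_reduce
          gcongr
      obtain ⟨h4, h5⟩ := hBE R hR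
      simp only [Nat.sub_zero]
      rw [h2]
      calc (μ ^ 6 * En (B R)) ^ 5 = En (B R) ^ 4 * (μ ^ 30 * En (B R)) := by ring
        _ ≤ 12 ^ 4 * (μ ^ 30 * En (B R)) := by gcongr
        _ ≤ 12 ^ 4 * En (G (m - 1)) := by gcongr
    | succ i ih =>
      intro hi
      have ih' := ih (by omega)
      have e1 : m - i - 1 = m - (i + 1) := by omega
      rw [e1] at ih'
      set j := m - (i + 1) with hj
      have e2 : m - i = j + 1 := by omega
      rw [e2] at ih'
      have hE := (hENE (G (j + 1)) (hcl _ (by omega))).2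
      have s1 : T (G (j + 1)) = G j := hC.step j (by omega)
      have s2 : T (G j) = G (j - 1) := by
        have := hC.step (j - 1) (by omega)
        rwa [show j - 1 + 1 = j by omega] at this
      rw [s1, s2] at hE
      have p0 := hpos j (by omega)
      have p1 := hpos (j - 1) (by omega)
      have h6 : En (G j) * En (G j) ^ 5 ≤ En (G j) * (12 ^ 4 * En (G (j - 1))) := by
        calc En (G j) * En (G j) ^ 5 = En (G j) ^ 6 := by ring
          _ ≤ En (G (j + 1)) ^ 5 * En (G (j - 1)) := hE
          _ ≤ (12 ^ 4 * En (G j)) * En (G (j - 1)) := by gcongr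
          _ = En (G j) * (12 ^ 4 * En (G (j - 1))) := by ring
      exact le_of_mul_le_mul_left h6 p0
  -- the first energy
  have h0 : En (G 0) ≤ 400 := by
    have h1 := hCH0 κ m G hκ1 hκ2 hm hC
    have h2 : En (G 0) ≤ En (fun v => 2 * U v) := by
      unfold En
      refine integral_mono_of_nonneg (Filter.Eventually.of_forall fun v => ?_)
        ?_ (Filter.Eventually.of_forall fun v => ?_)
      · simp only [Pi.zero_apply]
        positivity
      · have h3 := hUF.2.2.2.2.2.2.2.2.1
        have : (fun v => (2 * U v) ^ 6) = fun v => 64 * U v ^ 6 := by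
          funext v
          ring
        rw [this]
        exact h3.const_mul 64
      · have h3 := pos hUF (hcl 0 (by omega)) v
        have h4 := (h1 v).2
        beta_reduce
        gcongr
    rw [En_mul] at h2
    have h3 := hUF.2.2.2.2.2.2.2.2.2
    linarith
  intro j
  induction j with
  | zero => intro _; exact h0
  | succ j ih =>
    intro hj
    have h1 := ih (by omega)
    have h2 := hdown (m - (j + 1)) (by omega)
    rw [show m - (m - (j + 1)) = j + 1 by omega, Nat.add_sub_cancel] at h2
    by_contra hc
    push Not at hc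
    have h3 : (400:ℝ) ^ 5 < En (G (j + 1)) ^ 5 := by gcongr
    norm_num at h3
    linarith

end Pool.Agent.H638.KP
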