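import Pool.Agent.H638.KP.Defs

set_option autoImplicit false

open MeasureTheory Set Filter Topology Metric
open scoped Pointwise RealInnerProductSpace ENNReal

namespace Pool.Agent.H638.KP

open Pool.Agent.H638.IB (E secVol IB)

namespace CHMaux

theorem absbd (hUF : S_UF) (G : ℝ → ℝ) (hG : Cl G) : ∃ C : ℝ, ∀ v, |G v| ≤ C * U v := by
  obtain ⟨c, C, hc, hb⟩ := hG.bd
  refine ⟨C, fun v => ?_⟩
  have h1 := hb v
  have hU := (hUF.2.2.1 v).1
  have h0 : 0 ≤ G v := le_trans (by positivity) h1.1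
  rw [abs_of_nonneg h0]
  exact h1.2

theorem nonneg (hUF : S_UF) (G : ℝ → ℝ) (hG : Cl G) (v : ℝ) : 0 ≤ G v := by
  obtain ⟨c, C, hc, hb⟩ := hG.bd
  have hU := (hUF.2.2.1 v).1
  exact le_trans (by positivity) (hb v).1

theorem le_mode (G : ℝ → ℝ) (hG : Cl G) (R : ℝ) (hR : Mode G R) (v : ℝ) : G v ≤ G R := by
  have key : ∀ w : ℝ, 0 ≤ w → G w ≤ G R := by
    intro w hw
    rcases le_total w R with h | h
    · exact hR.2.1 ⟨hw, h⟩ ⟨hR.1, le_refl R⟩ h
    · exact hR.2.2 (mem_Ici.mpr (le_refl R)) (mem_Ici.mpr h) h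
  rcases le_total 0 v with h | h
  · exact key v h
  · have h1 := key (-v) (by linarith)
    rwa [hG.even v] at h1

theorem energy_low (hUF : S_UF) (hUI : S_UI) (G : ℝ → ℝ) (hG : Cl G) (R R' e : ℝ) (he : 0 ≤ e)
    (hRR : R ≤ R') (h : ∀ x ∈ Icc R R', e ≤ G x) : (R' - R) * e ^ 6 ≤ En G := by
  obtain ⟨_, _, _, h6, _⟩ := hUI G hG.cont (absbd hUF G hG)
  unfold En
  have h1 : ∫ v in Icc R R', G v ^ 6 ≤ ∫ v : ℝ, G v ^ 6 :=
    setIntegral_le_integral h6 (Eventually.of_forall fun v => by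
      have := nonneg hUF G hG v
      positivity)
  have h2 : ∫ v in Icc R R', e ^ 6 ≤ ∫ v in Icc R R', G v ^ 6 := by
    refine setIntegral_mono_on ?_ h6.integrableOn measurableSet_Icc ?_
    · exact integrableOn_const (by simp) (by simp)
    · intro x hx
      exact pow_le_pow_left₀ he (h x hx) 6
  have h3 : ∫ _v in Icc R R', e ^ 6 = (R' - R) * e ^ 6 := by
    rw [setIntegral_const]
    simp [Measure.real, Real.volume_Icc, ENNReal.toReal_ofReal (sub_nonneg.mpr hRR)]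
  linarith

theorem cosh3 : (4 : ℝ) < Real.cosh 3 := by
  rw [Real.cosh_eq]
  have h1 : (2.7 : ℝ) < Real.exp 1 := by
    have := Real.exp_one_gt_d9
    linarith
  have h2 : Real.exp 3 = Real.exp 1 ^ 3 := by
    rw [← Real.exp_nat_mul]
    norm_num
  have h3 : (8 : ℝ) < Real.exp 3 := by
    rw [h2]
    have : (2.7 : ℝ) ^ 3 < Real.exp 1 ^ 3 := pow_lt_pow_left₀ h1 (by norm_num) (by norm_num)
    norm_num at this ⊢
    linarith
  have h4 := Real.exp_pos (-3 : ℝ)
  linarith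

end CHMaux

open CHMaux in
theorem CHM_ok (hCHS : S_CHS) (hCHE : S_CHE) (hCH0 : S_CH0) (hLOW : S_LOW) (hUF : S_UF)
    (hUI : S_UI) : S_CHM := by
  intro κ m G hκ1 hκ2 hm hC
  have hmode : ∀ j, j ≤ m → ∀ R, Mode (G j) R → 3 / 4 ≤ G j R := by
    intro j hj R hR
    obtain ⟨v, hv⟩ := (hCHS κ m G hκ1 hκ2 hm hC j hj).2
    exact hv.trans (le_mode (G j) (hC.adm j hj).cl R hR v)
  refine ⟨?_, hmode, ?_⟩
  · intro R hR
    have h1 : (1 : ℝ) ≤ G 0 R := by
      have := le_mode (G 0) (hC.adm 0 (Nat.zero_le _)).cl R hR 0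
      rwa [hC.zero] at this
    have h2 := (hCH0 κ m G hκ1 hκ2 hm hC R).2
    by_contra hlt
    push Not at hlt
    have h3 : Real.cosh 3 ≤ Real.cosh R := by
      rw [Real.cosh_le_cosh, abs_of_pos (by norm_num : (0 : ℝ) < 3), abs_of_pos (by linarith)]
      exact hlt.le
    have h4 : (4 : ℝ) < Real.cosh R := lt_of_lt_of_le cosh3 h3
    have h5 : (2 : ℝ) < √(Real.cosh R) := by
      rw [Real.lt_sqrt (by norm_num)]
      norm_num
      exact h4
    have h6 : U R < 1 / 2 := by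
      unfold U
      rw [inv_eq_one_div]
      exact one_div_lt_one_div_of_lt (by norm_num) h5
    linarith
  · intro j hj R R' hR hR'
    by_contra hlt
    push Not at hlt
    have hDD : 0 < DD := by unfold DD; norm_num
    have hRR : R < R' := by linarith
    have hcj := (hC.adm j hj.le)
    have hcj1 := (hC.adm (j + 1) hj)
    have h1 := hLOW (G (j + 1)) hcj1.cl hcj1.lip R'
    rw [hC.step j hj] at h1
    have h2 := hmode (j + 1) hj R' hR'
    have h3 : (3 / 4 : ℝ) ^ 5 ≤ G (j + 1) R' ^ 5 := pow_le_pow_left₀ (by norm_num) h2 5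
    have h4 : (1 / 9 : ℝ) ≤ G j R' := by
      have : (1 / 9 : ℝ) ≤ (3 / 4) ^ 5 / 2 := by norm_num
      linarith
    have h5 := energy_low hUF hUI (G j) hcj.cl R R' (1 / 9) (by norm_num) hRR.le (by
      intro x hx
      refine h4.trans ?_
      exact hR.2.2 (mem_Ici.mpr hx.1) (mem_Ici.mpr hRR.le) hx.2)
    have h6 := hCHE κ m G hκ1 hκ2 hm hC j hj.le
    have h7 : (R' - R) * (1 / 9) ^ 6 ≤ 400 := h5.trans h6
    have h8 : DD * (1 / 9) ^ 6 = 400 := by unfold DD; norm_num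
    have h9 : DD * (1 / 9) ^ 6 < (R' - R) * (1 / 9) ^ 6 := by
      apply mul_lt_mul_of_pos_right _ (by positivity)
      linarith
    linarith

end Pool.Agent.H638.KP
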