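import Pool.Agent.H638.KP.Defs

set_option autoImplicit false

open MeasureTheory Set Filter Topology Metric
open scoped Pointwise RealInnerProductSpace ENNReal

namespace Pool.Agent.H638.KP

open Pool.Agent.H638.IB (E secVol IB)

namespace CHNaux

theorem U_pos (v : ℝ) : 0 < U v := by
  unfold U
  have := Real.cosh_pos v
  positivity

theorem adm_smul {G : ℝ → ℝ} (h : Adm G) {l : ℝ} (hl : 0 < l) : Adm (fun v => l * G v) where
  cl :=
    { cont := continuous_const.mul h.cl.cont
      even := fun v => by rw [h.cl.even v]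
      bd := by
        obtain ⟨c, C, hc, hb⟩ := h.cl.bd
        refine ⟨l * c, l * C, mul_pos hl hc, fun v => ⟨?_, ?_⟩⟩
        · rw [mul_assoc]; exact mul_le_mul_of_nonneg_left (hb v).1 hl.le
        · rw [mul_assoc]; exact mul_le_mul_of_nonneg_left (hb v).2 hl.le }
  lip := fun v v' => by
    have := mul_le_mul_of_nonneg_left (h.lip v v') hl.le
    calc l * G v ≤ l * (Real.exp (|v - v'| / 2) * G v') := this
      _ = Real.exp (|v - v'| / 2) * (l * G v') := by ring
  mono := fun v v' h0 h1 => by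
    have := mul_le_mul_of_nonneg_left (h.mono v v' h0 h1) hl.le
    calc l * G v * U v' = l * (G v * U v') := by ring
      _ ≤ l * (G v' * U v) := this
      _ = l * G v' * U v := by ring
  uni := by
    obtain ⟨R, h0, h1, h2⟩ := h.uni
    exact ⟨R, h0, fun a ha b hb hab => mul_le_mul_of_nonneg_left (h1 ha hb hab) hl.le,
      fun a ha b hb hab => mul_le_mul_of_nonneg_left (h2 ha hb hab) hl.le⟩

theorem adm_pos {G : ℝ → ℝ} (h : Adm G) (v : ℝ) : 0 < G v := by
  obtain ⟨c, C, hc, hb⟩ := h.cl.bd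
  exact lt_of_lt_of_le (mul_pos hc (U_pos v)) (hb v).1

theorem adm_iter (hA : S_ADM) {G : ℝ → ℝ} (h : Adm G) (k : ℕ) : Adm (T^[k] G) := by
  induction k with
  | zero => exact h
  | succ k ih => rw [Function.iterate_succ_apply']; exact hA _ ih

end CHNaux

open CHNaux in
theorem CHN_ok (hI : S_IVT) (hA : S_ADM) (hB : S_BA) (hT : S_TM) : S_CHN := by
  intro κ m hκ hm
  obtain ⟨R, hR0, hR⟩ := hI (m - 1) κ hκ
  have hm1 : m - 1 + 1 = m := by omega
  rw [hm1] at hR
  have hadm : ∀ k, Adm (T^[k] (B R)) := fun k => adm_iter hA (hB R hR0).1 k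
  have hpos : 0 < T^[m] (B R) 0 := adm_pos (hadm m) 0
  obtain ⟨-, hTs⟩ := hT
  set lam0 : ℝ := (T^[m] (B R) 0)⁻¹ with hlam0
  have hl : 0 < lam0 := inv_pos.2 hpos
  set L : ℕ → ℝ := fun j => lam0 ^ ((1 / 5 : ℝ) ^ j) with hL
  have hLpos : ∀ j, 0 < L j := fun j => Real.rpow_pos_of_pos hl _
  have hL0 : L 0 = lam0 := by simp [hL]
  have hL5 : ∀ j, L (j + 1) ^ 5 = L j := by
    intro j
    simp only [hL]
    rw [← Real.rpow_natCast, ← Real.rpow_mul hl.le]
    congr 1
    rw [pow_succ]
    push_cast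
    ring
  refine ⟨fun j v => L j * T^[m - j] (B R) v, ?_⟩
  refine
    { adm := fun j hj => adm_smul (hadm (m - j)) (hLpos j)
      step := ?_
      zero := ?_
      inf := ?_
      last := ⟨L m, R, hLpos m, hR0, ?_⟩ }
  · intro j hj
    have h1 := (hTs (L (j + 1)) (T^[m - (j + 1)] (B R))).1
    have h2 : m - j = m - (j + 1) + 1 := by omega
    funext v
    have h3 := congrFun h1 v
    change T (fun v => L (j + 1) * T^[m - (j + 1)] (B R) v) v = L j * T^[m - j] (B R) v
    rw [h3, hL5, h2, Function.iterate_succ_apply']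
  · change L 0 * T^[m - 0] (B R) 0 = 1
    rw [hL0, Nat.sub_zero, hlam0]
    exact inv_mul_cancel₀ hpos.ne'
  · have h1 := (hTs (L 1) (T^[m - 1] (B R))).2
    have h3 : L 1 ^ 5 = lam0 := by rw [← hL0]; exact hL5 0
    calc Ti (fun v => L 1 * T^[m - 1] (B R) v) = L 1 ^ 5 * Ti (T^[m - 1] (B R)) := h1
      _ = κ := by
        rw [h3, hR, hlam0]
        field_simp
  · funext v
    rw [Nat.sub_self, Function.iterate_zero, id]

end Pool.Agent.H638.KP
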