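import Pool.Agent.H638.KP.Defs

set_option autoImplicit false

open MeasureTheory Set Filter Topology Metric

namespace Pool.Agent.H638.KP

/-- CHS. -/
theorem CHS_ok (h1 : S_CH0) (h2 : S_LOW) (h3 : S_UPP) (h4 : S_UF) : S_CHS := by
  intro κ m G hκ1 hκ2 hm hC j
  have hU : ∀ v, 0 < U v := fun v => (h4.2.2.1 v).1
  induction j with
  | zero =>
    intro _
    refine ⟨fun v => ?_, 0, ?_⟩
    · have := (h1 κ m G hκ1 hκ2 hm hC v).2
      have := (h4.2.2.1 v).2
      linarith
    · rw [hC.zero]; norm_num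
  | succ j ih =>
    intro hj
    obtain ⟨ih1, w, hw⟩ := ih (by omega)
    have hA := hC.adm (j + 1) hj
    have hs : T (G (j + 1)) = G j := hC.step j (by omega)
    have hG0 : ∀ v, 0 ≤ G (j + 1) v := by
      obtain ⟨c, C, hc, hb⟩ := hA.cl.bd
      exact fun v => (mul_pos hc (hU v)).le.trans (hb v).1
    refine ⟨fun v => ?_, ?_⟩
    · have := h2 (G (j + 1)) hA.cl hA.lip v
      rw [hs] at this
      have h4' : G (j + 1) v ^ 5 ≤ 4 := by linarith [ih1 v]
      by_contra hc
      push Not at hc
      have : (2 : ℝ) ^ 5 ≤ G (j + 1) v ^ 5 := pow_le_pow_left₀ (by norm_num) hc.le 5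
      norm_num at this
      linarith
    · by_contra hc
      push Not at hc
      have := h3 (G (j + 1)) hA.cl (3 / 4) (fun v => (hc v).le) w
      rw [hs] at this
      norm_num at this
      linarith

end Pool.Agent.H638.KP
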