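import Pool.Agent.H638.KP.Defs

set_option autoImplicit false

open MeasureTheory Set Filter Topology Metric
open scoped Pointwise RealInnerProductSpace ENNReal

namespace Pool.Agent.H638.KP

open Pool.Agent.H638.IB (E secVol IB)

namespace CHTaux

theorem DD_nonneg : 0 ≤ DD := by
  unfold DD; positivity

theorem mode_smul (μ : ℝ) (hμ : 0 < μ) (H : ℝ → ℝ) (R : ℝ) (h : Mode H R) :
    Mode (fun v => μ * H v) R := by
  obtain ⟨h0, h1, h2⟩ := h
  refine ⟨h0, ?_, ?_⟩
  · intro a ha b hb hab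
    exact mul_le_mul_of_nonneg_left (h1 ha hb hab) hμ.le
  · intro a ha b hb hab
    exact mul_le_mul_of_nonneg_left (h2 ha hb hab) hμ.le

end CHTaux

open CHTaux in
theorem CHT_ok (hSTEP : S_STEP) (hSML : S_SML) (hCHM : S_CHM) (hCHS : S_CHS) (hCHE : S_CHE)
    (hBA : S_BA) : S_CHT := by
  set X : ℝ := 96 * Real.exp (DD / 2) with hX
  have hD := DD_nonneg
  have hX96 : 96 ≤ X := by
    have : 1 ≤ Real.exp (DD / 2) := Real.one_le_exp (by linarith)
    rw [hX]; linarith
  have hX0 : 0 < X := by linarith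
  set η : ℝ := 1 / X with hη
  have hη0 : 0 < η := by rw [hη]; positivity
  have hη2 : 3 / 2 * η ^ 3 * X ^ 2 ≤ 48 := by
    have : 3 / 2 * η ^ 3 * X ^ 2 = 3 / 2 / X := by
      rw [hη]; field_simp
    rw [this, div_le_iff₀ hX0]
    linarith
  set L : ℝ := 400 / η ^ 6 with hL
  have hL0 : 0 ≤ L := by rw [hL]; positivity
  refine ⟨L, X, hL0, hX0.le, ?_⟩
  intro κ m G hκ1 hκ2 hm hC
  obtain ⟨μ, R, hμ, hR, hGm⟩ := hC.last
  obtain ⟨hc1, hc2, hc3⟩ := hCHM κ m G hκ1 hκ2 hm hC
  obtain ⟨-, hbM, -, hbR, -, hbT, -⟩ := hBA R hR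
  -- the modes
  have hex : ∀ j, ∃ r : ℝ, (j ≤ m → Mode (G j) r) ∧ (j = m → r = R) := by
    intro j
    by_cases hj : j = m
    · refine ⟨R, fun _ => ?_, fun _ => rfl⟩
      rw [hj, hGm]
      exact mode_smul μ hμ (B R) R hbM
    · by_cases hj' : j ≤ m
      · obtain ⟨r, hr⟩ := (hC.adm j hj').uni
        exact ⟨r, fun _ => hr, fun h => absurd h hj⟩
      · exact ⟨0, fun h => absurd h hj', fun h => absurd h hj⟩
  choose Rf hRf hRm using hex
  have hRm' : Rf m = R := hRm m rfl
  have hR0 : Rf 0 ≤ 3 := hc1 _ (hRf 0 (Nat.zero_le _))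
  have hRs : ∀ j, j < m → Rf (j + 1) ≤ Rf j + DD := fun j hj =>
    hc3 j hj _ _ (hRf j hj.le) (hRf (j + 1) hj)
  have hRb : ∀ j, j ≤ m → Rf j ≤ 3 + DD * j := by
    intro j
    induction j with
    | zero => intro _; simpa using hR0
    | succ j ih =>
      intro hj
      have h1 := ih (by omega)
      have h2 := hRs j (by omega)
      push_cast
      linarith
  have hμ2 : μ ≤ 2 := by
    have h1 := (hCHS κ m G hκ1 hκ2 hm hC m le_rfl).1 R
    rw [hGm] at h1
    simp only [hbR, mul_one] at h1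
    exact h1
  have key : ∀ i, i ≤ m → ∀ v, Rf (m - i) + L ≤ v →
      G (m - i) v ≤ X * Real.exp (-((v - Rf (m - i) - L) / 2)) := by
    intro i
    induction i with
    | zero =>
      intro _ v hv
      rw [Nat.sub_zero, hRm'] at hv ⊢
      rw [hGm]
      have h1 : B R v ≤ √2 * Real.exp (-((v - R) / 2)) := hbT v (by linarith)
      have h2 : √2 ≤ 2 := by
        rw [Real.sqrt_le_left (by norm_num)]; norm_num
      have h3 : Real.exp (-((v - R) / 2)) ≤ Real.exp (-((v - R - L) / 2)) :=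
        Real.exp_le_exp.2 (by linarith)
      have h4 := Real.exp_pos (-((v - R) / 2))
      calc μ * B R v ≤ μ * (√2 * Real.exp (-((v - R) / 2))) :=
            mul_le_mul_of_nonneg_left h1 hμ.le
        _ ≤ 2 * (2 * Real.exp (-((v - R) / 2))) := by
            apply mul_le_mul hμ2 _ (by positivity) (by norm_num)
            exact mul_le_mul_of_nonneg_right h2 h4.le
        _ = 4 * Real.exp (-((v - R) / 2)) := by ring
        _ ≤ X * Real.exp (-((v - R - L) / 2)) :=
            mul_le_mul (by linarith) h3 h4.le hX0.le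
    | succ i ih =>
      intro hi v hv
      have hi' : m - i = m - (i + 1) + 1 := by omega
      have ih' := ih (by omega)
      rw [hi'] at ih'
      set j := m - (i + 1) with hj
      have hjm : j < m := by omega
      have hT : T (G (j + 1)) = G j := hC.step j hjm
      have hs := hSTEP (G (j + 1)) (hC.adm (j + 1) hjm).cl
        (hCHS κ m G hκ1 hκ2 hm hC (j + 1) hjm).1
        (by rw [hT]; exact (hCHS κ m G hκ1 hκ2 hm hC j hjm.le).1)
        DD η L X (Rf j) (Rf (j + 1)) hD hη0 hL0 hX0.le (hRs j hjm)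
        (fun w hw => ⟨hSML (G (j + 1)) (hC.adm (j + 1) hjm).cl (Rf (j + 1)) η
          (hRf (j + 1) hjm) (hCHE κ m G hκ1 hκ2 hm hC (j + 1) hjm) hη0 w hw, ih' w hw⟩) v hv
      rw [hT] at hs
      refine hs.trans ?_
      apply mul_le_mul_of_nonneg_right _ (Real.exp_pos _).le
      have : Real.exp (DD / 2) * (48 + 3 / 2 * η ^ 3 * X ^ 2) ≤ Real.exp (DD / 2) * 96 :=
        mul_le_mul_of_nonneg_left (by linarith) (Real.exp_pos _).le
      linarith
  intro j hj
  refine ⟨Rf j, hRf j hj, hRb j hj, ?_⟩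
  have := key (m - j) (Nat.sub_le _ _)
  rwa [Nat.sub_sub_self hj] at this

end Pool.Agent.H638.KP
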