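import Pool.Agent.H638.KP.Defs

/-! CHU: uniform comparison of the functions of a chain with `U`. -/

set_option autoImplicit false

open MeasureTheory Set Filter Topology Metric
open scoped Pointwise RealInnerProductSpace ENNReal

namespace Pool.Agent.H638.KP

open Pool.Agent.H638.IB (E secVol IB)

theorem CHU_ok (hT : S_CHT) (hM : S_CHM) (hS : S_CHS) (hU : S_UF) : S_CHU := by
  obtain ⟨L, X, hL, hX, hT⟩ := hT
  obtain ⟨-, hUe, hU01, hU0, hUexp, -, -, -, -, -⟩ := hU
  refine ⟨fun j => 3 / 4 * Real.exp (-((3 + DD * j) / 2)),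
    fun j => (2 + X) * Real.exp ((3 + DD * j + L) / 2), fun j => by positivity, ?_⟩
  intro κ m G hκ1 hκ2 hm hC j hj v
  obtain ⟨R, hmode, hR, htail⟩ := hT κ m G hκ1 hκ2 hm hC j hj
  have hadm := hC.adm j hj
  have h34 : 3 / 4 ≤ G j R := (hM κ m G hκ1 hκ2 hm hC).2.1 j hj R hmode
  have hle2 := (hS κ m G hκ1 hκ2 hm hC j hj).1
  have hR0 : 0 ≤ R := hmode.1
  constructor
  · -- lower bound
    have hlip := hadm.lip R 0
    rw [sub_zero, abs_of_nonneg hR0] at hlip
    have hG0 : 0 < G j 0 := by
      have h1 : 0 < Real.exp (R / 2) * G j 0 := by linarith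
      exact (mul_pos_iff_of_pos_left (Real.exp_pos _)).mp h1
    have h1 : 3 / 4 ≤ Real.exp ((3 + DD * j) / 2) * G j 0 := by
      have h2 : Real.exp (R / 2) ≤ Real.exp ((3 + DD * j) / 2) :=
        Real.exp_le_exp.mpr (by linarith)
      nlinarith
    have h3 : 3 / 4 * Real.exp (-((3 + DD * j) / 2)) ≤ G j 0 := by
      have h4 := mul_le_mul_of_nonneg_right h1 (Real.exp_pos (-((3 + DD * (j : ℝ)) / 2))).le
      have h5 : Real.exp ((3 + DD * j) / 2) * G j 0 * Real.exp (-((3 + DD * j) / 2)) = G j 0 := by
        rw [mul_right_comm, ← Real.exp_add, add_neg_cancel, Real.exp_zero, one_mul]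
      rwa [h5] at h4
    have h6 : G j 0 * U v ≤ G j v := by
      have h7 := hadm.mono 0 |v| le_rfl (abs_nonneg v)
      rw [hU0, mul_one] at h7
      rcases abs_choice v with h | h
      · rwa [h] at h7
      · rw [h, hUe, hadm.cl.even] at h7
        exact h7
    have h8 : 3 / 4 * Real.exp (-((3 + DD * j) / 2)) * U v ≤ G j 0 * U v :=
      mul_le_mul_of_nonneg_right h3 (hU01 v).1.le
    exact h8.trans h6
  · -- upper bound
    have hGabs : G j v = G j |v| := by
      rcases abs_choice v with h | h
      · rw [h]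
      · rw [h, hadm.cl.even]
    have hkey : G j v ≤ (2 + X) * Real.exp ((3 + DD * j + L) / 2) * Real.exp (-(|v| / 2)) := by
      have hpos : 0 < Real.exp ((3 + DD * j + L) / 2) * Real.exp (-(|v| / 2)) := by positivity
      rcases le_or_gt |v| (3 + DD * j + L) with h | h
      · have h1 : (1 : ℝ) ≤ Real.exp ((3 + DD * j + L) / 2) * Real.exp (-(|v| / 2)) := by
          rw [← Real.exp_add]
          exact Real.one_le_exp (by linarith)
        have h2 := hle2 v
        nlinarith
      · have h1 := htail |v| (by linarith)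
        rw [← hGabs] at h1
        have h2 : Real.exp (-((|v| - R - L) / 2)) ≤
            Real.exp ((3 + DD * j + L) / 2) * Real.exp (-(|v| / 2)) := by
          rw [← Real.exp_add]
          exact Real.exp_le_exp.mpr (by linarith)
        have h3 := mul_le_mul_of_nonneg_left h2 hX
        nlinarith
    have h9 := (hUexp v).1
    have h10 : (2 + X) * Real.exp ((3 + DD * j + L) / 2) * Real.exp (-(|v| / 2)) ≤
        (2 + X) * Real.exp ((3 + DD * j + L) / 2) * U v :=
      mul_le_mul_of_nonneg_left h9 (by positivity)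
    exact hkey.trans h10

end Pool.Agent.H638.KP
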