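import Pool.Agent.H638.KP.Defs

set_option autoImplicit false

open MeasureTheory Set Filter Topology Metric
open scoped Pointwise RealInnerProductSpace ENNReal

namespace Pool.Agent.H638.KP

namespace CPTaux

/-- modulus of continuity -/
noncomputable def w (x y : ℝ) : ℝ := 2 * (Real.exp (|x - y| / 2) - 1)

theorem bound {f : ℝ → ℝ} (h0 : ∀ v, 0 ≤ f v ∧ f v ≤ 2)
    (h1 : ∀ v v', f v ≤ Real.exp (|v - v'| / 2) * f v') (v v' : ℝ) : |f v - f v'| ≤ w v v' := by
  have he : 1 ≤ Real.exp (|v - v'| / 2) := Real.one_le_exp (by positivity)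
  have h2 := h1 v v'
  have h3 := h1 v' v
  rw [abs_sub_comm v' v] at h3
  have h4 := h0 v
  have h5 := h0 v'
  rw [abs_le]
  unfold w
  constructor
  · nlinarith [mul_nonneg (sub_nonneg.2 he) (sub_nonneg.2 h4.2)]
  · nlinarith [mul_nonneg (sub_nonneg.2 he) (sub_nonneg.2 h5.2)]

theorem w_tendsto (v : ℝ) : Tendsto (fun y => w y v) (𝓝 v) (𝓝 0) := by
  have h : Continuous (fun y : ℝ => w y v) := by
    unfold w
    fun_prop
  have h2 := h.tendsto v
  have h3 : w v v = 0 := by simp [w]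
  rwa [h3] at h2

end CPTaux

open CPTaux in
theorem CPT_ok : S_CPT := by
  intro F hF hL
  obtain ⟨x, hx⟩ : ∃ x : ℕ → (ℕ × ℚ → ℝ), x = fun m p => if p.1 ≤ m then F m p.1 p.2 else 0 :=
    ⟨_, rfl⟩
  have hcomp : IsCompact (Set.pi Set.univ (fun _ : ℕ × ℚ => Icc (0 : ℝ) 2)) :=
    isCompact_univ_pi fun _ => isCompact_Icc
  obtain ⟨a, -, φ, hφ, hlim⟩ := hcomp.tendsto_subseq (x := x) (by
    intro m
    rw [Set.mem_univ_pi]
    intro p
    rw [hx]
    by_cases h : p.1 ≤ m
    · simp only [h, if_true]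
      exact hF p.1 m h _
    · simp only [h, if_false]
      constructor <;> norm_num)
  rw [tendsto_pi_nhds] at hlim
  have hge : ∀ j : ℕ, ∀ᶠ i in atTop, j ≤ φ i := fun j => by
    filter_upwards [eventually_ge_atTop j] with i hi
    exact hi.trans (hφ.id_le i)
  have hq : ∀ (j : ℕ) (q : ℚ), Tendsto (fun i => F (φ i) j q) atTop (𝓝 (a (j, q))) := by
    intro j q
    refine (hlim (j, q)).congr' ?_
    filter_upwards [hge j] with i hi
    simp only [Function.comp_apply, hx, hi, if_true]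
  have hcau : ∀ (j : ℕ) (v : ℝ), ∃ l : ℝ, Tendsto (fun i => F (φ i) j v) atTop (𝓝 l) := by
    intro j v
    apply cauchySeq_tendsto_of_complete
    rw [Metric.cauchySeq_iff']
    intro ε hε
    have h1 := (Metric.tendsto_nhds.1 (w_tendsto v)) (ε / 4) (by positivity)
    obtain ⟨δ, hδ, h2⟩ := Metric.eventually_nhds_iff.1 h1
    obtain ⟨q, hq1, hq2⟩ := exists_rat_btwn (show v < v + δ by linarith)
    have h3 : w q v < ε / 4 := by
      have := h2 (y := (q : ℝ)) (by
        rw [Real.dist_eq, abs_of_pos (by linarith)]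
        linarith)
      rw [Real.dist_eq, sub_zero] at this
      exact (le_abs_self _).trans_lt this
    have h4 := (Metric.tendsto_nhds.1 (hq j q)) (ε / 4) (by positivity)
    obtain ⟨N, hN⟩ := eventually_atTop.1 (h4.and (hge j))
    refine ⟨N, fun n hn => ?_⟩
    obtain ⟨h5, h6⟩ := hN n hn
    obtain ⟨h7, h8⟩ := hN N le_rfl
    have h9 := bound (hF j _ h6) (hL j _ h6) q v
    have h10 := bound (hF j _ h8) (hL j _ h8) q v
    rw [Real.dist_eq] at h5 h7 ⊢
    rw [abs_le] at h9 h10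
    rw [abs_lt] at h5 h7 ⊢
    constructor <;> linarith [h9.1, h9.2, h10.1, h10.2, h5.1, h5.2, h7.1, h7.2]
  choose G hG using hcau
  refine ⟨φ, G, hφ, ?_, hG⟩
  have hb : ∀ j v v', |G j v - G j v'| ≤ w v v' := by
    intro j v v'
    have h1 : Tendsto (fun i => |F (φ i) j v - F (φ i) j v'|) atTop (𝓝 |G j v - G j v'|) :=
      ((hG j v).sub (hG j v')).abs
    refine le_of_tendsto h1 ?_
    filter_upwards [hge j] with i hi
    exact bound (hF j _ hi) (hL j _ hi) v v'
  intro j
  rw [continuous_iff_continuousAt]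
  intro v
  rw [ContinuousAt, tendsto_iff_dist_tendsto_zero]
  refine squeeze_zero (fun _ => dist_nonneg) (fun y => ?_) (w_tendsto v)
  rw [Real.dist_eq]
  exact hb j y v

end Pool.Agent.H638.KP
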