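import Pool.Agent.H638.KP.Defs

/-! DOM: passage to the limit -/

set_option autoImplicit false

open MeasureTheory Set Filter Topology Metric
open scoped Pointwise RealInnerProductSpace ENNReal

namespace Pool.Agent.H638.KP

open Pool.Agent.H638.IB (E secVol IB)

theorem DOM_ok (hUF : S_UF) (hUI : S_UI) : S_DOM := by
  intro F G A hc hb hlim
  have hU : Continuous U := hUF.1
  have hI := hUI (fun s => A * U s) (by fun_prop) ⟨|A|, fun v => by
    rw [abs_mul, abs_of_pos (hUF.2.2.1 v).1]⟩
  have key : ∀ (k : ℝ → ℝ), Continuous k → (∀ s, 0 ≤ k s) →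
      Integrable (fun s => k s * (A * U s) ^ 5) →
      Tendsto (fun i => ∫ s : ℝ, k s * F i s ^ 5) atTop (𝓝 (∫ s : ℝ, k s * G s ^ 5)) := by
    intro k hk hk0 hint
    refine tendsto_integral_filter_of_dominated_convergence (fun s => k s * (A * U s) ^ 5) ?_ ?_
      hint ?_
    · filter_upwards [hc] with i hi
      exact (hk.mul (hi.pow 5)).aestronglyMeasurable
    · filter_upwards [hb] with i hi
      refine Eventually.of_forall fun s => ?_
      have h0 := (hi s).1
      rw [Real.norm_of_nonneg (mul_nonneg (hk0 s) (pow_nonneg h0 5))]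
      exact mul_le_mul_of_nonneg_left (pow_le_pow_left₀ h0 (hi s).2 5) (hk0 s)
    · exact Eventually.of_forall fun s => ((hlim s).pow 5).const_mul (k s)
  constructor
  · intro v
    unfold T
    refine Tendsto.const_mul _ (key (fun s => Real.exp (-(|v - s| / 2))) (by fun_prop)
      (fun s => (Real.exp_pos _).le) (hI.1 v))
  · unfold Ti
    refine Tendsto.const_mul _ (key (fun s => Real.cosh (s / 2)) (by fun_prop)
      (fun s => (Real.cosh_pos _).le) hI.2.1)

end Pool.Agent.H638.KP
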