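import Pool.Agent.H638.KP.Defs

/-! Task END of the project KP: the conclusion. -/

set_option autoImplicit false

open MeasureTheory Set Filter Topology Metric
open scoped Pointwise RealInnerProductSpace ENNReal

namespace Pool.Agent.H638.KP

open Pool.Agent.H638.IB (E secVol IB)

theorem ENDaux.lam_pos : 0 < lam := by
  unfold lam
  apply Real.sqrt_pos.2
  apply Real.sqrt_pos.2
  have := Real.pi_pos
  positivity

theorem END_ok (hLIM : S_LIM) (hINF : S_INF) (hRHC : S_RHC) (hSBR : S_SBR) (hFIX : S_FIX)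
    (hNEL : S_NEL) (hPQ : S_PQ) (hUF : S_UF) : S_END := by
  intro κ hκ1 hκ2
  obtain ⟨G, hcl, hT, hG0, hG1⟩ := hLIM κ hκ1.le hκ2
  have hlam := ENDaux.lam_pos
  set g : ℕ → ℝ := fun j => Ti (G (j + 1)) with hg
  have hg0 : g 0 = κ := hG1
  have htend : ∀ j, Tendsto (fun v => G j v / U v) atTop (𝓝 (g j)) := by
    intro j
    have h := (hINF (G (j + 1)) (hcl (j + 1))).1
    rw [hT j] at h
    exact h
  have hgpos : ∀ j, 0 < g j := fun j => (hINF (G (j + 1)) (hcl (j + 1))).2
  have hbody : ∀ j, StarBody (body (fun z => lam * rho (G j) (g j) z)) ∧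
      (∀ u ∈ sphere (0 : E 6) 1, rad (body (fun z => lam * rho (G j) (g j) z)) u =
        lam * rho (G j) (g j) u) ∧
      body (fun z => lam * rho (G j) (g j) z) = -body (fun z => lam * rho (G j) (g j) z) := by
    intro j
    obtain ⟨hc, hp, he⟩ := hRHC (G j) (g j) (hcl j) (htend j) (hgpos j)
    obtain ⟨h1, h2, h3⟩ := hSBR (n := 6) (fun z => lam * rho (G j) (g j) z) (by norm_num)
      (continuousOn_const.mul hc) (fun u hu => mul_pos hlam (hp u hu))
    refine ⟨h1, h2, h3 (fun u _ => ?_)⟩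
    show lam * rho (G j) (g j) (-u) = lam * rho (G j) (g j) u
    rw [he u]
  have hIB : ∀ j, IB (body (fun z => lam * rho (G (j + 1)) (g (j + 1)) z)) =
      body (fun z => lam * rho (G j) (g j) z) := by
    intro j
    rw [hFIX (G (j + 1)) (g (j + 1)) (hcl (j + 1)) (hgpos (j + 1)), hT j]
  have hiter : ∀ m : ℕ, IB^[m] (body (fun z => lam * rho (G m) (g m) z)) =
      body (fun z => lam * rho (G 0) (g 0) z) := by
    intro m
    induction m with
    | zero => rfl
    | succ m ih => rw [Function.iterate_succ_apply, hIB m, ih]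
  refine ⟨body (fun z => lam * rho (G 0) (g 0) z), (hbody 0).1, (hbody 0).2.2, ?_, ?_, ?_⟩
  · intro m
    exact ⟨body (fun z => lam * rho (G m) (g m) z), (hbody m).1, (hbody m).2.2, hiter m⟩
  · exact hNEL (G 0) (g 0) (hcl 0) (htend 0) (hgpos 0) hG0 (by rw [hg0]; exact hκ1.ne') lam hlam
  · refine ⟨lam * √2, mul_pos hlam (by positivity), fun u hu => ⟨fun h => ?_, fun h => ?_⟩⟩
    · rw [(hbody 0).2.1 u hu]
      have hnorm : PP u ^ 2 + QQ u ^ 2 = 1 := by
        rw [← hPQ.2.2.2.1 u, mem_sphere_zero_iff_norm.1 hu, one_pow]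
      have hQ : QQ u ≠ 0 := by
        intro hQ
        rw [h, hQ] at hnorm
        norm_num at hnorm
      have hP : PP u ≠ 0 := by rw [h]; exact hQ
      have hU0 : U 0 = 1 := hUF.2.2.2.1
      unfold rho
      rw [if_neg (by rintro (h' | h') <;> contradiction), h, div_self hQ, Real.log_one, hU0, hG0,
        div_one, mul_one]
    · rw [(hbody 0).2.1 u hu]
      unfold rho
      rw [if_pos h, hg0]
      ring

end Pool.Agent.H638.KP
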