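import Pool.Agent.H638.KP.Defs

/-! Task ENE: monotonicity of the Busemann ratio. -/

set_option autoImplicit false

open MeasureTheory Set Filter Topology Metric
open scoped Pointwise RealInnerProductSpace ENNReal

namespace Pool.Agent.H638.KP

open Pool.Agent.H638.IB (E secVol IB)

namespace ENEaux

lemma cl_pos (hUF : S_UF) {G : ℝ → ℝ} (hG : Cl G) (v : ℝ) : 0 < G v := by
  obtain ⟨c, C, hc, hb⟩ := hG.bd
  have h1 := (hUF.2.2.1 v).1
  have h2 := (hb v).1
  have : 0 < c * U v := mul_pos hc h1
  linarith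

lemma cl_ui (hUF : S_UF) {G : ℝ → ℝ} (hG : Cl G) : ∃ C : ℝ, ∀ v, |G v| ≤ C * U v := by
  obtain ⟨c, C, hc, hb⟩ := hG.bd
  exact ⟨C, fun v => by rw [abs_of_pos (cl_pos hUF hG v)]; exact (hb v).2⟩

lemma memLp {f : ℝ → ℝ} (hf : Continuous f) (hf0 : ∀ v, 0 ≤ f v) (p : ℝ) (hp : 0 < p)
    (hi : Integrable (fun v => f v ^ p)) : MemLp f (ENNReal.ofReal p) volume := by
  refine (integrable_norm_rpow_iff hf.aestronglyMeasurable ?_ ENNReal.ofReal_ne_top).1 ?_
  · simpa using hp
  · rw [ENNReal.toReal_ofReal hp.le]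
    refine hi.congr (Eventually.of_forall fun v => ?_)
    simp only [Real.norm_eq_abs, abs_of_nonneg (hf0 v)]

end ENEaux

open ENEaux in
theorem ENE_ok (hUF : S_UF) (hUI : S_UI) (hTC : S_TC) : S_ENE := by
  intro G hG
  have hG1 : Cl (T G) := (hTC G hG).1
  have hG2 : Cl (T (T G)) := (hTC _ hG1).1
  have hp := cl_pos hUF hG
  have hp1 := cl_pos hUF hG1
  have hp2 := cl_pos hUF hG2
  obtain ⟨_, _, _, i6, i5⟩ := hUI G hG.cont (cl_ui hUF hG)
  obtain ⟨_, _, _, j6, j5⟩ := hUI _ hG1.cont (cl_ui hUF hG1)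
  obtain ⟨_, _, _, k6, k5⟩ := hUI _ hG2.cont (cl_ui hUF hG2)
  constructor
  · unfold En
    rw [integral_pos_iff_support_of_nonneg (fun v => by have := hp v; positivity) i6]
    have : Function.support (fun v => G v ^ 6) = univ := by
      rw [eq_univ_iff_forall]
      intro v
      have := hp v
      exact (pow_pos this 6).ne'
    rw [this]
    simp
  · -- Fubini
    have hint : Integrable (Function.uncurry fun v s : ℝ =>
        3 / 4 * (T G v ^ 5 * (Real.exp (-(|v - s| / 2)) * G s ^ 5))) (volume.prod volume) := by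
      have h1 : Integrable (fun z : ℝ × ℝ => T G z.1 ^ 5 * G z.2 ^ 5) (volume.prod volume) :=
        j5.mul_prod i5
      refine h1.mono' ?_ (Eventually.of_forall fun z => ?_)
      · refine Continuous.aestronglyMeasurable ?_
        have c1 := hG.cont
        have c2 := hG1.cont
        unfold Function.uncurry
        fun_prop
      · have h2 := hp z.2
        have h3 := hp1 z.1
        have h4 : Real.exp (-(|z.1 - z.2| / 2)) ≤ 1 := by
          rw [Real.exp_le_one_iff]
          have := abs_nonneg (z.1 - z.2)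
          linarith
        have h5 := Real.exp_pos (-(|z.1 - z.2| / 2))
        rw [Real.norm_eq_abs]
        unfold Function.uncurry
        rw [abs_of_pos (by positivity)]
        calc 3 / 4 * (T G z.1 ^ 5 * (Real.exp (-(|z.1 - z.2| / 2)) * G z.2 ^ 5))
            ≤ 1 * (T G z.1 ^ 5 * (1 * G z.2 ^ 5)) := by
              gcongr
              norm_num
          _ = _ := by ring
    have hE1 : En (T G) = ∫ s : ℝ, G s ^ 5 * T (T G) s := by
      have e1 : En (T G) = ∫ v : ℝ, ∫ s : ℝ,
          3 / 4 * (T G v ^ 5 * (Real.exp (-(|v - s| / 2)) * G s ^ 5)) := by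
        unfold En
        refine integral_congr_ae (Eventually.of_forall fun v => ?_)
        simp only
        rw [integral_const_mul, integral_const_mul]
        have : T G v = 3 / 4 * ∫ s : ℝ, Real.exp (-(|v - s| / 2)) * G s ^ 5 := rfl
        calc T G v ^ 6 = T G v ^ 5 * T G v := by ring
          _ = T G v ^ 5 * (3 / 4 * ∫ s : ℝ, Real.exp (-(|v - s| / 2)) * G s ^ 5) := by
            rw [← this]
          _ = _ := by ring
      rw [e1, integral_integral_swap hint]
      refine integral_congr_ae (Eventually.of_forall fun s => ?_)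
      simp only
      have e2 : ∀ v : ℝ, 3 / 4 * (T G v ^ 5 * (Real.exp (-(|v - s| / 2)) * G s ^ 5)) =
          (3 / 4 * G s ^ 5) * (Real.exp (-(|s - v| / 2)) * T G v ^ 5) := by
        intro v
        rw [abs_sub_comm v s]; ring
      simp_rw [e2]
      rw [integral_const_mul]
      have : T (T G) s = 3 / 4 * ∫ v : ℝ, Real.exp (-(|s - v| / 2)) * T G v ^ 5 := rfl
      rw [this]; ring
    -- Hoelder
    have hpow : ∀ v, (G v ^ 5) ^ ((6 : ℝ) / 5) = G v ^ 6 := by
      intro v
      rw [← Real.rpow_natCast, ← Real.rpow_mul (hp v).le, ← Real.rpow_natCast (G v) 6]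
      norm_num
    have hpow2 : ∀ v, (T (T G) v) ^ (6 : ℝ) = T (T G) v ^ 6 := by
      intro v
      rw [← Real.rpow_natCast]; norm_num
    have hH := integral_mul_le_Lp_mul_Lq_of_nonneg (μ := (volume : Measure ℝ))
      (p := 6 / 5) (q := 6) (f := fun v => G v ^ 5) (g := fun v => T (T G) v)
      (by rw [Real.holderConjugate_iff]; norm_num)
      (Eventually.of_forall fun v => by have := hp v; positivity)
      (Eventually.of_forall fun v => (hp2 v).le)
      (memLp (f := fun v => G v ^ 5) (hG.cont.pow 5) (fun v => by have := hp v; positivity)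
        (6 / 5) (by norm_num) (by simp_rw [hpow]; exact i6))
      (memLp (f := fun v => T (T G) v) hG2.cont (fun v => (hp2 v).le) 6 (by norm_num)
        (by simp_rw [hpow2]; exact k6))
    simp_rw [hpow, hpow2] at hH
    rw [← hE1] at hH
    change En (T G) ≤ En G ^ ((1 : ℝ) / (6 / 5)) * En (T (T G)) ^ ((1 : ℝ) / 6) at hH
    have n0 : 0 ≤ En G := integral_nonneg fun v => by have := hp v; positivity
    have n1 : 0 ≤ En (T G) := integral_nonneg fun v => by have := hp1 v; positivity
    have n2 : 0 ≤ En (T (T G)) := integral_nonneg fun v => by have := hp2 v; positivity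
    calc En (T G) ^ 6 ≤ (En G ^ ((1 : ℝ) / (6 / 5)) * En (T (T G)) ^ ((1 : ℝ) / 6)) ^ 6 := by
          gcongr
      _ = En G ^ 5 * En (T (T G)) := by
          rw [mul_pow, ← Real.rpow_natCast (En G ^ ((1 : ℝ) / (6 / 5))),
            ← Real.rpow_natCast (En (T (T G)) ^ ((1 : ℝ) / 6)), ← Real.rpow_mul n0,
            ← Real.rpow_mul n2, ← Real.rpow_natCast (En G) 5]
          norm_num

end Pool.Agent.H638.KP
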