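import Pool.Agent.H638.KP.Defs

set_option autoImplicit false

open MeasureTheory Set Filter Topology Metric
open scoped Pointwise RealInnerProductSpace ENNReal

namespace Pool.Agent.H638.KP

open Pool.Agent.H638.IB (E secVol IB)

namespace FIXaux

theorem lam_pos : 0 < lam := by
  unfold lam
  have : (0 : ℝ) < 15 / (32 * Real.pi ^ 2) := by positivity
  exact Real.sqrt_pos.mpr (Real.sqrt_pos.mpr this)

theorem lam_four : lam ^ 4 = 15 / (32 * Real.pi ^ 2) := by
  have h0 : (0 : ℝ) ≤ 15 / (32 * Real.pi ^ 2) := by positivity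
  have h1 : lam ^ 4 = (lam ^ 2) ^ 2 := by ring
  rw [h1]
  unfold lam
  rw [Real.sq_sqrt (Real.sqrt_nonneg _), Real.sq_sqrt h0]

end FIXaux

open FIXaux in
theorem FIX_ok (h1 : S_SEV) (h2 : S_SET) (h3 : S_SCA) (h4 : S_BEQ) : S_FIX := by
  intro G g hG hg
  apply h4
  intro u hu
  rw [h3 (rho G g) lam lam_pos u hu]
  have e1 := h1 G g hG hg u hu
  have e2 := h2 G hG u hu
  rw [e2] at e1
  have e3 : secVol (body (rho G g)) u = 32 * Real.pi ^ 2 / 15 * rho (T G) (Ti G) u := e1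
  have e4 : lam ^ 5 = lam * lam ^ 4 := by ring
  rw [e3, e4, lam_four]
  have hpi : (Real.pi : ℝ) ≠ 0 := Real.pi_ne_zero
  field_simp

end Pool.Agent.H638.KP
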