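import Pool.Agent.H638.KP.Defs

set_option autoImplicit false

open MeasureTheory Set Filter Topology Metric
open scoped Pointwise RealInnerProductSpace ENNReal

namespace Pool.Agent.H638.KP

namespace FUBaux

/-- The cut-off function. -/
noncomputable def KK (S : Set (ℝ × ℝ)) (a b : ℝ) (s x y : ℝ) : ℝ≥0∞ :=
  S.indicator (fun _ => (1 : ℝ≥0∞)) (x, y) *
    ({s : ℝ | s ^ 2 * b ^ 2 < x ∧ s ^ 2 * a ^ 2 < y}.indicator (fun _ => (1 : ℝ≥0∞)) s)

lemma KK_meas (S : Set (ℝ × ℝ)) (hS : MeasurableSet S) (a b : ℝ) :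
    Measurable (fun p : ℝ × ℝ × ℝ => KK S a b p.1 p.2.1 p.2.2) := by
  have h1 : Measurable (fun p : ℝ × ℝ × ℝ => S.indicator (fun _ => (1 : ℝ≥0∞)) (p.2.1, p.2.2)) := by
    exact (measurable_const.indicator hS).comp (by fun_prop)
  have h2 : MeasurableSet {p : ℝ × ℝ × ℝ | p.1 ^ 2 * b ^ 2 < p.2.1 ∧ p.1 ^ 2 * a ^ 2 < p.2.2} := by
    have h1 : MeasurableSet {p : ℝ × ℝ × ℝ | p.1 ^ 2 * b ^ 2 < p.2.1} :=
      measurableSet_lt (by fun_prop) (by fun_prop)
    have h2 : MeasurableSet {p : ℝ × ℝ × ℝ | p.1 ^ 2 * a ^ 2 < p.2.2} :=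
      measurableSet_lt (by fun_prop) (by fun_prop)
    exact h1.inter h2
  have h3 : Measurable (fun p : ℝ × ℝ × ℝ =>
      {s : ℝ | s ^ 2 * b ^ 2 < p.2.1 ∧ s ^ 2 * a ^ 2 < p.2.2}.indicator
        (fun _ => (1 : ℝ≥0∞)) p.1) := by
    have : (fun p : ℝ × ℝ × ℝ =>
      {s : ℝ | s ^ 2 * b ^ 2 < p.2.1 ∧ s ^ 2 * a ^ 2 < p.2.2}.indicator
        (fun _ => (1 : ℝ≥0∞)) p.1) =
        {p : ℝ × ℝ × ℝ | p.1 ^ 2 * b ^ 2 < p.2.1 ∧ p.1 ^ 2 * a ^ 2 < p.2.2}.indicator
          (fun _ => (1 : ℝ≥0∞)) := by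
      funext p
      simp only [indicator, mem_ofPred_eq]
    rw [this]
    exact measurable_const.indicator h2
  exact h1.mul h3

lemma step1 (S : Set (ℝ × ℝ)) (a b s : ℝ) :
    ∫⁻ x in Ioi (0 : ℝ), ∫⁻ y in Ioi (0 : ℝ),
        S.indicator (fun _ => (1 : ℝ≥0∞)) (s ^ 2 * b ^ 2 + x, s ^ 2 * a ^ 2 + y) =
      ∫⁻ x : ℝ, ∫⁻ y : ℝ, KK S a b s x y := by
  have e1 : ∫⁻ x in Ioi (0 : ℝ), ∫⁻ y in Ioi (0 : ℝ),
        S.indicator (fun _ => (1 : ℝ≥0∞)) (s ^ 2 * b ^ 2 + x, s ^ 2 * a ^ 2 + y) =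
      ∫⁻ x : ℝ, ∫⁻ y : ℝ, KK S a b s (s ^ 2 * b ^ 2 + x) (s ^ 2 * a ^ 2 + y) := by
    rw [← lintegral_indicator measurableSet_Ioi]
    refine lintegral_congr fun x => ?_
    by_cases hx : 0 < x
    · rw [indicator_of_mem (mem_Ioi.2 hx), ← lintegral_indicator measurableSet_Ioi]
      refine lintegral_congr fun y => ?_
      by_cases hy : 0 < y
      · rw [indicator_of_mem (mem_Ioi.2 hy), KK, indicator_of_mem (s := {s : ℝ | _}), mul_one]
        simp only [mem_ofPred_eq]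
        constructor <;> linarith
      · rw [indicator_of_notMem (by simpa using hy), KK, indicator_of_notMem (s := {s : ℝ | _}),
          mul_zero]
        simp only [mem_ofPred_eq]
        rintro ⟨-, h⟩
        exact hy (by linarith)
    · rw [indicator_of_notMem (by simpa using hx)]
      symm
      rw [lintegral_eq_zero_of_ae_eq_zero]
      refine Filter.Eventually.of_forall fun y => ?_
      show KK S a b s (s ^ 2 * b ^ 2 + x) (s ^ 2 * a ^ 2 + y) = 0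
      rw [KK, indicator_of_notMem (s := {s : ℝ | _}), mul_zero]
      simp only [mem_ofPred_eq]
      rintro ⟨h, -⟩
      exact hx (by linarith)
  rw [e1]
  have e2 : ∀ x : ℝ, ∫⁻ y : ℝ, KK S a b s (s ^ 2 * b ^ 2 + x) (s ^ 2 * a ^ 2 + y) =
      ∫⁻ y : ℝ, KK S a b s (s ^ 2 * b ^ 2 + x) y := fun x =>
    lintegral_add_left_eq_self (fun y => KK S a b s (s ^ 2 * b ^ 2 + x) y) (s ^ 2 * a ^ 2)
  simp_rw [e2]
  exact lintegral_add_left_eq_self (fun x => ∫⁻ y : ℝ, KK S a b s x y) (s ^ 2 * b ^ 2)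

lemma vol_eq (a b : ℝ) (ha : 0 ≤ a) (hb : 0 ≤ b) (hab : a ^ 2 + b ^ 2 = 1) (x y : ℝ)
    (hx : 0 < x) (hy : 0 < y) :
    volume {s : ℝ | s ^ 2 * b ^ 2 < x ∧ s ^ 2 * a ^ 2 < y} =
      ENNReal.ofReal (2 / max (b / √x) (a / √y)) := by
  have hsx : 0 < √x := Real.sqrt_pos.2 hx
  have hsy : 0 < √y := Real.sqrt_pos.2 hy
  have hM : 0 < max (b / √x) (a / √y) := by
    rcases eq_or_lt_of_le ha with h | h
    · have : 0 < b := by
        rcases eq_or_lt_of_le hb with h' | h'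
        · rw [← h, ← h'] at hab; norm_num at hab
        · exact h'
      exact lt_max_of_lt_left (div_pos this hsx)
    · exact lt_max_of_lt_right (div_pos h hsy)
  set M := max (b / √x) (a / √y) with hMdef
  have key : ∀ (s c z : ℝ), 0 ≤ c → 0 < z → (s ^ 2 * c ^ 2 < z ↔ |s| * (c / √z) < 1) := by
    intro s c z hc hz
    have hsz : 0 < √z := Real.sqrt_pos.2 hz
    rw [← mul_div_assoc, div_lt_one hsz, Real.lt_sqrt (by positivity), mul_pow, sq_abs]
  have hset : {s : ℝ | s ^ 2 * b ^ 2 < x ∧ s ^ 2 * a ^ 2 < y} = Ioo (-(1 / M)) (1 / M) := by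
    ext s
    simp only [mem_ofPred_eq, mem_Ioo]
    rw [key s b x hb hx, key s a y ha hy, ← abs_lt, lt_div_iff₀ hM]
    constructor
    · rintro ⟨h1, h2⟩
      rcases max_cases (b / √x) (a / √y) with ⟨h, -⟩ | ⟨h, -⟩
      · rw [hMdef, h]; exact h1
      · rw [hMdef, h]; exact h2
    · intro h
      constructor
      · exact lt_of_le_of_lt (mul_le_mul_of_nonneg_left (le_max_left _ _) (abs_nonneg s)) h
      · exact lt_of_le_of_lt (mul_le_mul_of_nonneg_left (le_max_right _ _) (abs_nonneg s)) h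
  rw [hset, Real.volume_Ioo]
  congr 1
  ring

lemma step3 (S : Set (ℝ × ℝ)) (a b x y : ℝ) :
    ∫⁻ s : ℝ, KK S a b s x y = S.indicator (fun _ => (1 : ℝ≥0∞)) (x, y) *
      volume {s : ℝ | s ^ 2 * b ^ 2 < x ∧ s ^ 2 * a ^ 2 < y} := by
  have hm : MeasurableSet {s : ℝ | s ^ 2 * b ^ 2 < x ∧ s ^ 2 * a ^ 2 < y} := by
    have h1 : MeasurableSet {s : ℝ | s ^ 2 * b ^ 2 < x} :=
      measurableSet_lt (by fun_prop) (by fun_prop)
    have h2 : MeasurableSet {s : ℝ | s ^ 2 * a ^ 2 < y} :=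
      measurableSet_lt (by fun_prop) (by fun_prop)
    exact h1.inter h2
  unfold KK
  rw [lintegral_const_mul _ (measurable_const.indicator hm)]
  congr 1
  rw [lintegral_indicator hm, setLIntegral_const, one_mul]

end FUBaux

open FUBaux in
theorem FUB_ok : S_FUB := by
  intro S hS a b ha hb hab
  have hK := KK_meas S hS a b
  simp_rw [step1]
  -- swap `s` and `x`
  have hK1 : Measurable (fun p : ℝ × ℝ => ∫⁻ y : ℝ, KK S a b p.1 p.2 y) := by
    have : Measurable (fun q : (ℝ × ℝ) × ℝ => KK S a b q.1.1 q.1.2 q.2) :=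
      hK.comp (g := fun p : ℝ × ℝ × ℝ => KK S a b p.1 p.2.1 p.2.2)
        (f := fun q : (ℝ × ℝ) × ℝ => (q.1.1, q.1.2, q.2)) (by fun_prop)
    exact this.lintegral_prod_right'
  rw [lintegral_lintegral_swap (f := fun s x => ∫⁻ y : ℝ, KK S a b s x y) hK1.aemeasurable]
  have e3 : ∀ x : ℝ, ∫⁻ s : ℝ, ∫⁻ y : ℝ, KK S a b s x y =
      ∫⁻ y : ℝ, S.indicator (fun _ => (1 : ℝ≥0∞)) (x, y) *
      volume {s : ℝ | s ^ 2 * b ^ 2 < x ∧ s ^ 2 * a ^ 2 < y} := by
    intro x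
    have hx : Measurable (fun p : ℝ × ℝ => KK S a b p.1 x p.2) :=
      hK.comp (g := fun p : ℝ × ℝ × ℝ => KK S a b p.1 p.2.1 p.2.2)
        (f := fun q : ℝ × ℝ => (q.1, x, q.2)) (by fun_prop)
    rw [lintegral_lintegral_swap (f := fun s y => KK S a b s x y) hx.aemeasurable]
    exact lintegral_congr fun y => step3 S a b x y
  simp_rw [e3]
  rw [← lintegral_indicator (measurableSet_Ioi (a := (0 : ℝ)))]
  refine lintegral_congr fun x => ?_
  by_cases hx : 0 < x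
  · rw [indicator_of_mem (mem_Ioi.2 hx), ← lintegral_indicator measurableSet_Ioi]
    refine lintegral_congr fun y => ?_
    by_cases hy : 0 < y
    · rw [indicator_of_mem (mem_Ioi.2 hy), vol_eq a b ha hb hab x y hx hy]
    · rw [indicator_of_notMem (s := Ioi (0 : ℝ)) (by simpa using hy)]
      have : {s : ℝ | s ^ 2 * b ^ 2 < x ∧ s ^ 2 * a ^ 2 < y} = ∅ := by
        ext s
        simp only [mem_ofPred_eq, mem_empty_iff_false, iff_false, not_and, not_lt]
        intro _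
        have := mul_nonneg (sq_nonneg s) (sq_nonneg a)
        linarith [not_lt.1 hy]
      rw [this, measure_empty, mul_zero]
  · rw [indicator_of_notMem (by simpa using hx)]
    have : ∀ y : ℝ, {s : ℝ | s ^ 2 * b ^ 2 < x ∧ s ^ 2 * a ^ 2 < y} = ∅ := by
      intro y
      ext s
      simp only [mem_ofPred_eq, mem_empty_iff_false, iff_false, not_and]
      intro h
      have := mul_nonneg (sq_nonneg s) (sq_nonneg b)
      linarith [not_lt.1 hx]
    simp [this]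

end Pool.Agent.H638.KP
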