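import Pool.Agent.H638.KP.Defs

set_option autoImplicit false

open MeasureTheory Set Filter Topology Metric

namespace Pool.Agent.H638.KP

namespace INFaux

lemma bd_abs (h1 : S_UF) {G : ℝ → ℝ} (hG : Cl G) :
    (∀ v, 0 < G v) ∧ ∃ C : ℝ, ∀ v, |G v| ≤ C * U v := by
  obtain ⟨c, C, hc, h⟩ := hG.bd
  have hpos : ∀ v, 0 < G v := fun v =>
    lt_of_lt_of_le (mul_pos hc (h1.2.2.1 v).1) (h v).1
  refine ⟨hpos, C, fun v => ?_⟩
  rw [abs_of_pos (hpos v)]
  exact (h v).2

lemma tend_exp : Tendsto (fun v : ℝ => Real.exp (-(v / 2)) / U v) atTop (𝓝 (1 / √2)) := by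
  have e : ∀ v : ℝ, Real.exp (-(v / 2)) / U v = √((1 + Real.exp (-(2 * v))) / 2) := by
    intro v
    have hc : 0 < Real.cosh v := Real.cosh_pos v
    unfold U
    rw [div_inv_eq_mul]
    have h1 : Real.exp (-(v / 2)) = √(Real.exp (-v)) := by
      rw [Real.sqrt_eq_rpow, ← Real.exp_mul]
      congr 1
      ring
    rw [h1, ← Real.sqrt_mul (Real.exp_pos _).le]
    congr 1
    rw [Real.cosh_eq]
    have h2 : Real.exp (-(2 * v)) = Real.exp (-v) * Real.exp (-v) := by
      rw [← Real.exp_add]; congr 1; ring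
    have h3 : Real.exp (-v) * Real.exp v = 1 := by
      rw [← Real.exp_add]; simp
    rw [h2]
    linear_combination (1 / 2 : ℝ) * h3
  have h4 : Tendsto (fun v : ℝ => √((1 + Real.exp (-(2 * v))) / 2)) atTop
      (𝓝 (√((1 + 0) / 2))) := by
    apply Tendsto.sqrt
    apply Tendsto.div_const
    apply Tendsto.add tendsto_const_nhds
    apply Real.tendsto_exp_neg_atTop_nhds_zero.comp
    exact tendsto_id.const_mul_atTop (by norm_num)
  have h5 : √((1 + 0) / 2 : ℝ) = 1 / √2 := by
    rw [add_zero, Real.sqrt_div zero_le_one, Real.sqrt_one]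
  rw [h5] at h4
  exact h4.congr (fun v => (e v).symm)

lemma even_int {G : ℝ → ℝ} (hG : Cl G) (hI : Integrable (fun s => Real.exp (s / 2) * G s ^ 5)) :
    ∫ s : ℝ, Real.exp (s / 2) * G s ^ 5 = ∫ s : ℝ, Real.cosh (s / 2) * G s ^ 5 := by
  have h1 : ∫ s : ℝ, Real.exp (-(s / 2)) * G s ^ 5 = ∫ s : ℝ, Real.exp (s / 2) * G s ^ 5 := by
    rw [← integral_neg_eq_self (fun s : ℝ => Real.exp (s / 2) * G s ^ 5)]
    apply integral_congr_ae
    refine Eventually.of_forall (fun s => ?_)
    show Real.exp (-(s / 2)) * G s ^ 5 = Real.exp (-s / 2) * G (-s) ^ 5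
    rw [hG.even, neg_div]
  have h2 : Integrable (fun s => Real.exp (-(s / 2)) * G s ^ 5) := by
    have := hI.comp_neg
    refine this.congr (Eventually.of_forall (fun s => ?_))
    show Real.exp (-s / 2) * G (-s) ^ 5 = Real.exp (-(s / 2)) * G s ^ 5
    rw [hG.even, neg_div]
  have h3 : ∫ s : ℝ, Real.cosh (s / 2) * G s ^ 5 =
      ∫ s : ℝ, ((1 / 2) * (Real.exp (s / 2) * G s ^ 5) +
        (1 / 2) * (Real.exp (-(s / 2)) * G s ^ 5)) := by
    apply integral_congr_ae
    refine Eventually.of_forall (fun s => ?_)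
    show Real.cosh (s / 2) * G s ^ 5 = (1 / 2) * (Real.exp (s / 2) * G s ^ 5) +
        (1 / 2) * (Real.exp (-(s / 2)) * G s ^ 5)
    rw [Real.cosh_eq]
    ring
  rw [h3, integral_add (hI.const_mul _) (h2.const_mul _), integral_const_mul, integral_const_mul, h1]
  ring

end INFaux

theorem INF_ok (h1 : S_UF) (h2 : S_UI) : S_INF := by
  intro G hG
  obtain ⟨hpos, hbd⟩ := INFaux.bd_abs h1 hG
  obtain ⟨hI1, hI2, hI3, -, -⟩ := h2 G hG.cont hbd
  have hU0 : ∀ v, 0 < U v := fun v => (h1.2.2.1 v).1
  constructor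
  · have e : ∀ v : ℝ, T G v / U v = 3 / 4 * (Real.exp (-(v / 2)) / U v) *
        ∫ s : ℝ, Real.exp (v / 2 - |v - s| / 2) * G s ^ 5 := by
      intro v
      unfold T
      have e1 : ∫ s : ℝ, Real.exp (-(|v - s| / 2)) * G s ^ 5 =
          Real.exp (-(v / 2)) * ∫ s : ℝ, Real.exp (v / 2 - |v - s| / 2) * G s ^ 5 := by
        rw [← integral_const_mul]
        apply integral_congr_ae
        refine Eventually.of_forall (fun s => ?_)
        show Real.exp (-(|v - s| / 2)) * G s ^ 5 =
          Real.exp (-(v / 2)) * (Real.exp (v / 2 - |v - s| / 2) * G s ^ 5)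
        rw [← mul_assoc, ← Real.exp_add]
        congr 2
        ring
      rw [e1]
      ring
    have lim : Tendsto (fun v : ℝ => ∫ s : ℝ, Real.exp (v / 2 - |v - s| / 2) * G s ^ 5) atTop
        (𝓝 (∫ s : ℝ, Real.exp (s / 2) * G s ^ 5)) := by
      apply tendsto_integral_filter_of_dominated_convergence
        (fun s => Real.exp (s / 2) * G s ^ 5)
      · refine Eventually.of_forall (fun v => ?_)
        have hc := hG.cont
        exact Continuous.aestronglyMeasurable (by fun_prop)
      · refine Eventually.of_forall (fun v => Eventually.of_forall (fun s => ?_))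
        rw [Real.norm_of_nonneg (mul_pos (Real.exp_pos _) (pow_pos (hpos s) 5)).le]
        apply mul_le_mul_of_nonneg_right _ (pow_pos (hpos s) 5).le
        apply Real.exp_le_exp.2
        have := le_abs_self (v - s)
        linarith
      · exact hI3
      · refine Eventually.of_forall (fun s => ?_)
        apply tendsto_const_nhds.congr'
        filter_upwards [eventually_ge_atTop s] with v hv
        rw [abs_of_nonneg (sub_nonneg.2 hv)]
        congr 2
        ring
    have := ((INFaux.tend_exp.const_mul (3 / 4 : ℝ)).mul lim)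
    rw [INFaux.even_int hG hI3] at this
    have e2 : 3 / 4 * (1 / √2) * ∫ s : ℝ, Real.cosh (s / 2) * G s ^ 5 = Ti G := by
      unfold Ti
      congr 1
      field_simp
    rw [e2] at this
    exact this.congr (fun v => (e v).symm)
  · unfold Ti
    have hs : (0 : ℝ) < 3 / (4 * √2) := by positivity
    apply mul_pos hs
    rw [integral_pos_iff_support_of_nonneg
      (fun s => (mul_pos (Real.cosh_pos _) (pow_pos (hpos s) 5)).le) hI2]
    have : Function.support (fun s => Real.cosh (s / 2) * G s ^ 5) = univ := by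
      ext s
      simp [(hpos s).ne', (Real.cosh_pos (s / 2)).ne']
    rw [this]
    simp

end Pool.Agent.H638.KP
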