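import Pool.Agent.H638.KP.Defs

set_option autoImplicit false

open MeasureTheory Set Filter Topology Metric

namespace Pool.Agent.H638.KP

open Pool.Agent.H638.IB (E secVol IB)

namespace IVTaux

theorem cl_nonneg {G : ℝ → ℝ} (hUF : S_UF) (hG : Cl G) (v : ℝ) : 0 ≤ G v := by
  obtain ⟨c, C, hc, h⟩ := hG.bd
  have hU := (hUF.2.2.1 v).1
  exact (mul_pos hc hU).le.trans (h v).1

theorem cl_iter (hBA : S_BA) (hTC : S_TC) (j : ℕ) (R : ℝ) (hR : 0 ≤ R) : Cl (T^[j] (B R)) := by
  induction j with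
  | zero => exact (hBA R hR).1.cl
  | succ j ih =>
    rw [Function.iterate_succ_apply']
    exact (hTC _ ih).1

theorem gen_le (hUF : S_UF) (hTM : S_TM) {G H : ℝ → ℝ} (hG : Cl G) (hH : Cl H) (l : ℝ) (hl : 0 ≤ l)
    (h : ∀ v, G v ≤ l * H v) : (∀ v, T G v ≤ l ^ 5 * T H v) ∧ Ti G ≤ l ^ 5 * Ti H := by
  obtain ⟨c, C, hc, hb⟩ := hH.bd
  have h1 := hTM.1 G (fun v => l * H v) hG.cont (continuous_const.mul hH.cont)
    ⟨l * C, fun v => ⟨cl_nonneg hUF hG v, h v, by
      have := mul_le_mul_of_nonneg_left (hb v).2 hl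
      linarith [this, mul_assoc l C (U v)]⟩⟩
  have h2 := hTM.2 l H
  rw [h2.1, h2.2] at h1
  exact h1

theorem iter_le (hUF : S_UF) (hTM : S_TM) (hBA : S_BA) (hTC : S_TC) (j : ℕ) (R R' : ℝ)
    (hR : 0 ≤ R) (hR' : 0 ≤ R') (v : ℝ) :
    T^[j] (B R) v ≤ Real.exp (5 ^ j / 2 * |R - R'|) * T^[j] (B R') v := by
  induction j generalizing v with
  | zero =>
    have := (hBA R hR).2.2.2.2.2.2.2 R' hR' v
    simp only [Function.iterate_zero, id_eq, pow_zero]
    convert this using 3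
    ring
  | succ j ih =>
    rw [Function.iterate_succ_apply', Function.iterate_succ_apply']
    have h := (gen_le hUF hTM (cl_iter hBA hTC j R hR) (cl_iter hBA hTC j R' hR') _
      (Real.exp_pos _).le ih).1 v
    rw [← Real.exp_nat_mul] at h
    convert h using 3
    push_cast
    ring

theorem Ti_le (hUF : S_UF) (hTM : S_TM) (hBA : S_BA) (hTC : S_TC) (j : ℕ) (R R' : ℝ)
    (hR : 0 ≤ R) (hR' : 0 ≤ R') :
    Ti (T^[j] (B R)) ≤ Real.exp (5 ^ (j + 1) / 2 * |R - R'|) * Ti (T^[j] (B R')) := by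
  have h := (gen_le hUF hTM (cl_iter hBA hTC j R hR) (cl_iter hBA hTC j R' hR') _
      (Real.exp_pos _).le (iter_le hUF hTM hBA hTC j R R' hR hR')).2
  rw [← Real.exp_nat_mul] at h
  convert h using 3
  push_cast
  ring

theorem cont_of (f : ℝ → ℝ) (C : ℝ)
    (hf : ∀ R R' : ℝ, 0 ≤ R → 0 ≤ R' → f R ≤ Real.exp (C * |R - R'|) * f R') :
    ContinuousOn f (Ici 0) := by
  intro R0 hR0
  have e1 : Tendsto (fun R => Real.exp (-(C * |R - R0|)) * f R0) (𝓝[Ici 0] R0) (𝓝 (f R0)) := by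
    have : ContinuousAt (fun R => Real.exp (-(C * |R - R0|)) * f R0) R0 := by fun_prop
    have h := this.tendsto
    simp only [sub_self, abs_zero, mul_zero, neg_zero, Real.exp_zero, one_mul] at h
    exact h.mono_left nhdsWithin_le_nhds
  have e2 : Tendsto (fun R => Real.exp (C * |R - R0|) * f R0) (𝓝[Ici 0] R0) (𝓝 (f R0)) := by
    have : ContinuousAt (fun R => Real.exp (C * |R - R0|) * f R0) R0 := by fun_prop
    have h := this.tendsto
    simp only [sub_self, abs_zero, mul_zero, Real.exp_zero, one_mul] at h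
    exact h.mono_left nhdsWithin_le_nhds
  refine tendsto_of_tendsto_of_tendsto_of_le_of_le' e1 e2 ?_ ?_
  · filter_upwards [self_mem_nhdsWithin] with R hR
    have h := hf R0 R hR0 hR
    rw [abs_sub_comm] at h
    have h2 := mul_le_mul_of_nonneg_left h (Real.exp_pos (-(C * |R - R0|))).le
    rw [← mul_assoc, ← Real.exp_add, neg_add_cancel, Real.exp_zero, one_mul] at h2
    exact h2
  · filter_upwards [self_mem_nhdsWithin] with R hR
    exact hf R R0 hR hR0

theorem B_zero (hUF : S_UF) : B 0 = U := by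
  funext v
  unfold B
  rw [sub_zero]
  rcases abs_choice v with h | h
  · rw [h]
  · rw [h, hUF.2.1]

theorem clU (hBA : S_BA) (hUF : S_UF) : Cl U := by
  have := (hBA 0 le_rfl).1.cl
  rwa [B_zero hUF] at this

theorem TiU (hBA : S_BA) (hUF : S_UF) (hTU : S_TU) (hINF : S_INF) : Ti U = 1 := by
  have h := (hINF U (clU hBA hUF)).1
  have h2 : (fun v => T U v / U v) = fun _ => (1 : ℝ) := by
    funext v
    have hT : T U = U := hTU
    rw [hT, div_self (hUF.2.2.1 v).1.ne']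
  rw [h2] at h
  exact (tendsto_nhds_unique h tendsto_const_nhds)

theorem iterU (hTU : S_TU) (j : ℕ) : T^[j] U = U := by
  induction j with
  | zero => rfl
  | succ j ih => rw [Function.iterate_succ_apply', ih]; exact hTU

theorem iter_ge (hUF : S_UF) (hTM : S_TM) (hBA : S_BA) (hTC : S_TC) (hBT : S_BT) (j : ℕ) (R : ℝ)
    (hR : 0 ≤ R) (v : ℝ) : B R v ≤ T^[j] (B R) v := by
  induction j generalizing v with
  | zero => exact le_rfl
  | succ j ih =>
    rw [Function.iterate_succ_apply']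
    have h := (gen_le hUF hTM (hBA R hR).1.cl (cl_iter hBA hTC j R hR) 1 zero_le_one
      (fun v => by rw [one_mul]; exact ih v)).1 v
    rw [one_pow, one_mul] at h
    exact (hBT R hR v).trans h

noncomputable def CC : ℕ → ℝ
  | 0 => 1
  | j + 1 => 3 * CC j ^ 5

theorem iter_upp (hUPP : S_UPP) (hBA : S_BA) (hTC : S_TC) (j : ℕ) (R : ℝ)
    (hR : 0 ≤ R) (v : ℝ) : T^[j] (B R) v ≤ CC j := by
  induction j generalizing v with
  | zero => exact (hBA R hR).2.2.1 v
  | succ j ih =>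
    rw [Function.iterate_succ_apply']
    exact hUPP _ (cl_iter hBA hTC j R hR) (CC j) ih v

end IVTaux

open IVTaux in
theorem IVT_ok (hBA : S_BA) (hBT : S_BT) (hTM : S_TM) (hTC : S_TC) (hTU : S_TU) (hINF : S_INF)
    (hUPP : S_UPP) (hUF : S_UF) : S_IVT := by
  intro m κ hκ
  set F : ℝ → ℝ := fun R => Ti (T^[m] (B R)) with hF
  set H : ℝ → ℝ := fun R => T^[m + 1] (B R) 0 with hH
  have cF : ContinuousOn F (Ici 0) := cont_of F (5 ^ (m + 1) / 2) fun R R' hR hR' =>
    Ti_le hUF hTM hBA hTC m R R' hR hR'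
  have cH : ContinuousOn H (Ici 0) := cont_of H (5 ^ (m + 1) / 2) fun R R' hR hR' =>
    iter_le hUF hTM hBA hTC (m + 1) R R' hR hR' 0
  have hF0 : F 0 = 1 := by
    simp only [hF]
    rw [B_zero hUF, iterU hTU, TiU hBA hUF hTU hINF]
  have hH0 : H 0 = 1 := by
    simp only [hH]
    rw [B_zero hUF, iterU hTU, hUF.2.2.2.1]
  have hFge : ∀ R : ℝ, 0 ≤ R → Real.exp (R / 2) ≤ F R := by
    intro R hR
    have h1 := (hINF _ (cl_iter hBA hTC m R hR)).1
    have h2 := (hBA R hR).2.2.2.2.2.2.1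
    refine le_of_tendsto_of_tendsto' h2 h1 fun v => ?_
    have h3 := iter_ge hUF hTM hBA hTC hBT (m + 1) R hR v
    rw [Function.iterate_succ_apply'] at h3
    exact div_le_div_of_nonneg_right h3 (hUF.2.2.1 v).1.le
  have hHle : ∀ R : ℝ, 0 ≤ R → H R ≤ CC (m + 1) := fun R hR =>
    iter_upp hUPP hBA hTC (m + 1) R hR 0
  have hC1 : 1 ≤ CC (m + 1) := by
    rw [← hH0]
    exact hHle 0 le_rfl
  set R1 : ℝ := 2 * Real.log (κ * CC (m + 1)) with hR1
  have hκC : 1 ≤ κ * CC (m + 1) := by nlinarith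
  have hR1n : 0 ≤ R1 := by
    have := Real.log_nonneg hκC
    linarith
  have hexp : Real.exp (R1 / 2) = κ * CC (m + 1) := by
    rw [hR1, mul_div_cancel_left₀ _ two_ne_zero, Real.exp_log (by linarith)]
  have hc : ContinuousOn (fun R => F R - κ * H R) (Icc 0 R1) := by
    refine ContinuousOn.mono ?_ Icc_subset_Ici_self
    exact cF.sub (continuousOn_const.mul cH)
  have hivt := intermediate_value_Icc hR1n hc
  have hmem : (0 : ℝ) ∈ Icc (F 0 - κ * H 0) (F R1 - κ * H R1) := by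
    constructor
    · rw [hF0, hH0]
      linarith
    · have h1 := hFge R1 hR1n
      have h2 := mul_le_mul_of_nonneg_left (hHle R1 hR1n) (by linarith : (0 : ℝ) ≤ κ)
      linarith
  obtain ⟨R, hR, hRe⟩ := hivt hmem
  refine ⟨R, hR.1, ?_⟩
  have : F R - κ * H R = 0 := hRe
  show F R = κ * H R
  linarith

end Pool.Agent.H638.KP
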