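import Pool.Agent.H638.KP.Defs

/-! LIM: infinite backward orbits. -/

set_option autoImplicit false

open MeasureTheory Set Filter Topology Metric

namespace Pool.Agent.H638.KP

open Pool.Agent.H638.IB (E secVol IB)

theorem LIM_ok (hCHN : S_CHN) (hCHU : S_CHU) (hCPT : S_CPT) (hDOM : S_DOM) (hCHS : S_CHS)
    (hUF : S_UF) : S_LIM := by
  intro κ h1 h2
  obtain ⟨_, _, hU, _⟩ := hUF
  choose F hF using fun m : ℕ => hCHN κ (m + 1) h1 (by omega)
  obtain ⟨c, A, hc, hcA⟩ := hCHU
  have h0 : ∀ j m, j ≤ m → ∀ v, 0 ≤ F m j v := by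
    intro j m hj v
    obtain ⟨c', C', hc', hb⟩ := ((hF m).adm j (by omega)).cl.bd
    exact le_trans (mul_nonneg hc'.le (hU v).1.le) (hb v).1
  obtain ⟨φ, G, hφ, hGc, hlim⟩ := hCPT F
    (fun j m hj v => ⟨h0 j m hj v, (hCHS κ (m + 1) (F m) h1 h2 (by omega) (hF m) j (by omega)).1 v⟩)
    (fun j m hj v v' => ((hF m).adm j (by omega)).lip v v')
  have hφi : ∀ i, i ≤ φ i := fun i => hφ.le_apply
  have hbd : ∀ j v, ∀ᶠ i in atTop, c j * U v ≤ F (φ i) j v ∧ F (φ i) j v ≤ A j * U v := by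
    intro j v
    filter_upwards [eventually_ge_atTop j] with i hi
    exact hcA κ (φ i + 1) (F (φ i)) h1 h2 (by omega) (hF (φ i)) j
      (by have := hφi i; omega) v
  have hGb : ∀ j v, c j * U v ≤ G j v ∧ G j v ≤ A j * U v := by
    intro j v
    exact ⟨ge_of_tendsto (hlim j v) ((hbd j v).mono fun i h => h.1),
      le_of_tendsto (hlim j v) ((hbd j v).mono fun i h => h.2)⟩
  have hD : ∀ j, (∀ v, Tendsto (fun i => T (F (φ i) (j + 1)) v) atTop (𝓝 (T (G (j + 1)) v))) ∧
      Tendsto (fun i => Ti (F (φ i) (j + 1))) atTop (𝓝 (Ti (G (j + 1)))) := by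
    intro j
    refine hDOM (fun i => F (φ i) (j + 1)) (G (j + 1)) (A (j + 1)) ?_ ?_ (hlim (j + 1))
    · filter_upwards [eventually_ge_atTop (j + 1)] with i hi
      exact ((hF (φ i)).adm (j + 1) (by have := hφi i; omega)).cl.cont
    · filter_upwards [eventually_ge_atTop (j + 1)] with i hi
      intro v
      refine ⟨h0 _ _ (by have := hφi i; omega) v, ?_⟩
      exact (hcA κ (φ i + 1) (F (φ i)) h1 h2 (by omega) (hF (φ i)) (j + 1)
        (by have := hφi i; omega) v).2
  refine ⟨G, fun j => ⟨hGc j, ?_, ⟨c j, A j, hc j, hGb j⟩⟩, fun j => ?_, ?_, ?_⟩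
  · intro v
    refine tendsto_nhds_unique_of_eventuallyEq (hlim j (-v)) (hlim j v) ?_
    filter_upwards [eventually_ge_atTop j] with i hi
    exact ((hF (φ i)).adm j (by have := hφi i; omega)).cl.even v
  · funext v
    refine tendsto_nhds_unique_of_eventuallyEq ((hD j).1 v) (hlim j v) ?_
    filter_upwards [eventually_ge_atTop j] with i hi
    exact congrFun ((hF (φ i)).step j (by have := hφi i; omega)) v
  · refine tendsto_nhds_unique_of_eventuallyEq (hlim 0 0)
      (tendsto_const_nhds (x := (1 : ℝ))) ?_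
    exact Eventually.of_forall fun i => (hF (φ i)).zero
  · refine tendsto_nhds_unique_of_eventuallyEq (hD 0).2 (tendsto_const_nhds (x := κ)) ?_
    exact Eventually.of_forall fun i => (hF (φ i)).inf

end Pool.Agent.H638.KP
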