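import Pool.Agent.H638.KP.Defs

set_option autoImplicit false

open MeasureTheory Set Filter Topology Metric
open scoped Pointwise RealInnerProductSpace ENNReal

namespace Pool.Agent.H638.KP

namespace LOWaux

lemma int_abs : ∫ s : ℝ, Real.exp (-3 * |s|) = 2 / 3 := by
  rw [integral_comp_abs (f := fun x => Real.exp (-3 * x)), integral_exp_mul_Ioi (by norm_num)]
  norm_num

lemma integrable_abs : Integrable (fun s : ℝ => Real.exp (-3 * |s|)) := by
  by_contra h
  have := integral_undef h
  rw [int_abs] at this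
  norm_num at this

lemma int_shift (v : ℝ) : ∫ s : ℝ, Real.exp (-3 * |v - s|) = 2 / 3 := by
  rw [integral_sub_left_eq_self (fun s => Real.exp (-3 * |s|)) volume v, int_abs]

lemma integrable_shift (v : ℝ) : Integrable (fun s : ℝ => Real.exp (-3 * |v - s|)) :=
  integrable_abs.comp_sub_left v

end LOWaux

open LOWaux in
theorem LOW_ok (h1 : S_UF) (h2 : S_UI) : S_LOW := by
  intro G hG hlip v
  obtain ⟨c, C, hc, hbd⟩ := hG.bd
  have hpos : ∀ w, 0 ≤ G w := fun w => le_trans (mul_nonneg hc.le (h1.2.2.1 w).1.le) (hbd w).1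
  have hint := (h2 G hG.cont ⟨C, fun w => by rw [abs_of_nonneg (hpos w)]; exact (hbd w).2⟩).1 v
  unfold T
  have hle : ∫ s : ℝ, Real.exp (-3 * |v - s|) * G v ^ 5 ≤
      ∫ s : ℝ, Real.exp (-(|v - s| / 2)) * G s ^ 5 := by
    apply integral_mono ((integrable_shift v).mul_const _) hint
    intro s
    simp only
    have h3 : Real.exp (-(|v - s| / 2)) * G v ≤ G s := by
      have h4 := hlip v s
      have h5 : Real.exp (-(|v - s| / 2)) * Real.exp (|v - s| / 2) = 1 := by
        rw [← Real.exp_add]; simp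
      calc Real.exp (-(|v - s| / 2)) * G v
          ≤ Real.exp (-(|v - s| / 2)) * (Real.exp (|v - s| / 2) * G s) :=
            mul_le_mul_of_nonneg_left h4 (Real.exp_pos _).le
        _ = G s := by rw [← mul_assoc, h5, one_mul]
    have h6 : (Real.exp (-(|v - s| / 2)) * G v) ^ 5 ≤ G s ^ 5 :=
      pow_le_pow_left₀ (mul_nonneg (Real.exp_pos _).le (hpos v)) h3 5
    have h7 : Real.exp (-3 * |v - s|) * G v ^ 5 =
        Real.exp (-(|v - s| / 2)) * (Real.exp (-(|v - s| / 2)) * G v) ^ 5 := by
      rw [mul_pow, ← mul_assoc, ← Real.exp_nat_mul, ← Real.exp_add]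
      congr 2
      push_cast
      ring
    rw [h7]
    exact mul_le_mul_of_nonneg_left h6 (Real.exp_pos _).le
  rw [integral_mul_const, int_shift] at hle
  linarith

end Pool.Agent.H638.KP
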