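import Pool.Agent.H638.KP.Defs

/-! Task NEL: the bodies are not ellipsoids. -/

set_option autoImplicit false

open MeasureTheory Set Filter Topology Metric
open scoped Pointwise RealInnerProductSpace ENNReal

namespace Pool.Agent.H638.KP

open Pool.Agent.H638.IB (E secVol IB)

namespace NELaux

/-- membership of a multiple of a unit vector -/
lemma mem_body {n : ℕ} (σ : E n → ℝ) (u : E n) (hu : ‖u‖ = 1) (hσ : 0 < σ u) (r : ℝ)
    (hr : 0 ≤ r) : r • u ∈ body σ ↔ r ≤ σ u := by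
  constructor
  · rintro ⟨u', hu', r', hr', hr'σ, h⟩
    rcases eq_or_lt_of_le hr with h0 | h0
    · rw [← h0]; exact hσ.le
    · have hn : r = r' := by
        have := congrArg norm h
        rwa [norm_smul, norm_smul, hu, hu', mul_one, mul_one, Real.norm_of_nonneg hr,
          Real.norm_of_nonneg hr'] at this
      subst hn
      have : u = u' := smul_right_injective _ h0.ne' h
      rw [this]
      exact hr'σ
  · intro h
    exact ⟨u, hu, r, hr, h, rfl⟩

lemma neg_mem_body {n : ℕ} (σ : E n → ℝ) (hσ : ∀ z, σ (-z) = σ z) (x : E n)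
    (hx : x ∈ body σ) : -x ∈ body σ := by
  obtain ⟨u, hu, r, hr, hrσ, h⟩ := hx
  refine ⟨-u, by rw [norm_neg, hu], r, hr, by rw [hσ]; exact hrσ, ?_⟩
  rw [h, smul_neg]

/-- a symmetric ellipsoid has its centre at the origin -/
lemma centre {n : ℕ} (L : Set (E n)) (hL : ∀ x ∈ L, -x ∈ L) (M : E n ≃ₗ[ℝ] E n) (c : E n)
    (h : L = (fun x => c + M x) '' closedBall 0 1) : ∀ x, x ∈ L ↔ ‖M.symm x‖ ≤ 1 := by
  have hmem : ∀ x, x ∈ L ↔ ‖M.symm x - M.symm c‖ ≤ 1 := by
    intro x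
    rw [h]
    constructor
    · rintro ⟨y, hy, hyx⟩
      have : y = M.symm x - M.symm c := by
        rw [← hyx]
        simp
      rw [← this]
      simpa using hy
    · intro hx
      refine ⟨M.symm x - M.symm c, by simpa using hx, ?_⟩
      simp
  have hc : M.symm c = 0 := by
    by_contra hne
    set d := M.symm c with hd
    have hdpos : 0 < ‖d‖ := norm_pos_iff.2 hne
    have h1 : M (d + (‖d‖⁻¹ : ℝ) • d) ∈ L := by
      rw [hmem, LinearEquiv.symm_apply_apply, add_sub_cancel_left, norm_smul, norm_inv, norm_norm,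
        inv_mul_cancel₀ hdpos.ne']
    have h2 := hL _ h1
    rw [hmem, map_neg, LinearEquiv.symm_apply_apply] at h2
    have h3 : -(d + (‖d‖⁻¹ : ℝ) • d) - d = (-(2 + ‖d‖⁻¹) : ℝ) • d := by
      module
    rw [h3, norm_smul, norm_neg, Real.norm_of_nonneg (by positivity), add_mul,
      inv_mul_cancel₀ hdpos.ne'] at h2
    linarith
  intro x
  rw [hmem, hc, sub_zero]

/-- the norm of the preimage of a unit vector -/
lemma norm_eq {n : ℕ} (σ : E n → ℝ) (M : E n ≃ₗ[ℝ] E n)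
    (h : ∀ x, x ∈ body σ ↔ ‖M.symm x‖ ≤ 1) (u : E n) (hu : ‖u‖ = 1) (hσ : 0 < σ u) :
    ‖M.symm u‖ * σ u = 1 := by
  have hN : 0 < ‖M.symm u‖ := by
    rw [norm_pos_iff]
    intro h0
    have : u = 0 := by
      have := congrArg M h0
      simpa using this
    rw [this, norm_zero] at hu
    exact zero_ne_one hu
  apply le_antisymm
  · have h1 := (h (σ u • u)).1 ((mem_body σ u hu hσ _ hσ.le).2 le_rfl)
    rw [map_smul, norm_smul, Real.norm_of_nonneg hσ.le] at h1
    linarith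
  · have h1 : (‖M.symm u‖⁻¹ : ℝ) • u ∈ body σ := by
      rw [h, map_smul, norm_smul, norm_inv, norm_norm, inv_mul_cancel₀ hN.ne']
    rw [mem_body σ u hu hσ _ (inv_nonneg.2 hN.le)] at h1
    calc (1 : ℝ) = ‖M.symm u‖ * ‖M.symm u‖⁻¹ := (mul_inv_cancel₀ hN.ne').symm
      _ ≤ ‖M.symm u‖ * σ u := mul_le_mul_of_nonneg_left h1 hN.le

lemma pt_eq (a b : ℝ) : pt a b = a • pt 1 0 + b • pt 0 1 := by
  ext i
  fin_cases i <;> simp [pt]

end NELaux

open NELaux in
theorem NEL_ok (hPQ : S_PQ) (hUF : S_UF) : S_NEL := by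
  intro G g hG _ hg hG0 hg1 l hl
  rintro ⟨M, c, hLM⟩
  obtain ⟨-, -, -, hnorm, -, hpt, hneg⟩ := hPQ
  obtain ⟨-, -, hUpos, hU0, -⟩ := hUF
  have hGpos : ∀ v, 0 < G v := by
    obtain ⟨c0, C0, hc0, hb⟩ := hG.bd
    intro v
    exact lt_of_lt_of_le (mul_pos hc0 (hUpos v).1) (hb v).1
  have h2 : (0 : ℝ) < √2 := by positivity
  have hrho : ∀ z, 0 < rho G g z := by
    intro z
    unfold rho
    split_ifs
    · positivity
    · exact mul_pos h2 (div_pos (hGpos _) (hUpos _).1)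
  set σ : E 6 → ℝ := fun z => l * rho G g z with hσdef
  have hσ : ∀ z, 0 < σ z := fun z => mul_pos hl (hrho z)
  have hσn : ∀ z, σ (-z) = σ z := by
    intro z
    simp only [hσdef, rho, (hneg z).1, (hneg z).2]
  have hc := centre (body σ) (neg_mem_body σ hσn) M c hLM
  have hN : ∀ u : E 6, ‖u‖ = 1 → ‖M.symm u‖ * σ u = 1 := fun u hu => norm_eq σ M hc u hu (hσ u)
  have hnpt : ∀ a b : ℝ, a ^ 2 + b ^ 2 = 1 → ‖pt a b‖ = 1 := by
    intro a b hab
    have h1 := hnorm (pt a b)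
    rw [(hpt a b).1, (hpt a b).2, sq_abs, sq_abs, hab] at h1
    have h3 : 0 ≤ ‖pt a b‖ := norm_nonneg _
    nlinarith
  set s : ℝ := (√2)⁻¹ with hs
  have hs2 : s ^ 2 = 1 / 2 := by
    rw [hs, inv_pow, Real.sq_sqrt (by norm_num)]
    norm_num
  have hspos : 0 < s := by positivity
  -- the four values
  have v1 : σ (pt 1 0) = l * (√2 * g) := by
    simp only [hσdef, rho, (hpt 1 0).2, abs_zero, or_true, if_true]
  have v2 : σ (pt 0 1) = l * (√2 * g) := by
    simp only [hσdef, rho, (hpt 0 1).1, abs_zero, true_or, if_true]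
  have v3 : σ (pt s s) = l * √2 := by
    have h1 : ¬ (PP (pt s s) = 0 ∨ QQ (pt s s) = 0) := by
      rw [(hpt s s).1, (hpt s s).2, abs_of_pos hspos, or_self]
      exact hspos.ne'
    simp only [hσdef, rho, if_neg h1]
    rw [(hpt s s).1, (hpt s s).2, div_self (abs_pos.2 hspos.ne').ne', Real.log_one, hG0, hU0]
    ring
  have v4 : σ (pt s (-s)) = l * √2 := by
    have h1 : ¬ (PP (pt s (-s)) = 0 ∨ QQ (pt s (-s)) = 0) := by
      rw [(hpt s (-s)).1, (hpt s (-s)).2, abs_neg, abs_of_pos hspos, or_self]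
      exact hspos.ne'
    simp only [hσdef, rho, if_neg h1]
    rw [(hpt s (-s)).1, (hpt s (-s)).2, abs_neg, div_self (abs_pos.2 hspos.ne').ne',
      Real.log_one, hG0, hU0]
    ring
  set a := M.symm (pt 1 0) with ha
  set b := M.symm (pt 0 1) with hb
  have w1 : ‖a‖ * (l * (√2 * g)) = 1 := by
    rw [← v1]; exact hN _ (hnpt _ _ (by norm_num))
  have w2 : ‖b‖ * (l * (√2 * g)) = 1 := by
    rw [← v2]; exact hN _ (hnpt _ _ (by norm_num))
  have w3 : ‖a + b‖ * l = 1 := by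
    have h1 := hN (pt s s) (hnpt _ _ (by rw [hs2]; norm_num))
    rw [v3, pt_eq, map_add, map_smul, map_smul, ← smul_add, norm_smul,
      Real.norm_of_nonneg hspos.le] at h1
    have h3 : s * √2 = 1 := by rw [hs]; exact inv_mul_cancel₀ h2.ne'
    calc ‖a + b‖ * l = s * √2 * (‖a + b‖ * l) := by rw [h3, one_mul]
      _ = s * ‖a + b‖ * (l * √2) := by ring
      _ = 1 := h1
  have w4 : ‖a - b‖ * l = 1 := by
    have h1 := hN (pt s (-s)) (hnpt _ _ (by rw [neg_sq, hs2]; norm_num))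
    rw [v4, pt_eq, map_add, map_smul, map_smul, neg_smul, ← sub_eq_add_neg, ← smul_sub, norm_smul,
      Real.norm_of_nonneg hspos.le] at h1
    have h3 : s * √2 = 1 := by rw [hs]; exact inv_mul_cancel₀ h2.ne'
    calc ‖a - b‖ * l = s * √2 * (‖a - b‖ * l) := by rw [h3, one_mul]
      _ = s * ‖a - b‖ * (l * √2) := by ring
      _ = 1 := h1
  have hpar := parallelogram_law_with_norm ℝ a b
  have hsq2 : √2 ^ 2 = 2 := Real.sq_sqrt (by norm_num)
  have x1 : (‖a‖ * l) ^ 2 * (2 * g ^ 2) = 1 := by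
    calc (‖a‖ * l) ^ 2 * (2 * g ^ 2) = (‖a‖ * l) ^ 2 * (√2 ^ 2 * g ^ 2) := by rw [hsq2]
      _ = (‖a‖ * (l * (√2 * g))) ^ 2 := by ring
      _ = 1 := by rw [w1]; norm_num
  have x2 : (‖b‖ * l) ^ 2 * (2 * g ^ 2) = 1 := by
    calc (‖b‖ * l) ^ 2 * (2 * g ^ 2) = (‖b‖ * l) ^ 2 * (√2 ^ 2 * g ^ 2) := by rw [hsq2]
      _ = (‖b‖ * (l * (√2 * g))) ^ 2 := by ring
      _ = 1 := by rw [w2]; norm_num
  have key : (2 : ℝ) * g ^ 2 = 2 := by
    have h1 : (‖a + b‖ * l) ^ 2 + (‖a - b‖ * l) ^ 2 = 2 * ((‖a‖ * l) ^ 2 + (‖b‖ * l) ^ 2) := by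
      linear_combination l ^ 2 * hpar
    rw [w3, w4] at h1
    linear_combination g ^ 2 * h1 + x1 + x2
  have : g = 1 := by
    have h1 : (g - 1) * (g + 1) = 0 := by linear_combination key / 2
    rcases mul_eq_zero.1 h1 with h3 | h3
    · linarith
    · linarith
  exact hg1 this

end Pool.Agent.H638.KP
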