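import Pool.Agent.H638.KP.Defs

/-! Task PAR: the section volume as an integral. -/

set_option autoImplicit false

open MeasureTheory Set Filter Topology Metric
open scoped Pointwise RealInnerProductSpace ENNReal

namespace Pool.Agent.H638.KP

open Pool.Agent.H638.IB (E secVol IB)

namespace PARaux

/-- Polar coordinates for functions of the squared radius. -/
theorem planar (f : ℝ → ℝ≥0∞) (hf : Measurable f) :
    ∫⁻ x : ℝ, ∫⁻ y : ℝ, f (x ^ 2 + y ^ 2) = ENNReal.ofReal Real.pi * ∫⁻ x in Ioi (0 : ℝ), f x := by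
  have h1 : ∫⁻ p : ℝ × ℝ, f (p.1 ^ 2 + p.2 ^ 2) = ∫⁻ x : ℝ, ∫⁻ y : ℝ, f (x ^ 2 + y ^ 2) := by
    rw [Measure.volume_eq_prod, lintegral_prod]
    exact (hf.comp (by fun_prop)).aemeasurable
  rw [← h1, ← lintegral_comp_polarCoord_symm, polarCoord_target]
  have h2 : ∫⁻ p : ℝ × ℝ in Ioi (0:ℝ) ×ˢ Ioo (-Real.pi) Real.pi, ENNReal.ofReal p.1 •
      f ((polarCoord.symm p).1 ^ 2 + (polarCoord.symm p).2 ^ 2) =
      ∫⁻ p : ℝ × ℝ in Ioi (0:ℝ) ×ˢ Ioo (-Real.pi) Real.pi, ENNReal.ofReal p.1 * f (p.1 ^ 2) := by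
    refine lintegral_congr fun p => ?_
    rw [polarCoord_symm_apply, smul_eq_mul]
    congr 2
    simp only
    have := Real.cos_sq_add_sin_sq p.2
    linear_combination p.1 ^ 2 * this
  rw [h2, Measure.volume_eq_prod, setLIntegral_prod]
  · have h3 : ∀ x : ℝ, ∫⁻ _ in Ioo (-Real.pi) Real.pi, ENNReal.ofReal x * f (x ^ 2) =
        ENNReal.ofReal Real.pi * (ENNReal.ofReal |2 * x| * f (x ^ 2)) ∨ x ≤ 0 := by
      intro x
      by_cases hx : x ≤ 0
      · exact Or.inr hx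
      · left
        push Not at hx
        rw [setLIntegral_const, Real.volume_Ioo, abs_of_pos (by positivity),
          ENNReal.ofReal_mul (by norm_num), show Real.pi - -Real.pi = 2 * Real.pi by ring,
          ENNReal.ofReal_mul (by norm_num)]
        ring
    have h4 : ∫⁻ x in Ioi (0:ℝ), ∫⁻ _ in Ioo (-Real.pi) Real.pi, ENNReal.ofReal x * f (x ^ 2) =
        ∫⁻ x in Ioi (0:ℝ), ENNReal.ofReal Real.pi * (ENNReal.ofReal |2 * x| * f (x ^ 2)) := by
      refine setLIntegral_congr_fun measurableSet_Ioi fun x hx => ?_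
      rcases h3 x with h | h
      · exact h
      · exact absurd hx (not_lt.2 h)
    have h5 : ∫⁻ x in Ioi (0:ℝ), f x = ∫⁻ x in Ioi (0:ℝ), ENNReal.ofReal |2 * x| * f (x ^ 2) := by
      have himg : (fun x : ℝ => x ^ 2) '' Ioi 0 = Ioi 0 := by
        ext y
        constructor
        · rintro ⟨x, hx, rfl⟩
          exact pow_pos (mem_Ioi.1 hx) 2
        · intro hy
          exact ⟨√y, Real.sqrt_pos.2 hy, Real.sq_sqrt (le_of_lt hy)⟩
      have := lintegral_image_eq_lintegral_abs_deriv_mul (s := Ioi (0:ℝ)) (f := fun x : ℝ => x ^ 2)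
        (f' := fun x => 2 * x) measurableSet_Ioi
        (fun x _ => by simpa using (hasDerivAt_pow 2 x).hasDerivWithinAt)
        (fun x hx y hy h => by
          have hx' : (0:ℝ) < x := hx
          have hy' : (0:ℝ) < y := hy
          have h' : x ^ 2 = y ^ 2 := h
          nlinarith [sq_nonneg (x - y)]) f
      rw [himg] at this
      exact this
    rw [h4, lintegral_const_mul, h5]
    have := hf
    fun_prop
  · have := hf
    have h : Measurable fun p : ℝ × ℝ => ENNReal.ofReal p.1 * f (p.1 ^ 2) := by fun_prop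
    exact h.aemeasurable

/-- Splitting off the first coordinate. -/
theorem split {n : ℕ} (f : (Fin (n + 1) → ℝ) → ℝ≥0∞) (hf : Measurable f) :
    ∫⁻ w, f w = ∫⁻ s : ℝ, ∫⁻ w : Fin n → ℝ, f (Fin.cons s w) := by
  have h := (volume_preserving_piFinSuccAbove (fun _ : Fin (n + 1) => ℝ) 0).symm.lintegral_comp hf
  rw [← h, Measure.volume_eq_prod, lintegral_prod]
  · refine lintegral_congr fun s => lintegral_congr fun w => ?_
    show f (Fin.insertNth 0 s w) = _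
    rw [Fin.insertNth_zero']
  · exact (hf.comp (MeasurableEquiv.measurable _)).aemeasurable

theorem split0 (f : (Fin 0 → ℝ) → ℝ≥0∞) : ∫⁻ w, f w = f ![] := by
  rw [Measure.volume_pi_eq_dirac (x := ![]), lintegral_dirac]

theorem split5 (f : (Fin 5 → ℝ) → ℝ≥0∞) (hf : Measurable f) :
    ∫⁻ w, f w = ∫⁻ s : ℝ, ∫⁻ x : ℝ, ∫⁻ x' : ℝ, ∫⁻ y : ℝ, ∫⁻ y' : ℝ, f ![s, x, x', y, y'] := by
  have hc : ∀ {n : ℕ} (s : ℝ), Measurable fun w : Fin n → ℝ => (Fin.cons s w : Fin (n + 1) → ℝ) := by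
    intro n s
    refine measurable_pi_lambda _ fun i => ?_
    refine Fin.cases ?_ (fun j => ?_) i
    · simp
    · simp only [Fin.cons_succ]
      exact measurable_pi_apply j
  rw [split f hf]
  refine lintegral_congr fun s => ?_
  rw [split (fun w : Fin 4 → ℝ => f (Fin.cons s w)) (hf.comp (hc s))]
  refine lintegral_congr fun x => ?_
  rw [split (fun w : Fin 3 → ℝ => f (Fin.cons s (Fin.cons x w))) ((hf.comp (hc s)).comp (hc x))]
  refine lintegral_congr fun x' => ?_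
  rw [split (fun w : Fin 2 → ℝ => f (Fin.cons s (Fin.cons x (Fin.cons x' w))))
    (((hf.comp (hc s)).comp (hc x)).comp (hc x'))]
  refine lintegral_congr fun y => ?_
  rw [split (fun w : Fin 1 → ℝ => f (Fin.cons s (Fin.cons x (Fin.cons x' (Fin.cons y w)))))
    ((((hf.comp (hc s)).comp (hc x)).comp (hc x')).comp (hc y))]
  refine lintegral_congr fun y' => ?_
  rw [split0]
  rfl

/-- The embedding. -/
noncomputable def emb (a b : ℝ) (w : E 5) : E 6 :=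
  WithLp.toLp 2 ![w 0 * b, w 1, w 2, -(w 0 * a), w 3, w 4]

theorem emb_norm (a b : ℝ) (h : a ^ 2 + b ^ 2 = 1) (w : E 5) : ‖emb a b w‖ = ‖w‖ := by
  have : ‖emb a b w‖ ^ 2 = ‖w‖ ^ 2 := by
    rw [EuclideanSpace.norm_sq_eq, EuclideanSpace.norm_sq_eq, Fin.sum_univ_six, Fin.sum_univ_five]
    simp only [Real.norm_eq_abs, sq_abs]
    have h0 : emb a b w 0 = w 0 * b := rfl
    have h1 : emb a b w 1 = w 1 := rfl
    have h2 : emb a b w 2 = w 2 := rfl
    have h3 : emb a b w 3 = -(w 0 * a) := rfl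
    have h4 : emb a b w 4 = w 3 := rfl
    have h5 : emb a b w 5 = w 4 := rfl
    rw [h0, h1, h2, h3, h4, h5]
    linear_combination w 0 ^ 2 * h
  exact (sq_eq_sq₀ (norm_nonneg _) (norm_nonneg _)).1 this

/-- The embedding as a linear map. -/
noncomputable def embL (a b : ℝ) : E 5 →ₗ[ℝ] E 6 where
  toFun := emb a b
  map_add' w w' := by
    ext i
    fin_cases i
    · show (w 0 + w' 0) * b = w 0 * b + w' 0 * b
      ring
    · rfl
    · rfl
    · show -((w 0 + w' 0) * a) = -(w 0 * a) + -(w' 0 * a)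
      ring
    · rfl
    · rfl
  map_smul' c w := by
    ext i
    fin_cases i
    · show (c * w 0) * b = c * (w 0 * b)
      ring
    · rfl
    · rfl
    · show -((c * w 0) * a) = c * -(w 0 * a)
      ring
    · rfl
    · rfl

theorem emb_mem (a b : ℝ) (w : E 5) : embL a b w ∈ (ℝ ∙ pt a b)ᗮ := by
  rw [Submodule.mem_orthogonal_singleton_iff_inner_right]
  have h0 : embL a b w 0 = w 0 * b := rfl
  have h1 : embL a b w 1 = w 1 := rfl
  have h2 : embL a b w 2 = w 2 := rfl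
  have h3 : embL a b w 3 = -(w 0 * a) := rfl
  have h4 : embL a b w 4 = w 3 := rfl
  have h5 : embL a b w 5 = w 4 := rfl
  have g0 : pt a b 0 = a := rfl
  have g1 : pt a b 1 = 0 := rfl
  have g2 : pt a b 2 = 0 := rfl
  have g3 : pt a b 3 = b := rfl
  have g4 : pt a b 4 = 0 := rfl
  have g5 : pt a b 5 = 0 := rfl
  simp only [PiLp.inner_apply, RCLike.inner_apply, conj_trivial, Fin.sum_univ_six, h0, h1, h2, h3,
    h4, h5, g0, g1, g2, g3, g4, g5]
  ring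

/-- The embedding as a linear isometry onto the orthogonal complement. -/
noncomputable def embI (a b : ℝ) (h : a ^ 2 + b ^ 2 = 1) : E 5 →ₗᵢ[ℝ] (ℝ ∙ pt a b)ᗮ where
  toLinearMap := (embL a b).codRestrict _ (emb_mem a b)
  norm_map' w := emb_norm a b h w

theorem finrank_eq (a b : ℝ) (h : a ^ 2 + b ^ 2 = 1) :
    Module.finrank ℝ (E 5) = Module.finrank ℝ (ℝ ∙ pt a b)ᗮ := by
  have hne : pt a b ≠ 0 := by
    intro h0
    have h1 : pt a b 0 = 0 := by rw [h0]; rfl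
    have h2 : pt a b 3 = 0 := by rw [h0]; rfl
    have h3 : a = 0 := h1
    have h4 : b = 0 := h2
    rw [h3, h4] at h
    norm_num at h
  have : Fact (Module.finrank ℝ (E 6) = 5 + 1) := ⟨by simp⟩
  rw [Submodule.finrank_orthogonal_span_singleton (n := 5) hne]
  simp

end PARaux

open PARaux

theorem PAR_ok (hPQ : S_PQ) : S_PAR := by
  intro S hS a b ha hb hab
  obtain ⟨hP, hQ, -, -, -, -, -⟩ := hPQ
  let e : E 5 ≃ₗᵢ[ℝ] (ℝ ∙ pt a b)ᗮ := (embI a b hab).toLinearIsometryEquiv (finrank_eq a b hab)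
  have hSm : MeasurableSet {z : (ℝ ∙ pt a b)ᗮ | (PP (z : E 6) ^ 2, QQ (z : E 6) ^ 2) ∈ S} := by
    have : Measurable fun z : (ℝ ∙ pt a b)ᗮ => (PP (z : E 6) ^ 2, QQ (z : E 6) ^ 2) := by
      have h1 : Continuous fun z : (ℝ ∙ pt a b)ᗮ => PP (z : E 6) := hP.comp continuous_subtype_val
      have h2 : Continuous fun z : (ℝ ∙ pt a b)ᗮ => QQ (z : E 6) := hQ.comp continuous_subtype_val
      exact ((h1.pow 2).prodMk (h2.pow 2)).measurable
    exact this hS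
  rw [← e.measurePreserving.measure_preimage hSm.nullMeasurableSet]
  have hval : ∀ w : E 5, ((e w : (ℝ ∙ pt a b)ᗮ) : E 6) = emb a b w := fun w => rfl
  have hPe : ∀ w : E 5, PP (emb a b w) ^ 2 = w 0 ^ 2 * b ^ 2 + (w 1 ^ 2 + w 2 ^ 2) := by
    intro w
    rw [PP, Real.sq_sqrt (by positivity)]
    have h0 : emb a b w 0 = w 0 * b := rfl
    have h1 : emb a b w 1 = w 1 := rfl
    have h2 : emb a b w 2 = w 2 := rfl
    rw [h0, h1, h2]
    ring
  have hQe : ∀ w : E 5, QQ (emb a b w) ^ 2 = w 0 ^ 2 * a ^ 2 + (w 3 ^ 2 + w 4 ^ 2) := by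
    intro w
    rw [QQ, Real.sq_sqrt (by positivity)]
    have h3 : emb a b w 3 = -(w 0 * a) := rfl
    have h4 : emb a b w 4 = w 3 := rfl
    have h5 : emb a b w 5 = w 4 := rfl
    rw [h3, h4, h5]
    ring
  have hpre : e ⁻¹' {z : (ℝ ∙ pt a b)ᗮ | (PP (z : E 6) ^ 2, QQ (z : E 6) ^ 2) ∈ S} =
      {w : E 5 | (w 0 ^ 2 * b ^ 2 + (w 1 ^ 2 + w 2 ^ 2), w 0 ^ 2 * a ^ 2 + (w 3 ^ 2 + w 4 ^ 2)) ∈ S} := by
    ext w
    rw [mem_preimage, mem_ofPred_eq, mem_ofPred_eq, hval, hPe, hQe]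
  rw [hpre]
  have hm5 : MeasurableSet {w : E 5 | (w 0 ^ 2 * b ^ 2 + (w 1 ^ 2 + w 2 ^ 2),
      w 0 ^ 2 * a ^ 2 + (w 3 ^ 2 + w 4 ^ 2)) ∈ S} := by
    have : Measurable fun w : E 5 => (w 0 ^ 2 * b ^ 2 + (w 1 ^ 2 + w 2 ^ 2),
      w 0 ^ 2 * a ^ 2 + (w 3 ^ 2 + w 4 ^ 2)) := by fun_prop
    exact this hS
  rw [← (PiLp.volume_preserving_toLp (Fin 5)).measure_preimage hm5.nullMeasurableSet]
  have hm5' : MeasurableSet (WithLp.toLp 2 ⁻¹' {w : E 5 | (w 0 ^ 2 * b ^ 2 + (w 1 ^ 2 + w 2 ^ 2),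
      w 0 ^ 2 * a ^ 2 + (w 3 ^ 2 + w 4 ^ 2)) ∈ S}) :=
    (PiLp.volume_preserving_toLp (Fin 5)).measurable hm5
  rw [← lintegral_indicator_one hm5']
  rw [split5 _ (measurable_one.indicator hm5')]
  rw [← lintegral_const_mul']
  swap
  · exact ENNReal.ofReal_ne_top
  refine lintegral_congr fun s => ?_
  have hind : ∀ x x' y y' : ℝ, (WithLp.toLp 2 ⁻¹' {w : E 5 | (w 0 ^ 2 * b ^ 2 + (w 1 ^ 2 + w 2 ^ 2),
      w 0 ^ 2 * a ^ 2 + (w 3 ^ 2 + w 4 ^ 2)) ∈ S}).indicator (1 : (Fin 5 → ℝ) → ℝ≥0∞)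
        ![s, x, x', y, y'] =
      S.indicator (fun _ => (1 : ℝ≥0∞)) (s ^ 2 * b ^ 2 + (x ^ 2 + x' ^ 2),
        s ^ 2 * a ^ 2 + (y ^ 2 + y' ^ 2)) := by
    intro x x' y y'
    rfl
  simp only [hind]
  have hSi : Measurable (S.indicator (fun _ => (1 : ℝ≥0∞))) := measurable_const.indicator hS
  have hin : ∀ X : ℝ, ∫⁻ y : ℝ, ∫⁻ y' : ℝ, S.indicator (fun _ => (1 : ℝ≥0∞)) (s ^ 2 * b ^ 2 + X,
        s ^ 2 * a ^ 2 + (y ^ 2 + y' ^ 2)) =
      ENNReal.ofReal Real.pi * ∫⁻ y in Ioi (0 : ℝ), S.indicator (fun _ => (1 : ℝ≥0∞))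
        (s ^ 2 * b ^ 2 + X, s ^ 2 * a ^ 2 + y) := by
    intro X
    exact planar (fun y => S.indicator (fun _ => (1 : ℝ≥0∞)) (s ^ 2 * b ^ 2 + X, s ^ 2 * a ^ 2 + y))
      (hSi.comp (by fun_prop))
  have hin2 : ∀ x x' : ℝ, ∫⁻ y : ℝ, ∫⁻ y' : ℝ, S.indicator (fun _ => (1 : ℝ≥0∞))
      (s ^ 2 * b ^ 2 + (x ^ 2 + x' ^ 2), s ^ 2 * a ^ 2 + (y ^ 2 + y' ^ 2)) =
      ENNReal.ofReal Real.pi * ∫⁻ y in Ioi (0 : ℝ), S.indicator (fun _ => (1 : ℝ≥0∞))
        (s ^ 2 * b ^ 2 + (x ^ 2 + x' ^ 2), s ^ 2 * a ^ 2 + y) := fun x x' => hin _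
  simp only [hin2]
  rw [planar (fun X => ENNReal.ofReal Real.pi * ∫⁻ y in Ioi (0 : ℝ),
    S.indicator (fun _ => (1 : ℝ≥0∞)) (s ^ 2 * b ^ 2 + X, s ^ 2 * a ^ 2 + y))]
  · rw [lintegral_const_mul' _ _ ENNReal.ofReal_ne_top, ← mul_assoc, ← ENNReal.ofReal_mul Real.pi_nonneg,
      ← sq]
  · refine Measurable.const_mul ?_ _
    have : Measurable fun p : ℝ × ℝ => S.indicator (fun _ => (1 : ℝ≥0∞))
        (s ^ 2 * b ^ 2 + p.1, s ^ 2 * a ^ 2 + p.2) := hSi.comp (by fun_prop)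
    exact this.lintegral_prod_right'

end Pool.Agent.H638.KP
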