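import Pool.Agent.H638.KP.Defs

/-! Task PQ: facts on `PP` and `QQ`. -/

set_option autoImplicit false

open MeasureTheory Set Filter Topology Metric
open scoped Pointwise RealInnerProductSpace ENNReal

namespace Pool.Agent.H638.KP

open Pool.Agent.H638.IB (E secVol IB)

theorem PQ_ok : S_PQ := by
  refine ⟨?_, ?_, fun z => ⟨Real.sqrt_nonneg _, Real.sqrt_nonneg _⟩, ?_, ?_, ?_, ?_⟩
  · unfold PP
    fun_prop
  · unfold QQ
    fun_prop
  · intro z
    rw [EuclideanSpace.norm_sq_eq, PP, QQ, Real.sq_sqrt (by positivity), Real.sq_sqrt (by positivity),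
      Fin.sum_univ_six]
    simp only [Real.norm_eq_abs, sq_abs]
    ring
  · intro r z
    constructor
    · rw [PP, PP, ← Real.sqrt_sq_eq_abs, ← Real.sqrt_mul (sq_nonneg _)]
      congr 1
      simp only [PiLp.smul_apply, smul_eq_mul]
      ring
    · rw [QQ, QQ, ← Real.sqrt_sq_eq_abs, ← Real.sqrt_mul (sq_nonneg _)]
      congr 1
      simp only [PiLp.smul_apply, smul_eq_mul]
      ring
  · intro a b
    constructor
    · rw [PP, ← Real.sqrt_sq_eq_abs]
      congr 1
      have h0 : (pt a b) 0 = a := rfl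
      have h1 : (pt a b) 1 = 0 := rfl
      have h2 : (pt a b) 2 = 0 := rfl
      rw [h0, h1, h2]
      ring
    · rw [QQ, ← Real.sqrt_sq_eq_abs]
      congr 1
      have h0 : (pt a b) 3 = b := rfl
      have h1 : (pt a b) 4 = 0 := rfl
      have h2 : (pt a b) 5 = 0 := rfl
      rw [h0, h1, h2]
      ring
  · intro z
    constructor
    · rw [PP, PP]
      congr 1
      simp only [PiLp.neg_apply]
      ring
    · rw [QQ, QQ]
      congr 1
      simp only [PiLp.neg_apply]
      ring

end Pool.Agent.H638.KP
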