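import Pool.Agent.H638.KP.Defs

set_option autoImplicit false

open MeasureTheory Set Filter Topology Metric
open scoped Pointwise RealInnerProductSpace ENNReal

namespace Pool.Agent.H638.KP

open Pool.Agent.H638.IB (E secVol IB)

namespace RHCaux

/-- The condition at a pole. -/
theorem pole (G : ℝ → ℝ) (g : ℝ) (A B : E 6 → ℝ) (hA : Continuous A) (hB : Continuous B)
    (hA0 : ∀ z, 0 ≤ A z) (hB0 : ∀ z, 0 ≤ B z)
    (hr : ∀ z, rho G g z = if A z = 0 ∨ B z = 0 then √2 * g else
      √2 * (G (Real.log (B z / A z)) / U (Real.log (B z / A z))))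
    (hT : Tendsto (fun v => G v / U v) atTop (𝓝 g)) (u : E 6) (hu : A u = 0) (hu' : 0 < B u) :
    ContinuousAt (rho G g) u := by
  have hT2 : Tendsto (fun v => √2 * (G v / U v)) atTop (𝓝 (√2 * g)) := hT.const_mul _
  have hru : rho G g u = √2 * g := by rw [hr u, if_pos (Or.inl hu)]
  rw [ContinuousAt, hru, Metric.tendsto_nhds]
  intro ε hε
  obtain ⟨M, hM⟩ := eventually_atTop.mp (Metric.tendsto_nhds.mp hT2 ε hε)
  have hopen : ∀ᶠ z in 𝓝 u, Real.exp M * A z < B z := by
    have hc : Continuous (fun z => B z - Real.exp M * A z) := hB.sub (continuous_const.mul hA)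
    have h0 : 0 < B u - Real.exp M * A u := by rw [hu]; simpa using hu'
    filter_upwards [hc.continuousAt.eventually (lt_mem_nhds h0)] with z hz
    linarith
  filter_upwards [hopen] with z hz
  rw [hr z]
  by_cases h : A z = 0 ∨ B z = 0
  · rw [if_pos h, dist_self]
    exact hε
  · rw [if_neg h]
    push Not at h
    have hAz : 0 < A z := lt_of_le_of_ne (hA0 z) (Ne.symm h.1)
    have hBz : 0 < B z := lt_of_le_of_ne (hB0 z) (Ne.symm h.2)
    refine hM _ ?_
    rw [Real.le_log_iff_exp_le (div_pos hBz hAz), le_div_iff₀ hAz]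
    exact hz.le

theorem flip (hUF : S_UF) (G : ℝ → ℝ) (g : ℝ) (hG : Cl G) (z : E 6) :
    rho G g z = if QQ z = 0 ∨ PP z = 0 then √2 * g else
      √2 * (G (Real.log (PP z / QQ z)) / U (Real.log (PP z / QQ z))) := by
  unfold rho
  by_cases h : PP z = 0 ∨ QQ z = 0
  · rw [if_pos h, if_pos h.symm]
  · rw [if_neg h, if_neg (fun h' => h h'.symm)]
    have h1 : Real.log (PP z / QQ z) = -Real.log (QQ z / PP z) := by
      rw [← Real.log_inv, inv_div]
    rw [h1, hG.even, hUF.2.1]

end RHCaux

open RHCaux in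
theorem RHC_ok (hPQ : S_PQ) (hUF : S_UF) : S_RHC := by
  intro G g hG hT hg
  obtain ⟨hcP, hcQ, hnn, hsq, _, _, hneg⟩ := hPQ
  have hUpos : ∀ v, 0 < U v := fun v => (hUF.2.2.1 v).1
  have hGpos : ∀ v, 0 < G v := by
    intro v
    obtain ⟨c, C, hc, hb⟩ := hG.bd
    exact lt_of_lt_of_le (mul_pos hc (hUpos v)) (hb v).1
  have h2 : 0 < √(2 : ℝ) := by positivity
  refine ⟨?_, ?_, ?_⟩
  · intro u hu
    apply ContinuousAt.continuousWithinAt
    have hn : ‖u‖ = 1 := by simpa using hu
    have hab : PP u ^ 2 + QQ u ^ 2 = 1 := by rw [← hsq u, hn]; norm_num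
    obtain ⟨ha0, hb0⟩ := hnn u
    rcases ha0.eq_or_lt with ha | ha
    · have hb : 0 < QQ u := by
        rcases hb0.eq_or_lt with hb | hb
        · rw [← ha, ← hb] at hab; norm_num at hab
        · exact hb
      exact pole G g PP QQ hcP hcQ (fun z => (hnn z).1) (fun z => (hnn z).2)
        (fun z => rfl) hT u ha.symm hb
    · rcases hb0.eq_or_lt with hb | hb
      · exact pole G g QQ PP hcQ hcP (fun z => (hnn z).2) (fun z => (hnn z).1)
          (flip hUF G g hG) hT u hb.symm ha
      · have h1 : rho G g =ᶠ[𝓝 u] fun z => √2 * (G (Real.log (QQ z / PP z)) /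
            U (Real.log (QQ z / PP z))) := by
          have hP : ∀ᶠ z in 𝓝 u, 0 < PP z := hcP.continuousAt.eventually (lt_mem_nhds ha)
          have hQ : ∀ᶠ z in 𝓝 u, 0 < QQ z := hcQ.continuousAt.eventually (lt_mem_nhds hb)
          filter_upwards [hP, hQ] with z hz hz'
          unfold rho
          rw [if_neg (by rintro (h | h) <;> linarith)]
        refine ContinuousAt.congr ?_ h1.symm
        have hlog : ContinuousAt (fun z => Real.log (QQ z / PP z)) u := by
          refine ContinuousAt.log ?_ (div_pos hb ha).ne'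
          exact hcQ.continuousAt.div hcP.continuousAt ha.ne'
        have hGc : ContinuousAt (fun z => G (Real.log (QQ z / PP z))) u :=
          ContinuousAt.comp (f := fun z => Real.log (QQ z / PP z)) (g := G)
            hG.cont.continuousAt hlog
        have hUc : ContinuousAt (fun z => U (Real.log (QQ z / PP z))) u :=
          ContinuousAt.comp (f := fun z => Real.log (QQ z / PP z)) (g := U)
            hUF.1.continuousAt hlog
        exact continuousAt_const.mul (hGc.div hUc (hUpos _).ne')
  · intro u _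
    unfold rho
    split_ifs with h
    · positivity
    · exact mul_pos h2 (div_pos (hGpos _) (hUpos _))
  · intro u
    unfold rho
    rw [(hneg u).1, (hneg u).2]

end Pool.Agent.H638.KP
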