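import Pool.Agent.H638.KP.Defs

/-! SBR: star bodies with given radial function. -/

set_option autoImplicit false

open MeasureTheory Set Filter Topology Metric
open scoped Pointwise RealInnerProductSpace ENNReal

namespace Pool.Agent.H638.KP

open Pool.Agent.H638.IB (E secVol IB)

namespace SBRaux

theorem mem_body {n : ℕ} (ρ : E n → ℝ) (hpos : ∀ u ∈ sphere (0 : E n) 1, 0 < ρ u) (u : E n)
    (hu : ‖u‖ = 1) (l : ℝ) (hl : 0 ≤ l) : l • u ∈ body ρ ↔ l ≤ ρ u := by
  constructor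
  · rintro ⟨u', hu', r, hr, hr', he⟩
    have hn : l = r := by
      have h1 := congrArg norm he
      rw [norm_smul, norm_smul, hu, hu', mul_one, mul_one, Real.norm_eq_abs, Real.norm_eq_abs,
        abs_of_nonneg hl, abs_of_nonneg hr] at h1
      exact h1
    subst hn
    rcases hl.eq_or_lt with h0 | h0
    · rw [← h0]
      exact (hpos u (by rw [mem_sphere_zero_iff_norm]; exact hu)).le
    · have h2 : u = u' := smul_right_injective (E n) h0.ne' he
      rw [h2]
      exact hr'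
  · intro h
    exact ⟨u, hu, l, hl, h, rfl⟩

theorem rad_eq {n : ℕ} (ρ : E n → ℝ) (hpos : ∀ u ∈ sphere (0 : E n) 1, 0 < ρ u) (u : E n)
    (hu : u ∈ sphere (0 : E n) 1) : rad (body ρ) u = ρ u := by
  have hu1 : ‖u‖ = 1 := by rwa [mem_sphere_zero_iff_norm] at hu
  have h1 : {l : ℝ | 0 ≤ l ∧ l • u ∈ body ρ} = Icc 0 (ρ u) := by
    ext l
    constructor
    · rintro ⟨h0, h2⟩
      exact ⟨h0, (mem_body ρ hpos u hu1 l h0).1 h2⟩
    · rintro ⟨h0, h2⟩
      exact ⟨h0, (mem_body ρ hpos u hu1 l h0).2 h2⟩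
  unfold rad
  rw [h1]
  exact csSup_Icc (hpos u hu).le

end SBRaux

open SBRaux

theorem SBR_ok : S_SBR := by
  intro n ρ hn hc hpos
  refine ⟨⟨?_, ?_, ?_, ?_⟩, rad_eq ρ hpos, ?_⟩
  · have h1 : body ρ = (fun p : ℝ × E n => (p.1 * ρ p.2) • p.2) ''
        (Icc (0 : ℝ) 1 ×ˢ sphere (0 : E n) 1) := by
      ext x
      constructor
      · rintro ⟨u, hu, r, hr, hr', rfl⟩
        have hu' : u ∈ sphere (0 : E n) 1 := by rw [mem_sphere_zero_iff_norm]; exact hu
        have hp := hpos u hu'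
        refine ⟨(r / ρ u, u), ⟨⟨div_nonneg hr hp.le, (div_le_one hp).2 hr'⟩, hu'⟩, ?_⟩
        simp only
        rw [div_mul_cancel₀ _ hp.ne']
      · rintro ⟨⟨s, u⟩, ⟨⟨hs0, hs1⟩, hu⟩, rfl⟩
        have hp := hpos u hu
        refine ⟨u, by rwa [mem_sphere_zero_iff_norm] at hu, s * ρ u, mul_nonneg hs0 hp.le, ?_, rfl⟩
        calc s * ρ u ≤ 1 * ρ u := mul_le_mul_of_nonneg_right hs1 hp.le
          _ = ρ u := one_mul _
    rw [h1]
    refine (isCompact_Icc.prod (isCompact_sphere 0 1)).image_of_continuousOn ?_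
    refine ContinuousOn.smul (continuousOn_fst.mul (hc.comp continuousOn_snd ?_)) continuousOn_snd
    rintro ⟨s, u⟩ ⟨_, hu⟩
    exact hu
  · rintro y ⟨u, hu, r, hr, hr', rfl⟩ a b ha hb hab
    refine ⟨u, hu, b * r, mul_nonneg hb hr, ?_, ?_⟩
    · have hb1 : b ≤ 1 := by linarith
      exact (mul_le_of_le_one_left hr hb1).trans hr'
    · rw [smul_zero, zero_add, smul_smul]
  · intro x hx
    rw [rad_eq ρ hpos x hx]
    exact hpos x hx
  · exact hc.congr (rad_eq ρ hpos)
  · intro hsym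
    ext x
    rw [Set.mem_neg]
    constructor
    · rintro ⟨u, hu, r, hr, hr', rfl⟩
      refine ⟨-u, by rw [norm_neg]; exact hu, r, hr, ?_, by rw [smul_neg]⟩
      rw [hsym u (by rw [mem_sphere_zero_iff_norm]; exact hu)]
      exact hr'
    · rintro ⟨u, hu, r, hr, hr', he⟩
      refine ⟨-u, by rw [norm_neg]; exact hu, r, hr, ?_, ?_⟩
      · rw [hsym u (by rw [mem_sphere_zero_iff_norm]; exact hu)]
        exact hr'
      · rw [smul_neg, ← he, neg_neg]

end Pool.Agent.H638.KP
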