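import Pool.Agent.H638.KP.Defs

/-! Task SCA of project KP (MP_242fd5_gt): dilates. -/

set_option autoImplicit false

open MeasureTheory Set Filter Topology Metric
open scoped Pointwise RealInnerProductSpace ENNReal

namespace Pool.Agent.H638.KP

open Pool.Agent.H638.IB (E secVol IB)

namespace SCAaux

theorem mem_body_smul (ρ : E 6 → ℝ) (l : ℝ) (hl : 0 < l) (x : E 6) :
    x ∈ body (fun z => l * ρ z) ↔ l⁻¹ • x ∈ body ρ := by
  constructor
  · rintro ⟨v, hv, r, hr, hr', rfl⟩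
    refine ⟨v, hv, l⁻¹ * r, by positivity, ?_, by rw [smul_smul]⟩
    rw [inv_mul_le_iff₀ hl]
    exact hr'
  · rintro ⟨v, hv, r, hr, hr', h⟩
    refine ⟨v, hv, l * r, by positivity, mul_le_mul_of_nonneg_left hr' hl.le, ?_⟩
    rw [← smul_smul, ← h, smul_smul, mul_inv_cancel₀ hl.ne', one_smul]

end SCAaux

open SCAaux in
/-- SCA: dilates. -/
theorem SCA_ok : S_SCA := by
  intro ρ l hl u hu
  have hu0 : u ≠ 0 := by
    rintro rfl
    simp at hu
  have : Fact (Module.finrank ℝ (E 6) = 5 + 1) := ⟨by simp [E]⟩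
  have hdim : Module.finrank ℝ ((ℝ ∙ u)ᗮ : Submodule ℝ (E 6)) = 5 :=
    Submodule.finrank_orthogonal_span_singleton hu0
  unfold secVol
  have e : {y : ((ℝ ∙ u)ᗮ : Submodule ℝ (E 6)) | (y : E 6) ∈ body (fun z => l * ρ z)} =
      (l⁻¹ • · : ((ℝ ∙ u)ᗮ : Submodule ℝ (E 6)) → _) ⁻¹' {y | (y : E 6) ∈ body ρ} := by
    ext y
    rw [mem_preimage, mem_ofPred_eq, mem_ofPred_eq, mem_body_smul ρ l hl]
    rfl
  rw [e, Measure.addHaar_preimage_smul _ (inv_ne_zero hl.ne'), hdim, ENNReal.toReal_mul,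
    ENNReal.toReal_ofReal (abs_nonneg _), inv_pow, inv_inv, abs_of_pos (by positivity)]

end Pool.Agent.H638.KP
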