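import Pool.Agent.H638.KP.Defs

set_option autoImplicit false

open MeasureTheory Set Filter Topology Metric
open scoped Pointwise RealInnerProductSpace ENNReal

namespace Pool.Agent.H638.KP

open Pool.Agent.H638.IB (E secVol IB)

namespace SETaux

theorem absbd (hUF : S_UF) (G : ℝ → ℝ) (hG : Cl G) : ∃ C : ℝ, ∀ v, |G v| ≤ C * U v := by
  obtain ⟨c, C, hc, hb⟩ := hG.bd
  refine ⟨C, fun v => ?_⟩
  have h1 := hb v
  have hU := (hUF.2.2.1 v).1
  have h0 : 0 ≤ G v := le_trans (by positivity) h1.1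
  rw [abs_of_nonneg h0]
  exact h1.2

/-- Reflection: `∫ exp(-(v/2)) G^5 = ∫ exp(v/2) G^5`. -/
theorem int_neg (G : ℝ → ℝ) (hG : Cl G) :
    ∫ v : ℝ, Real.exp (-(v / 2)) * G v ^ 5 = ∫ v : ℝ, Real.exp (v / 2) * G v ^ 5 := by
  have h := integral_neg_eq_self (fun v : ℝ => Real.exp (v / 2) * G v ^ 5) volume
  rw [← h]
  refine integral_congr_ae (Eventually.of_forall fun v => ?_)
  simp only
  rw [hG.even v]
  congr 2
  ring

theorem int_cosh (hUF : S_UF) (hUI : S_UI) (G : ℝ → ℝ) (hG : Cl G) :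
    ∫ v : ℝ, Real.exp (v / 2) * G v ^ 5 = ∫ v : ℝ, Real.cosh (v / 2) * G v ^ 5 := by
  obtain ⟨_, h1, h2, _, _⟩ := hUI G hG.cont (absbd hUF G hG)
  have h3 : Integrable (fun v : ℝ => Real.exp (-(v / 2)) * G v ^ 5) := by
    have h4 := (h2.comp_neg)
    refine h4.congr (Eventually.of_forall fun v => ?_)
    simp only
    rw [hG.even v]
    congr 2
    ring
  have h5 : ∫ v : ℝ, Real.cosh (v / 2) * G v ^ 5 =
      (1 / 2) * ((∫ v : ℝ, Real.exp (v / 2) * G v ^ 5) +
        ∫ v : ℝ, Real.exp (-(v / 2)) * G v ^ 5) := by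
    rw [← integral_add h2 h3, ← integral_const_mul]
    refine integral_congr_ae (Eventually.of_forall fun v => ?_)
    simp only
    rw [Real.cosh_eq]
    ring
  rw [h5, int_neg G hG]
  ring

theorem kernel (a b : ℝ) (ha : 0 < a) (hb : 0 < b) (v : ℝ) :
    Real.exp (-(v / 2)) / max b (a * Real.exp (-v)) =
      (√(a * b))⁻¹ * Real.exp (-(|v + Real.log (b / a)| / 2)) := by
  set t := Real.log (b / a) with ht
  have hbt : b = a * Real.exp t := by
    rw [ht, Real.exp_log (div_pos hb ha)]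
    field_simp
  have hs : √(a * b) = a * Real.exp (t / 2) := by
    rw [hbt]
    have : a * (a * Real.exp t) = (a * Real.exp (t / 2)) ^ 2 := by
      rw [mul_pow, sq (Real.exp (t / 2)), ← Real.exp_add]
      ring_nf
    rw [this, Real.sqrt_sq (by positivity)]
  rw [hs]
  conv_lhs => rw [hbt]
  rcases le_total 0 (v + t) with h | h
  · rw [abs_of_nonneg h, max_eq_left]
    · rw [div_eq_iff (by positivity)]
      have : (a * Real.exp (t / 2))⁻¹ * Real.exp (-((v + t) / 2)) * (a * Real.exp t) =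
          (Real.exp (t / 2))⁻¹ * Real.exp (-((v + t) / 2)) * Real.exp t := by
        field_simp
      rw [this, ← Real.exp_neg, ← Real.exp_add, ← Real.exp_add]
      congr 1
      ring
    · apply mul_le_mul_of_nonneg_left _ ha.le
      apply Real.exp_le_exp.mpr
      linarith
  · rw [abs_of_nonpos h, max_eq_right]
    · rw [div_eq_iff (by positivity)]
      have : (a * Real.exp (t / 2))⁻¹ * Real.exp (-(-(v + t) / 2)) * (a * Real.exp (-v)) =
          (Real.exp (t / 2))⁻¹ * Real.exp (-(-(v + t) / 2)) * Real.exp (-v) := by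
        field_simp
      rw [this, ← Real.exp_neg, ← Real.exp_add, ← Real.exp_add]
      congr 1
      ring
    · apply mul_le_mul_of_nonneg_left _ ha.le
      apply Real.exp_le_exp.mpr
      linarith

theorem int_pos (G : ℝ → ℝ) (hG : Cl G) (a b : ℝ) (ha : 0 < a) (hb : 0 < b) :
    ∫ v : ℝ, G v ^ 5 * Real.exp (-(v / 2)) / max b (a * Real.exp (-v)) =
      (√(a * b))⁻¹ * (4 / 3 * T G (Real.log (b / a))) := by
  have h1 : ∀ v : ℝ, G v ^ 5 * Real.exp (-(v / 2)) / max b (a * Real.exp (-v)) =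
      (√(a * b))⁻¹ * (Real.exp (-(|v + Real.log (b / a)| / 2)) * G v ^ 5) := by
    intro v
    rw [mul_div_assoc, kernel a b ha hb v]
    ring
  simp only [h1]
  rw [integral_const_mul]
  congr 1
  unfold T
  have h2 := integral_neg_eq_self
    (fun v : ℝ => Real.exp (-(|v + Real.log (b / a)| / 2)) * G v ^ 5) volume
  rw [← h2, ← mul_assoc]
  norm_num
  refine integral_congr_ae (Eventually.of_forall fun v => ?_)
  simp only
  rw [hG.even v]
  congr 5
  ring

theorem rho_pos (G : ℝ → ℝ) (g a b : ℝ) (z : E 6) (hPz : PP z = a) (hQz : QQ z = b)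
    (ha : 0 < a) (hb : 0 < b) (hab : a ^ 2 + b ^ 2 = 1) :
    rho G g z = (√(a * b))⁻¹ * G (Real.log (b / a)) := by
  unfold rho
  rw [hPz, hQz, if_neg (by rintro (h | h) <;> linarith)]
  have hc : Real.cosh (Real.log (b / a)) = (2 * (a * b))⁻¹ := by
    rw [Real.cosh_eq, Real.exp_neg, Real.exp_log (div_pos hb ha)]
    field_simp
    nlinarith
  unfold U
  rw [hc, Real.sqrt_inv, Real.sqrt_mul (by norm_num : (0 : ℝ) ≤ 2)]
  have h2 : 0 < √(2 : ℝ) := by positivity
  have h3 : 0 < √(a * b) := by positivity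
  field_simp

end SETaux

open SETaux in
theorem SET_ok (hPQ : S_PQ) (hUF : S_UF) (hUI : S_UI) : S_SET := by
  intro G hG u hu
  obtain ⟨_, _, hnn, hsq, _, _, _⟩ := hPQ
  have hn : ‖u‖ = 1 := by simpa using hu
  have hab : PP u ^ 2 + QQ u ^ 2 = 1 := by rw [← hsq u, hn]; norm_num
  obtain ⟨ha0, hb0⟩ := hnn u
  rcases ha0.eq_or_lt with ha | ha
  · -- PP u = 0
    have hb : QQ u = 1 := by
      have : QQ u ^ 2 = 1 := by rw [← ha] at hab; linarith
      nlinarith
    have hr : rho (T G) (Ti G) u = √2 * Ti G := by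
      unfold rho
      rw [if_pos (Or.inl ha.symm)]
    rw [hr, hb, ← ha]
    have h1 : ∀ v : ℝ, G v ^ 5 * Real.exp (-(v / 2)) / max 1 (0 * Real.exp (-v)) =
        Real.exp (-(v / 2)) * G v ^ 5 := by
      intro v
      rw [zero_mul, max_eq_left (by norm_num : (0 : ℝ) ≤ 1)]
      ring
    simp only [h1]
    rw [int_neg G hG, int_cosh hUF hUI G hG]
    unfold Ti
    have h2 : 0 < √(2 : ℝ) := by positivity
    field_simp
    ring
  · rcases hb0.eq_or_lt with hb | hb
    · have ha1 : PP u = 1 := by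
        have : PP u ^ 2 = 1 := by rw [← hb] at hab; linarith
        nlinarith
      have hr : rho (T G) (Ti G) u = √2 * Ti G := by
        unfold rho
        rw [if_pos (Or.inr hb.symm)]
      rw [hr, ha1, ← hb]
      have h1 : ∀ v : ℝ, G v ^ 5 * Real.exp (-(v / 2)) / max 0 (1 * Real.exp (-v)) =
          Real.exp (v / 2) * G v ^ 5 := by
        intro v
        rw [one_mul, max_eq_right (Real.exp_pos _).le, mul_div_assoc, ← Real.exp_sub, mul_comm]
        congr 2
        ring
      simp only [h1]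
      rw [int_cosh hUF hUI G hG]
      unfold Ti
      have h2 : 0 < √(2 : ℝ) := by positivity
      field_simp
      ring
    · rw [int_pos G hG _ _ ha hb, rho_pos (T G) (Ti G) _ _ u rfl rfl ha hb hab]
      ring

end Pool.Agent.H638.KP
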