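import Pool.Agent.H638.KP.Defs

/-! Task SEV: the section volume. -/

set_option autoImplicit false

open MeasureTheory Set Filter Topology Metric
open scoped Pointwise RealInnerProductSpace ENNReal

namespace Pool.Agent.H638.KP

open Pool.Agent.H638.IB (E secVol IB)

theorem SEV_ok (hROT : S_ROT) (hPAR : S_PAR) (hFUB : S_FUB) (hSUB : S_SUB) (hSSB : S_SSB)
    (hPQ : S_PQ) (_hUF : S_UF) (_hUI : S_UI) : S_SEV := by
  intro G g hG hg u hu
  obtain ⟨hmeas, hmem⟩ := hSSB G g hG hg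
  obtain ⟨-, -, hnn, hnorm, -, -, -⟩ := hPQ
  have ha : 0 ≤ PP u := (hnn u).1
  have hb : 0 ≤ QQ u := (hnn u).2
  have hab : PP u ^ 2 + QQ u ^ 2 = 1 := by
    rw [← hnorm u]
    have : ‖u‖ = 1 := by simpa using hu
    rw [this]; norm_num
  have h1 : secVol (body (rho G g)) u = secVol (body (rho G g)) (pt (PP u) (QQ u)) := by
    apply hROT
    intro z z' h h'
    rw [hmem z, hmem z', h, h']
  have hGnn : ∀ v, 0 ≤ G v := by
    intro v
    obtain ⟨c, C, hc, h⟩ := hG.bd
    have : 0 ≤ U v := by unfold U; positivity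
    exact le_trans (by positivity) (h v).1
  have hset : {y : (ℝ ∙ pt (PP u) (QQ u))ᗮ | (y : E 6) ∈ body (rho G g)} =
      {z : (ℝ ∙ pt (PP u) (QQ u))ᗮ | (PP (z : E 6) ^ 2, QQ (z : E 6) ^ 2) ∈ SS G g} := by
    ext z
    exact hmem z
  rw [h1, secVol, hset, hPAR (SS G g) hmeas (PP u) (QQ u) ha hb hab,
    hFUB (SS G g) hmeas (PP u) (QQ u) ha hb hab, hSUB G g hG (PP u) (QQ u) ha hb hab,
    ENNReal.toReal_mul, ENNReal.toReal_ofReal (by positivity)]
  have hmm : Measurable fun v : ℝ =>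
      8 / 5 * (G v ^ 5 * Real.exp (-(v / 2)) / max (QQ u) (PP u * Real.exp (-v))) := by
    have := hG.cont.measurable
    fun_prop
  rw [← integral_eq_lintegral_of_nonneg_ae]
  · rw [integral_const_mul]
    ring
  · refine Eventually.of_forall fun v => ?_
    have h1 : 0 ≤ G v ^ 5 * Real.exp (-(v / 2)) := mul_nonneg (pow_nonneg (hGnn v) 5) (Real.exp_nonneg _)
    have h2 : 0 ≤ max (QQ u) (PP u * Real.exp (-v)) := le_max_of_le_left hb
    show (0:ℝ) ≤ _
    positivity
  · exact hmm.aestronglyMeasurable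

end Pool.Agent.H638.KP
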