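import Pool.Agent.H638.KP.Defs

set_option autoImplicit false

open MeasureTheory Set Filter Topology Metric
open scoped Pointwise RealInnerProductSpace ENNReal

namespace Pool.Agent.H638.KP

open Pool.Agent.H638.IB (E secVol IB)

namespace SMLaux

theorem pos (hUF : S_UF) {G : ℝ → ℝ} (hG : Cl G) (v : ℝ) : 0 < G v := by
  obtain ⟨c, C, hc, h⟩ := hG.bd
  exact lt_of_lt_of_le (mul_pos hc (hUF.2.2.1 v).1) (h v).1

theorem int6 (hUI : S_UI) (hUF : S_UF) {G : ℝ → ℝ} (hG : Cl G) :
    Integrable (fun s => G s ^ 6) := by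
  obtain ⟨c, C, hc, h⟩ := hG.bd
  exact (hUI G hG.cont ⟨C, fun v => by
    rw [abs_of_pos (pos hUF hG v)]
    exact (h v).2⟩).2.2.2.1

end SMLaux

open SMLaux

theorem SML_ok (hUI : S_UI) (hUF : S_UF) : S_SML := by
  intro G hG R η hm hE hη v hv
  by_contra hcon
  push Not at hcon
  have hη6 : 0 < η ^ 6 := by positivity
  have hRv : R ≤ v := by
    have : 0 < 400 / η ^ 6 := by positivity
    linarith
  have h1 : ∫ s in Icc R v, G s ^ 6 ≤ En G := by
    unfold En
    exact setIntegral_le_integral (int6 hUI hUF hG)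
      (Filter.Eventually.of_forall fun s => by positivity)
  have h2 : ∫ s in Icc R v, G v ^ 6 ≤ ∫ s in Icc R v, G s ^ 6 := by
    refine setIntegral_mono_on ?_ (int6 hUI hUF hG).integrableOn measurableSet_Icc ?_
    · exact integrableOn_const (by simp [Real.volume_Icc])
    · intro s hs
      have h3 : G v ≤ G s := hm.2.2 (mem_Ici.2 hs.1) (mem_Ici.2 hRv) hs.2
      have h4 := (pos hUF hG v).le
      gcongr
  have h3 : ∫ s in Icc R v, G v ^ 6 = (v - R) * G v ^ 6 := by
    rw [setIntegral_const]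
    simp [Real.volume_real_Icc_of_le hRv]
  have h4 : 400 ≤ (v - R) * η ^ 6 := by
    have : 400 / η ^ 6 ≤ v - R := by linarith
    rwa [div_le_iff₀ hη6] at this
  have h5 : η ^ 6 < G v ^ 6 := by gcongr
  have h6 : 0 < v - R := by
    by_contra hc
    have : (v - R) * η ^ 6 ≤ 0 := mul_nonpos_of_nonpos_of_nonneg (by linarith) hη6.le
    linarith
  have h7 : (v - R) * η ^ 6 < (v - R) * G v ^ 6 := by gcongr
  linarith

end Pool.Agent.H638.KP
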