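import Pool.Agent.H638.KP.Defs

set_option autoImplicit false

open MeasureTheory Set Filter Topology Metric
open scoped Pointwise RealInnerProductSpace ENNReal

namespace Pool.Agent.H638.KP

open Pool.Agent.H638.IB (E secVol IB)

namespace SSBaux

theorem U_pos (v : ℝ) : 0 < U v := by
  unfold U
  exact inv_pos.2 (Real.sqrt_pos.2 (Real.cosh_pos v))

theorem G_pos {G : ℝ → ℝ} (hG : Cl G) (v : ℝ) : 0 < G v := by
  obtain ⟨c, C, hc, h⟩ := hG.bd
  exact lt_of_lt_of_le (mul_pos hc (U_pos v)) (h v).1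

theorem rho_pos {G : ℝ → ℝ} {g : ℝ} (hG : Cl G) (hg : 0 < g) (z : E 6) : 0 < rho G g z := by
  unfold rho
  split_ifs
  · positivity
  · have := G_pos hG (Real.log (QQ z / PP z))
    have := U_pos (Real.log (QQ z / PP z))
    positivity

theorem meas {G : ℝ → ℝ} (g : ℝ) (hG : Cl G) : MeasurableSet (SS G g) := by
  have hGm : Measurable G := hG.cont.measurable
  unfold SS
  refine measurableSet_setOf.2 ?_
  refine Measurable.and ?_ ?_
  · refine Measurable.imp (measurableSet_setOf.1 (measurableSet_lt measurable_const measurable_fst)) ?_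
    refine Measurable.imp (measurableSet_setOf.1 (measurableSet_lt measurable_const measurable_snd)) ?_
    refine measurableSet_setOf.1 (measurableSet_le ?_ ?_)
    · exact (measurable_fst.mul measurable_snd).sqrt
    · exact (hGm.comp ((Real.measurable_log.comp (measurable_snd.div measurable_fst)).div_const
        2)).pow_const 2
  · refine Measurable.imp ?_ ?_
    · exact Measurable.or
        (measurableSet_setOf.1 (measurableSet_eq_fun measurable_fst measurable_const))
        (measurableSet_setOf.1 (measurableSet_eq_fun measurable_snd measurable_const))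
    · exact measurableSet_setOf.1 (measurableSet_le (measurable_fst.add measurable_snd)
        measurable_const)

theorem rho_smul (hPQ : S_PQ) (G : ℝ → ℝ) (g : ℝ) (z : E 6) (r : ℝ) (hr : 0 < r) :
    rho G g (r • z) = rho G g z := by
  obtain ⟨-, -, -, -, h, -, -⟩ := hPQ
  unfold rho
  rw [(h r z).1, (h r z).2, abs_of_pos hr]
  have h1 : (r * PP z = 0 ∨ r * QQ z = 0) ↔ (PP z = 0 ∨ QQ z = 0) := by
    simp [hr.ne']
  have h2 : r * QQ z / (r * PP z) = QQ z / PP z := mul_div_mul_left _ _ hr.ne'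
  rw [h2]
  simp only [h1]

theorem mem_body (hPQ : S_PQ) {G : ℝ → ℝ} {g : ℝ} (z : E 6) (hz : z ≠ 0) :
    z ∈ body (rho G g) ↔ ‖z‖ ≤ rho G g z := by
  have hn : 0 < ‖z‖ := norm_pos_iff.2 hz
  constructor
  · rintro ⟨u, hu, r, hr0, hr, rfl⟩
    have hr1 : 0 < r := by
      rcases hr0.eq_or_lt with h | h
      · exact absurd (by rw [← h, zero_smul]) hz
      · exact h
    rw [rho_smul hPQ G g u r hr1, norm_smul, hu, mul_one, Real.norm_eq_abs, abs_of_pos hr1]
    exact hr
  · intro h
    refine ⟨‖z‖⁻¹ • z, ?_, ‖z‖, hn.le, ?_, ?_⟩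
    · rw [norm_smul, norm_inv, norm_norm, inv_mul_cancel₀ hn.ne']
    · rw [rho_smul hPQ G g z _ (inv_pos.2 hn)]
      exact h
    · rw [smul_smul, mul_inv_cancel₀ hn.ne', one_smul]

theorem zero_mem (hPQ : S_PQ) {G : ℝ → ℝ} {g : ℝ} (hG : Cl G) (hg : 0 < g) :
    (0 : E 6) ∈ body (rho G g) := by
  refine ⟨pt 1 0, ?_, 0, le_rfl, (rho_pos hG hg _).le, by rw [zero_smul]⟩
  obtain ⟨-, -, -, h, -, h2, -⟩ := hPQ
  have h3 := h (pt 1 0)
  rw [(h2 1 0).1, (h2 1 0).2] at h3
  norm_num at h3
  rcases h3 with h3 | h3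
  · exact h3
  · linarith [norm_nonneg (pt 1 0)]

end SSBaux

open SSBaux in
theorem SSB_ok (hPQ : S_PQ) (_hUF : S_UF) : S_SSB := by
  intro G g hG hg
  refine ⟨meas g hG, fun z => ?_⟩
  have hPQ' := hPQ
  obtain ⟨-, -, hnn, hnorm, hsm, -, -⟩ := hPQ'
  have hP0 := (hnn z).1
  have hQ0 := (hnn z).2
  by_cases hz : z = 0
  · subst hz
    refine ⟨fun _ => ?_, fun _ => zero_mem hPQ hG hg⟩
    have h0 : PP (0 : E 6) = 0 ∧ QQ (0 : E 6) = 0 := by
      have := hsm 0 0
      simpa using this
    rw [h0.1, h0.2]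
    refine ⟨fun h => absurd h (by norm_num), fun _ => ?_⟩
    simp only
    nlinarith [sq_nonneg g]
  rw [mem_body hPQ z hz]
  have hn : 0 < ‖z‖ := norm_pos_iff.2 hz
  by_cases h0 : PP z = 0 ∨ QQ z = 0
  · have hr : rho G g z = √2 * g := by unfold rho; rw [if_pos h0]
    rw [hr, ← abs_of_pos hn, ← abs_of_pos (show 0 < √2 * g by positivity), ← sq_le_sq, hnorm z,
      mul_pow, Real.sq_sqrt (by norm_num)]
    constructor
    · intro h
      refine ⟨fun h1 h2 => ?_, fun _ => h⟩
      simp only at h1 h2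
      rcases h0 with h0 | h0
      · rw [h0] at h1; norm_num at h1
      · rw [h0] at h2; norm_num at h2
    · intro h
      exact h.2 (by
        rcases h0 with h0 | h0
        · left; simp only; rw [h0]; norm_num
        · right; simp only; rw [h0]; norm_num)
  · have hP : 0 < PP z := lt_of_le_of_ne hP0 (fun h => h0 (Or.inl h.symm))
    have hQ : 0 < QQ z := lt_of_le_of_ne hQ0 (fun h => h0 (Or.inr h.symm))
    have hr : rho G g z = √2 * (G (Real.log (QQ z / PP z)) / U (Real.log (QQ z / PP z))) := by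
      unfold rho; rw [if_neg h0]
    set v := Real.log (QQ z / PP z) with hv
    have hGv := G_pos hG v
    have hUv := U_pos v
    have hcosh : Real.cosh v = ‖z‖ ^ 2 / (2 * (PP z * QQ z)) := by
      rw [Real.cosh_eq, Real.exp_neg, hv, Real.exp_log (div_pos hQ hP), hnorm z]
      field_simp
      ring
    have hU2 : (U v)⁻¹ ^ 2 = ‖z‖ ^ 2 / (2 * (PP z * QQ z)) := by
      rw [← hcosh]
      unfold U
      rw [inv_inv, Real.sq_sqrt (Real.cosh_pos v).le]
    have hlog : Real.log (QQ z ^ 2 / PP z ^ 2) / 2 = v := by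
      rw [← div_pow, Real.log_pow, hv]
      push_cast
      ring
    have hsq : √(PP z ^ 2 * QQ z ^ 2) = PP z * QQ z := by
      rw [← mul_pow, Real.sqrt_sq (mul_pos hP hQ).le]
    have key : ‖z‖ ≤ rho G g z ↔ PP z * QQ z ≤ G v ^ 2 := by
      rw [hr]
      have hpos : 0 < √2 * (G v / U v) := by positivity
      have h1 : (√2 * (G v / U v)) ^ 2 = G v ^ 2 * (‖z‖ ^ 2 / (PP z * QQ z)) := by
        rw [div_eq_mul_inv, mul_pow, mul_pow, hU2, Real.sq_sqrt (by norm_num)]
        field_simp
      rw [← sq_le_sq₀ hn.le hpos.le, h1]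
      have hPQp : 0 < PP z * QQ z := mul_pos hP hQ
      have hn2 : 0 < ‖z‖ ^ 2 := by positivity
      rw [mul_div_assoc', le_div_iff₀ hPQp, mul_comm (‖z‖ ^ 2), mul_le_mul_iff_left₀ hn2]
    rw [key]
    constructor
    · intro h
      refine ⟨fun _ _ => ?_, fun h1 => ?_⟩
      · simp only
        rw [hlog, hsq]
        exact h
      · exfalso
        simp only at h1
        rcases h1 with h1 | h1
        · exact (pow_pos hP 2).ne' h1
        · exact (pow_pos hQ 2).ne' h1
    · intro h
      have h2 := h.1 (pow_pos hP 2) (pow_pos hQ 2)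
      simp only at h2
      rw [hlog, hsq] at h2
      exact h2

end Pool.Agent.H638.KP

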