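import Pool.Agent.H638.KP.Defs

set_option autoImplicit false

open MeasureTheory Set Filter Topology Metric
open scoped ENNReal

namespace Pool.Agent.H638.KP

namespace SUBaux

lemma Gpos (h1 : S_UF) {G : ℝ → ℝ} (hG : Cl G) : ∀ v, 0 < G v := by
  obtain ⟨c, C, hc, h⟩ := hG.bd
  exact fun v => lt_of_lt_of_le (mul_pos hc (h1.2.2.1 v).1) (h v).1

/-- substitution `y = x exp (2 v)`. -/
lemma subst {x : ℝ} (hx : 0 < x) (g : ℝ → ℝ≥0∞) :
    ∫⁻ y in Ioi (0 : ℝ), g y =
      ∫⁻ v : ℝ, ENNReal.ofReal (2 * x * Real.exp (2 * v)) * g (x * Real.exp (2 * v)) := by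
  have himg : (fun v : ℝ => x * Real.exp (2 * v)) '' univ = Ioi (0 : ℝ) := by
    ext y
    simp only [image_univ, mem_range, mem_Ioi]
    constructor
    · rintro ⟨v, rfl⟩
      positivity
    · intro hy
      refine ⟨Real.log (y / x) / 2, ?_⟩
      have h1 : 2 * (Real.log (y / x) / 2) = Real.log (y / x) := by ring
      rw [h1, Real.exp_log (div_pos hy hx)]
      field_simp
  rw [← himg, lintegral_image_eq_lintegral_abs_deriv_mul (f' := fun v => 2 * x * Real.exp (2 * v))
    MeasurableSet.univ]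
  · rw [Measure.restrict_univ]
    apply lintegral_congr
    intro v
    rw [abs_of_pos (by positivity : 0 < 2 * x * Real.exp (2 * v))]
  · intro v _
    have h : HasDerivAt (fun v : ℝ => x * Real.exp (2 * v)) (2 * x * Real.exp (2 * v)) v := by
      have h2 : HasDerivAt (fun v : ℝ => Real.exp (2 * v)) (Real.exp (2 * v) * 2) v := by
        have h3 : HasDerivAt (fun v : ℝ => 2 * v) 2 v := by
          simpa using (hasDerivAt_id v).const_mul (2 : ℝ)
        exact h3.exp
      have h4 := h2.const_mul x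
      have h5 : x * (Real.exp (2 * v) * 2) = 2 * x * Real.exp (2 * v) := by ring
      rw [h5] at h4
      exact h4
    exact h.hasDerivWithinAt
  · intro v _ w _ hvw
    have h : Real.exp (2 * v) = Real.exp (2 * w) := mul_left_cancel₀ hx.ne' hvw
    have := Real.exp_injective h
    linarith

lemma int_pow {w : ℝ} (hw : 0 < w) :
    ∫⁻ x in Ioc (0 : ℝ) (w ^ 2), ENNReal.ofReal (x ^ (3 / 2 : ℝ)) =
      ENNReal.ofReal (2 / 5 * w ^ 5) := by
  have hA : (0 : ℝ) ≤ w ^ 2 := by positivity
  have hi : IntervalIntegrable (fun x : ℝ => x ^ (3 / 2 : ℝ)) volume 0 (w ^ 2) :=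
    intervalIntegral.intervalIntegrable_rpow' (by norm_num)
  have hi' : IntegrableOn (fun x : ℝ => x ^ (3 / 2 : ℝ)) (Ioc 0 (w ^ 2)) :=
    (intervalIntegrable_iff_integrableOn_Ioc_of_le hA).1 hi
  rw [← ofReal_integral_eq_lintegral_ofReal hi']
  · congr 1
    rw [← intervalIntegral.integral_of_le hA, integral_rpow (Or.inl (by norm_num))]
    have h1 : (w ^ 2) ^ ((3 : ℝ) / 2 + 1) = w ^ 5 := by
      rw [← Real.rpow_natCast w 2, ← Real.rpow_mul hw.le, ← Real.rpow_natCast w 5]
      congr 1
      norm_num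
    rw [h1, Real.zero_rpow (by norm_num)]
    ring
  · refine (ae_restrict_iff' measurableSet_Ioc).2 (Eventually.of_forall (fun x hx => ?_))
    exact Real.rpow_nonneg hx.1.le _

end SUBaux

theorem SUB_ok (h1 : S_UF) : S_SUB := by
  intro G g hG a b ha hb hab
  have hpos := SUBaux.Gpos h1 hG
  have hmax : ∀ v : ℝ, 0 < max b (a * Real.exp (-v)) := by
    intro v
    rcases ha.eq_or_lt with h | h
    · have : 0 < b := by
        rcases hb.eq_or_lt with h' | h'
        · rw [← h, ← h'] at hab; norm_num at hab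
        · exact h'
      exact lt_max_of_lt_left this
    · exact lt_max_of_lt_right (mul_pos h (Real.exp_pos _))
  -- the inner integral after the substitution
  have inner : ∀ x : ℝ, 0 < x →
      ∫⁻ y in Ioi (0 : ℝ), (SS G g).indicator (fun _ => (1 : ℝ≥0∞)) (x, y) *
        ENNReal.ofReal (2 / max (b / √x) (a / √y)) =
      ∫⁻ v : ℝ, {p : ℝ × ℝ | p.1 ≤ (G p.2 * Real.exp (-(p.2 / 2))) ^ 2}.indicator
        (fun p => ENNReal.ofReal (4 * Real.exp (2 * p.2) / max b (a * Real.exp (-p.2))) *
          ENNReal.ofReal (p.1 ^ (3 / 2 : ℝ))) (x, v) := by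
    intro x hx
    rw [SUBaux.subst hx]
    apply lintegral_congr
    intro v
    have hy : 0 < x * Real.exp (2 * v) := by positivity
    have hlog : Real.log (x * Real.exp (2 * v) / x) / 2 = v := by
      rw [mul_div_cancel_left₀ _ hx.ne', Real.log_exp]
      ring
    have hsq : √(x * (x * Real.exp (2 * v))) = x * Real.exp v := by
      rw [show x * (x * Real.exp (2 * v)) = (x * Real.exp v) ^ 2 by
        rw [mul_pow, ← Real.exp_nat_mul]; push_cast; ring]
      exact Real.sqrt_sq (by positivity)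
    have hsqy : √(x * Real.exp (2 * v)) = √x * Real.exp v := by
      rw [Real.sqrt_mul hx.le]
      congr 1
      rw [show Real.exp (2 * v) = (Real.exp v) ^ 2 by rw [← Real.exp_nat_mul]; norm_num]
      exact Real.sqrt_sq (Real.exp_pos v).le
    have hmem : ((x, x * Real.exp (2 * v)) ∈ SS G g) ↔
        x ≤ (G v * Real.exp (-(v / 2))) ^ 2 := by
      have e1 : (G v * Real.exp (-(v / 2))) ^ 2 = G v ^ 2 * Real.exp (-v) := by
        rw [mul_pow, ← Real.exp_nat_mul]
        congr 2
        push_cast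
        ring
      have e2 : Real.exp v * Real.exp (-v) = 1 := by rw [← Real.exp_add]; simp
      unfold SS
      simp only [Set.mem_ofPred_eq]
      rw [hlog, hsq, e1]
      constructor
      · rintro ⟨h, -⟩
        have := mul_le_mul_of_nonneg_right (h hx hy) (Real.exp_pos (-v)).le
        calc x = x * Real.exp v * Real.exp (-v) := by rw [mul_assoc, e2, mul_one]
          _ ≤ _ := this
      · intro h
        refine ⟨fun _ _ => ?_, fun h' => ?_⟩
        · have := mul_le_mul_of_nonneg_right h (Real.exp_pos v).le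
          calc x * Real.exp v ≤ G v ^ 2 * Real.exp (-v) * Real.exp v := this
            _ = G v ^ 2 := by rw [mul_assoc, mul_comm (Real.exp (-v)), e2, mul_one]
        · rcases h' with h' | h'
          · exact absurd h' hx.ne'
          · exact absurd h' hy.ne'
    have hm : max (b / √x) (a / (√x * Real.exp v)) = max b (a * Real.exp (-v)) / √x := by
      have hsx : 0 < √x := Real.sqrt_pos.2 hx
      rw [show a / (√x * Real.exp v) = a * Real.exp (-v) / √x by
        rw [Real.exp_neg]; field_simp]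
      exact (max_div_div_right hsx.le b (a * Real.exp (-v)))
    rw [hsqy, hm]
    by_cases h : x ≤ (G v * Real.exp (-(v / 2))) ^ 2
    · rw [indicator_of_mem (hmem.2 h), indicator_of_mem
        (show ((x, v) : ℝ × ℝ) ∈ {p : ℝ × ℝ | p.1 ≤ (G p.2 * Real.exp (-(p.2 / 2))) ^ 2} from h),
        one_mul, ← ENNReal.ofReal_mul (by positivity), ← ENNReal.ofReal_mul
          (div_nonneg (by positivity) (hmax v).le)]
      congr 1
      have h3 : x ^ (3 / 2 : ℝ) = x * √x := by
        rw [show (3 / 2 : ℝ) = 1 + 1 / 2 by norm_num, Real.rpow_add hx, Real.rpow_one,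
          Real.sqrt_eq_rpow]
      rw [h3]
      have hm0 := (hmax v).ne'
      have hsx : √x ≠ 0 := (Real.sqrt_pos.2 hx).ne'
      show 2 * x * Real.exp (2 * v) * (2 / (max b (a * Real.exp (-v)) / √x)) =
        4 * Real.exp (2 * v) / max b (a * Real.exp (-v)) * (x * √x)
      field_simp
      ring
    · rw [indicator_of_notMem (fun h' => h (hmem.1 h')), indicator_of_notMem
        (show ((x, v) : ℝ × ℝ) ∉ {p : ℝ × ℝ | p.1 ≤ (G p.2 * Real.exp (-(p.2 / 2))) ^ 2} from h),
        zero_mul, mul_zero]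
  rw [setLIntegral_congr_fun measurableSet_Ioi (fun x hx => inner x hx)]
  rw [lintegral_lintegral_swap]
  · apply lintegral_congr
    intro v
    have hw : 0 < G v * Real.exp (-(v / 2)) := mul_pos (hpos v) (Real.exp_pos _)
    have e : ∀ x : ℝ, {p : ℝ × ℝ | p.1 ≤ (G p.2 * Real.exp (-(p.2 / 2))) ^ 2}.indicator
        (fun p => ENNReal.ofReal (4 * Real.exp (2 * p.2) / max b (a * Real.exp (-p.2))) *
          ENNReal.ofReal (p.1 ^ (3 / 2 : ℝ))) (x, v) =
        (Iic ((G v * Real.exp (-(v / 2))) ^ 2)).indicator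
          (fun x => ENNReal.ofReal (4 * Real.exp (2 * v) / max b (a * Real.exp (-v))) *
            ENNReal.ofReal (x ^ (3 / 2 : ℝ))) x := by
      intro x
      by_cases h : x ≤ (G v * Real.exp (-(v / 2))) ^ 2
      · rw [indicator_of_mem (show ((x, v) : ℝ × ℝ) ∈
          {p : ℝ × ℝ | p.1 ≤ (G p.2 * Real.exp (-(p.2 / 2))) ^ 2} from h),
          indicator_of_mem (show x ∈ Iic ((G v * Real.exp (-(v / 2))) ^ 2) from h)]
      · rw [indicator_of_notMem (show ((x, v) : ℝ × ℝ) ∉
          {p : ℝ × ℝ | p.1 ≤ (G p.2 * Real.exp (-(p.2 / 2))) ^ 2} from h),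
          indicator_of_notMem (show x ∉ Iic ((G v * Real.exp (-(v / 2))) ^ 2) from h)]
    rw [lintegral_congr e, lintegral_indicator measurableSet_Iic, Measure.restrict_restrict
      measurableSet_Iic, Iic_inter_Ioi, lintegral_const_mul _ (by fun_prop), SUBaux.int_pow hw,
      ← ENNReal.ofReal_mul (div_nonneg (by positivity) (hmax v).le)]
    congr 1
    have hm0 := (hmax v).ne'
    have e3 : Real.exp (2 * v) * (G v * Real.exp (-(v / 2))) ^ 5 =
        G v ^ 5 * Real.exp (-(v / 2)) := by
      rw [mul_pow, ← Real.exp_nat_mul]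
      have : Real.exp (2 * v) * Real.exp ((5 : ℕ) * -(v / 2)) = Real.exp (-(v / 2)) := by
        rw [← Real.exp_add]
        congr 1
        push_cast
        ring
      calc Real.exp (2 * v) * (G v ^ 5 * Real.exp ((5 : ℕ) * -(v / 2)))
          = G v ^ 5 * (Real.exp (2 * v) * Real.exp ((5 : ℕ) * -(v / 2))) := by ring
        _ = _ := by rw [this]
    have e4 : 4 * Real.exp (2 * v) / max b (a * Real.exp (-v)) *
        (2 / 5 * (G v * Real.exp (-(v / 2))) ^ 5) =
        8 / 5 * (Real.exp (2 * v) * (G v * Real.exp (-(v / 2))) ^ 5) /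
          max b (a * Real.exp (-v)) := by
      ring
    rw [e4, e3]
    ring
  · have hc := hG.cont
    have m1 : Measurable (fun p : ℝ × ℝ =>
        ENNReal.ofReal (4 * Real.exp (2 * p.2) / max b (a * Real.exp (-p.2)))) := by
      apply ENNReal.measurable_ofReal.comp
      exact Measurable.div (by fun_prop) (by fun_prop)
    have m2 : Measurable (fun p : ℝ × ℝ => ENNReal.ofReal (p.1 ^ (3 / 2 : ℝ))) := by
      fun_prop
    have m3 : MeasurableSet {p : ℝ × ℝ | p.1 ≤ (G p.2 * Real.exp (-(p.2 / 2))) ^ 2} :=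
      measurableSet_le (by fun_prop) (by fun_prop)
    exact ((m1.mul m2).indicator m3).aemeasurable

end Pool.Agent.H638.KP
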