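import Pool.Agent.H638.KP.Defs

set_option autoImplicit false

open MeasureTheory Set Filter Topology Metric

namespace Pool.Agent.H638.KP

namespace TCaux

lemma bd_abs (h1 : S_UF) {G : ℝ → ℝ} (hG : Cl G) :
    (∀ v, 0 < G v) ∧ ∃ C : ℝ, ∀ v, |G v| ≤ C * U v := by
  obtain ⟨c, C, hc, h⟩ := hG.bd
  have hpos : ∀ v, 0 < G v := fun v =>
    lt_of_lt_of_le (mul_pos hc (h1.2.2.1 v).1) (h v).1
  refine ⟨hpos, C, fun v => ?_⟩
  rw [abs_of_pos (hpos v)]
  exact (h v).2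

lemma cont (h1 : S_UF) (h2 : S_UI) {G : ℝ → ℝ} (hG : Cl G) : Continuous (T G) := by
  obtain ⟨hpos, hbd⟩ := bd_abs h1 hG
  have hI := (h2 G hG.cont hbd)
  unfold T
  apply Continuous.mul continuous_const
  apply continuous_of_dominated (bound := fun s => G s ^ 5)
  · intro v
    exact (hI.1 v).aestronglyMeasurable
  · intro v
    refine Eventually.of_forall (fun s => ?_)
    rw [Real.norm_of_nonneg (mul_pos (Real.exp_pos _) (pow_pos (hpos s) 5)).le]
    have : Real.exp (-(|v - s| / 2)) ≤ 1 := by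
      rw [Real.exp_le_one_iff]
      have := abs_nonneg (v - s)
      linarith
    nlinarith [pow_pos (hpos s) 5]
  · exact hI.2.2.2.2
  · refine Eventually.of_forall (fun s => ?_)
    fun_prop

lemma even {G : ℝ → ℝ} (hG : Cl G) (v : ℝ) : T G (-v) = T G v := by
  unfold T
  congr 1
  rw [← integral_neg_eq_self (fun s : ℝ => Real.exp (-(|v - s| / 2)) * G s ^ 5)]
  apply integral_congr_ae
  refine Eventually.of_forall (fun s => ?_)
  show Real.exp (-(|-v - s| / 2)) * G s ^ 5 = Real.exp (-(|v - -s| / 2)) * G (-s) ^ 5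
  rw [hG.even, show -v - s = -(v - -s) by ring, abs_neg]

end TCaux

theorem TC_ok (h1 : S_UF) (h2 : S_UI) (h3 : S_TU) (h4 : S_TM) : S_TC := by
  intro G hG
  obtain ⟨hpos, hbd⟩ := TCaux.bd_abs h1 hG
  have hUc : Continuous U := h1.1
  have hU0 : ∀ v, 0 < U v := fun v => (h1.2.2.1 v).1
  have key : ∀ c C : ℝ, 0 ≤ c → (∀ v, c * U v ≤ G v ∧ G v ≤ C * U v) →
      ∀ v, c ^ 5 * U v ≤ T G v ∧ T G v ≤ C ^ 5 * U v := by
    intro c C hc h v
    constructor
    · have a1 := (h4.1 (fun v => c * U v) G (continuous_const.mul hUc) hG.cont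
        ⟨C, fun v => ⟨mul_nonneg hc (hU0 v).le, (h v).1, (h v).2⟩⟩).1 v
      rw [(h4.2 c U).1, h3] at a1
      exact a1
    · have a1 := (h4.1 G (fun v => C * U v) hG.cont (continuous_const.mul hUc)
        ⟨C, fun v => ⟨(hpos v).le, (h v).2, le_refl _⟩⟩).1 v
      rw [(h4.2 C U).1, h3] at a1
      exact a1
  refine ⟨⟨TCaux.cont h1 h2 hG, TCaux.even hG, ?_⟩, key⟩
  obtain ⟨c, C, hc, h⟩ := hG.bd
  exact ⟨c ^ 5, C ^ 5, pow_pos hc 5, key c C hc.le h⟩

end Pool.Agent.H638.KP
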