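import Pool.Agent.H638.KP.Defs

set_option autoImplicit false

open MeasureTheory Set Filter Topology Metric

namespace Pool.Agent.H638.KP

namespace TLaux

lemma bd_abs (h1 : S_UF) {G : ℝ → ℝ} (hG : Cl G) :
    (∀ v, 0 < G v) ∧ ∃ C : ℝ, ∀ v, |G v| ≤ C * U v := by
  obtain ⟨c, C, hc, h⟩ := hG.bd
  have hpos : ∀ v, 0 < G v := fun v =>
    lt_of_lt_of_le (mul_pos hc (h1.2.2.1 v).1) (h v).1
  refine ⟨hpos, C, fun v => ?_⟩
  rw [abs_of_pos (hpos v)]
  exact (h v).2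

end TLaux

theorem TL_ok (h1 : S_UF) (h2 : S_UI) : S_TL := by
  intro G hG v v'
  obtain ⟨hpos, hbd⟩ := TLaux.bd_abs h1 hG
  have hI := (h2 G hG.cont hbd).1
  unfold T
  have key : ∫ s : ℝ, Real.exp (-(|v - s| / 2)) * G s ^ 5 ≤
      ∫ s : ℝ, Real.exp (|v - v'| / 2) * (Real.exp (-(|v' - s| / 2)) * G s ^ 5) := by
    apply integral_mono (hI v) ((hI v').const_mul _)
    intro s
    show Real.exp (-(|v - s| / 2)) * G s ^ 5 ≤
      Real.exp (|v - v'| / 2) * (Real.exp (-(|v' - s| / 2)) * G s ^ 5)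
    rw [← mul_assoc, ← Real.exp_add]
    apply mul_le_mul_of_nonneg_right _ (pow_pos (hpos s) 5).le
    apply Real.exp_le_exp.2
    have h3 : |v' - s| ≤ |v' - v| + |v - s| := abs_sub_le v' v s
    rw [abs_sub_comm v' v] at h3
    linarith
  rw [integral_const_mul] at key
  nlinarith [key]

end Pool.Agent.H638.KP
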