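import Pool.Agent.H638.KP.Defs

/-! Task TM of the project KP: monotonicity and homogeneity of `T`. -/

set_option autoImplicit false

open MeasureTheory Set Filter Topology Metric
open scoped Pointwise RealInnerProductSpace ENNReal

namespace Pool.Agent.H638.KP

open Pool.Agent.H638.IB (E secVol IB)

theorem TM_ok (h1 : S_UI) : S_TM := by
  refine ⟨?_, ?_⟩
  · rintro G H hG hH ⟨C, hC⟩
    obtain ⟨g1, g2, -, -, -⟩ := h1 G hG ⟨C, fun v => by
      rw [abs_of_nonneg (hC v).1]; exact (hC v).2.1.trans (hC v).2.2⟩
    obtain ⟨k1, k2, -, -, -⟩ := h1 H hH ⟨C, fun v => by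
      rw [abs_of_nonneg ((hC v).1.trans (hC v).2.1)]; exact (hC v).2.2⟩
    refine ⟨fun v => ?_, ?_⟩
    · unfold T
      apply mul_le_mul_of_nonneg_left _ (by norm_num)
      apply integral_mono (g1 v) (k1 v)
      intro s
      exact mul_le_mul_of_nonneg_left (pow_le_pow_left₀ (hC s).1 (hC s).2.1 5) (Real.exp_pos _).le
    · unfold Ti
      apply mul_le_mul_of_nonneg_left _ (by positivity)
      apply integral_mono g2 k2
      intro s
      exact mul_le_mul_of_nonneg_left (pow_le_pow_left₀ (hC s).1 (hC s).2.1 5) (Real.cosh_pos _).le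
  · intro l G
    refine ⟨?_, ?_⟩
    · funext v
      unfold T
      have : (fun s : ℝ => Real.exp (-(|v - s| / 2)) * (l * G s) ^ 5) =
          fun s => l ^ 5 * (Real.exp (-(|v - s| / 2)) * G s ^ 5) := by
        funext s; ring
      rw [this, integral_const_mul]
      ring
    · unfold Ti
      have : (fun s : ℝ => Real.cosh (s / 2) * (l * G s) ^ 5) =
          fun s => l ^ 5 * (Real.cosh (s / 2) * G s ^ 5) := by
        funext s; ring
      rw [this, integral_const_mul]
      ring

end Pool.Agent.H638.KP
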