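import Pool.Agent.H638.KP.Defs

set_option autoImplicit false

open MeasureTheory Set Filter Topology Metric
open scoped Pointwise RealInnerProductSpace ENNReal

namespace Pool.Agent.H638.KP

open Pool.Agent.H638.IB (E secVol IB)

namespace TMOaux

/-- the symmetrized kernel -/
noncomputable def K (v s : ℝ) : ℝ := Real.exp (-(|v - s| / 2)) + Real.exp (-(|v - -s| / 2))

lemma K_pos (v s : ℝ) : 0 < K v s := by unfold K; positivity

lemma K_le {v t : ℝ} (hv : 0 ≤ v) (h : v ≤ t) :
    K v t = 2 * Real.exp (-(t / 2)) * Real.cosh (v / 2) := by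
  unfold K
  rw [abs_of_nonpos (by linarith : v - t ≤ 0), abs_of_nonneg (by linarith : 0 ≤ v - -t),
    Real.cosh_eq]
  have e1 : Real.exp (-(-(v - t) / 2)) = Real.exp (-(t / 2)) * Real.exp (v / 2) := by
    rw [← Real.exp_add]; congr 1; ring
  have e2 : Real.exp (-((v - -t) / 2)) = Real.exp (-(t / 2)) * Real.exp (-(v / 2)) := by
    rw [← Real.exp_add]; congr 1; ring
  rw [e1, e2]
  ring

lemma K_ge {v t : ℝ} (ht : 0 ≤ t) (h : t ≤ v) :
    K v t = 2 * Real.exp (-(v / 2)) * Real.cosh (t / 2) := by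
  unfold K
  rw [abs_of_nonneg (by linarith : 0 ≤ v - t), abs_of_nonneg (by linarith : 0 ≤ v - -t),
    Real.cosh_eq]
  have e1 : Real.exp (-((v - t) / 2)) = Real.exp (-(v / 2)) * Real.exp (t / 2) := by
    rw [← Real.exp_add]; congr 1; ring
  have e2 : Real.exp (-((v - -t) / 2)) = Real.exp (-(v / 2)) * Real.exp (-(t / 2)) := by
    rw [← Real.exp_add]; congr 1; ring
  rw [e1, e2]
  ring

lemma C_mono {x y : ℝ} (hx : 0 ≤ x) (h : x ≤ y) : Real.cosh (x / 2) ≤ Real.cosh (y / 2) := by
  rw [Real.cosh_le_cosh, abs_of_nonneg (by linarith), abs_of_nonneg (by linarith)]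
  linarith

lemma AC {x y : ℝ} (hx : 0 ≤ x) (h : x ≤ y) :
    Real.exp (-(y / 2)) * Real.cosh (x / 2) ≤ Real.exp (-(x / 2)) * Real.cosh (y / 2) := by
  have h1 : Real.exp (-(y / 2)) ≤ Real.exp (-(x / 2)) := by
    apply Real.exp_le_exp.mpr; linarith
  exact mul_le_mul h1 (C_mono hx h) (Real.cosh_pos _).le (Real.exp_pos _).le

lemma TP {v v' t t' : ℝ} (hv : 0 ≤ v) (hvv : v ≤ v') (ht : 0 ≤ t) (htt : t ≤ t') :
    K v' t * K v t' ≤ K v t * K v' t' := by
  have pe : ∀ x : ℝ, 0 < Real.exp x := Real.exp_pos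
  have pc : ∀ x : ℝ, 0 < Real.cosh x := Real.cosh_pos
  rcases le_total v' t with h1 | h1
  · rw [K_le (by linarith) h1, K_le hv (by linarith : v ≤ t'), K_le hv (by linarith : v ≤ t),
      K_le (by linarith) (by linarith : v' ≤ t')]
    apply le_of_eq; ring
  rcases le_total t' v with h2 | h2
  · rw [K_ge ht h1, K_ge (by linarith) h2, K_ge ht (by linarith : t ≤ v),
      K_ge (by linarith) (by linarith : t' ≤ v')]
    apply le_of_eq; ring
  rcases le_total v t with h3 | h3
  · rcases le_total v' t' with h4 | h4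
    · rw [K_ge ht h1, K_le hv h2, K_le hv h3, K_le (by linarith) h4]
      have := mul_le_mul_of_nonneg_left (AC ht h1)
        (by positivity : (0:ℝ) ≤ 4 * (Real.exp (-(t' / 2)) * Real.cosh (v / 2)))
      linarith
    · rw [K_ge ht h1, K_le hv h2, K_le hv h3, K_ge (by linarith) h4]
      have := mul_le_mul_of_nonneg_left (AC ht htt)
        (by positivity : (0:ℝ) ≤ 4 * (Real.exp (-(v' / 2)) * Real.cosh (v / 2)))
      linarith
  · rcases le_total v' t' with h4 | h4
    · rw [K_ge ht h1, K_le hv h2, K_ge ht h3, K_le (by linarith) h4]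
      have := mul_le_mul_of_nonneg_left (AC hv hvv)
        (by positivity : (0:ℝ) ≤ 4 * (Real.exp (-(t' / 2)) * Real.cosh (t / 2)))
      linarith
    · rw [K_ge ht h1, K_le hv h2, K_ge ht h3, K_ge (by linarith) h4]
      have := mul_le_mul_of_nonneg_left (AC hv h2)
        (by positivity : (0:ℝ) ≤ 4 * (Real.exp (-(v' / 2)) * Real.cosh (t / 2)))
      linarith

lemma K_cont (v : ℝ) : Continuous (K v) := by
  unfold K
  fun_prop

lemma K_abs (v s : ℝ) : K v |s| = K v s := by
  rcases abs_choice s with h | h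
  · rw [h]
  · rw [h]; unfold K; rw [neg_neg, add_comm]

end TMOaux

open TMOaux in
theorem TMO_ok (hUF : S_UF) (hUI : S_UI) (hTU : S_TU) : S_TMO := by
  intro G hG hmono v v' hv hvv
  obtain ⟨hUc, hUe, hUp, -, -, hUl, hUa, -⟩ := hUF
  obtain ⟨c0, C0, hc0, hbd⟩ := hG.bd
  have hGpos : ∀ s, 0 < G s := fun s => (mul_pos hc0 (hUp s).1).trans_le (hbd s).1
  have iG := (hUI G hG.cont ⟨C0, fun s => by rw [abs_of_pos (hGpos s)]; exact (hbd s).2⟩).1
  have iU := (hUI U hUc ⟨1, fun s => by rw [abs_of_pos (hUp s).1, one_mul]⟩).1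
  have hpow : ∀ (F : ℝ → ℝ), (∀ s, F (-s) = F s) → ∀ w : ℝ,
      (∫ s : ℝ, Real.exp (-(|w - -s| / 2)) * F s ^ 5) = ∫ s : ℝ, Real.exp (-(|w - s| / 2)) * F s ^ 5 := by
    intro F hF w
    have := integral_neg_eq_self (fun s : ℝ => Real.exp (-(|w - s| / 2)) * F s ^ 5) volume
    rw [← this]
    apply integral_congr_ae
    exact Eventually.of_forall fun s => by simp only [hF]
  have ineg : ∀ (F : ℝ → ℝ), (∀ s, F (-s) = F s) → ∀ w : ℝ,
      Integrable (fun s : ℝ => Real.exp (-(|w - s| / 2)) * F s ^ 5) →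
      Integrable (fun s : ℝ => Real.exp (-(|w - -s| / 2)) * F s ^ 5) := by
    intro F hF w hi
    have := hi.comp_neg
    refine this.congr (Eventually.of_forall fun s => ?_)
    simp only [hF]
  -- symmetrized integrals
  have iK : ∀ (F : ℝ → ℝ), (∀ s, F (-s) = F s) → ∀ w : ℝ,
      Integrable (fun s : ℝ => Real.exp (-(|w - s| / 2)) * F s ^ 5) →
      Integrable (fun s : ℝ => K w s * F s ^ 5) ∧
      (∫ s : ℝ, K w s * F s ^ 5) = 2 * ∫ s : ℝ, Real.exp (-(|w - s| / 2)) * F s ^ 5 := by
    intro F hF w hi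
    have e : (fun s : ℝ => K w s * F s ^ 5) = fun s : ℝ => Real.exp (-(|w - s| / 2)) * F s ^ 5 +
        Real.exp (-(|w - -s| / 2)) * F s ^ 5 := by
      funext s; unfold K; ring
    rw [e]
    refine ⟨hi.add (ineg F hF w hi), ?_⟩
    rw [integral_add hi (ineg F hF w hi), hpow F hF w]
    ring
  have a1 := iK G hG.even v (iG v)
  have a2 := iK G hG.even v' (iG v')
  have b1 := iK U hUe v (iU v)
  have b2 := iK U hUe v' (iU v')
  have hU1 : (∫ s : ℝ, K v s * U s ^ 5) = 8 / 3 * U v := by
    have h1 : T U v = U v := congrFun hTU v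
    unfold T at h1
    rw [b1.2]
    linarith
  have hU2 : (∫ s : ℝ, K v' s * U s ^ 5) = 8 / 3 * U v' := by
    have h1 : T U v' = U v' := congrFun hTU v'
    unfold T at h1
    rw [b2.2]
    linarith
  -- the crossing point
  obtain ⟨s0, hs0, hs0e⟩ : ∃ s0 ∈ Icc v v', U v * K v' s0 - U v' * K v s0 = 0 := by
    have hcont : ContinuousOn (fun s => U v * K v' s - U v' * K v s) (Icc v v') :=
      ((continuous_const.mul (K_cont v')).sub (continuous_const.mul (K_cont v))).continuousOn
    have h1 : U v * K v' v - U v' * K v v ≤ 0 := by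
      rw [K_ge hv hvv, K_ge hv le_rfl]
      have h2 := hUl v v'
      rw [abs_of_nonpos (by linarith : v - v' ≤ 0)] at h2
      have h3 := mul_le_mul_of_nonneg_right h2 (Real.exp_pos (-(v' / 2))).le
      have h4 : Real.exp (-(v - v') / 2) * U v' * Real.exp (-(v' / 2)) =
          U v' * Real.exp (-(v / 2)) := by
        rw [mul_comm (Real.exp (-(v - v') / 2)), mul_assoc, ← Real.exp_add]
        congr 2; ring
      rw [h4] at h3
      have h5 := mul_le_mul_of_nonneg_right h3
        (by positivity : (0:ℝ) ≤ 2 * Real.cosh (v / 2))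
      linarith
    have h2 : 0 ≤ U v * K v' v' - U v' * K v v' := by
      rw [K_ge (by linarith) le_rfl, K_le hv hvv]
      have h3 : U v' ≤ U v := hUa hv (show (0:ℝ) ≤ v' by linarith) hvv
      have h4 : U v' * Real.cosh (v / 2) ≤ U v * Real.cosh (v' / 2) :=
        mul_le_mul h3 (C_mono hv hvv) (Real.cosh_pos _).le (hUp v).1.le
      have h5 := mul_le_mul_of_nonneg_right h4
        (by positivity : (0:ℝ) ≤ 2 * Real.exp (-(v' / 2)))
      linarith
    obtain ⟨s0, hs0, he⟩ := intermediate_value_Icc hvv hcont ⟨h1, h2⟩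
    exact ⟨s0, hs0, he⟩
  have hs00 : 0 ≤ s0 := hv.trans hs0.1
  obtain ⟨c, hc⟩ : ∃ c : ℝ, c = (G s0 / U s0) ^ 5 := ⟨_, rfl⟩
  have hGa : ∀ s, G |s| = G s := by
    intro s
    rcases abs_choice s with h | h
    · rw [h]
    · rw [h, hG.even]
  have hUab : ∀ s, U |s| = U s := by
    intro s
    rcases abs_choice s with h | h
    · rw [h]
    · rw [h, hUe]
  have hpt : ∀ s : ℝ, 0 ≤ (U v * K v' s - U v' * K v s) * (G s ^ 5 - c * U s ^ 5) := by
    intro s
    have hr : c * U s ^ 5 = (G s0 * U s / U s0) ^ 5 := by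
      rw [hc, ← mul_pow]; congr 1; ring
    rcases le_total |s| s0 with h | h
    · have h1 : K v' s * K v s0 ≤ K v s * K v' s0 := by
        have := TP (v := v) (v' := v') (t := |s|) (t' := s0) hv hvv (abs_nonneg s) h
        rwa [K_abs, K_abs] at this
      have h2 : U v * K v' s - U v' * K v s ≤ 0 := by
        have h3 : (U v * K v' s) * K v s0 ≤ (U v' * K v s) * K v s0 := by
          calc (U v * K v' s) * K v s0 = U v * (K v' s * K v s0) := by ring
            _ ≤ U v * (K v s * K v' s0) := mul_le_mul_of_nonneg_left h1 (hUp v).1.le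
            _ = K v s * (U v * K v' s0) := by ring
            _ = K v s * (U v' * K v s0) := by rw [sub_eq_zero.mp hs0e]
            _ = (U v' * K v s) * K v s0 := by ring
        have := le_of_mul_le_mul_right h3 (K_pos v s0)
        linarith
      have h4 : G s ^ 5 - c * U s ^ 5 ≤ 0 := by
        have h5 := hmono |s| s0 (abs_nonneg s) h
        rw [hGa, hUab] at h5
        have h6 : G s ≤ G s0 * U s / U s0 := by
          rw [le_div_iff₀ (hUp s0).1]; exact h5
        have h7 : G s ^ 5 ≤ (G s0 * U s / U s0) ^ 5 := pow_le_pow_left₀ (hGpos s).le h6 5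
        rw [hr]; linarith
      exact mul_nonneg_of_nonpos_of_nonpos h2 h4
    · have h1 : K v' s0 * K v s ≤ K v s0 * K v' s := by
        have := TP (v := v) (v' := v') (t := s0) (t' := |s|) hv hvv hs00 h
        rwa [K_abs, K_abs] at this
      have h2 : 0 ≤ U v * K v' s - U v' * K v s := by
        have h3 : (U v' * K v s) * K v s0 ≤ (U v * K v' s) * K v s0 := by
          calc (U v' * K v s) * K v s0 = K v s * (U v' * K v s0) := by ring
            _ = K v s * (U v * K v' s0) := by rw [sub_eq_zero.mp hs0e]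
            _ = U v * (K v' s0 * K v s) := by ring
            _ ≤ U v * (K v s0 * K v' s) := mul_le_mul_of_nonneg_left h1 (hUp v).1.le
            _ = (U v * K v' s) * K v s0 := by ring
        have := le_of_mul_le_mul_right h3 (K_pos v s0)
        linarith
      have h4 : 0 ≤ G s ^ 5 - c * U s ^ 5 := by
        have h5 := hmono s0 |s| hs00 h
        rw [hGa, hUab] at h5
        have h6 : G s0 * U s / U s0 ≤ G s := by
          rw [div_le_iff₀ (hUp s0).1]; exact h5
        have h7 : (G s0 * U s / U s0) ^ 5 ≤ G s ^ 5 :=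
          pow_le_pow_left₀ (by
            have := hGpos s0
            have := (hUp s).1
            have := (hUp s0).1
            positivity) h6 5
        rw [hr]; linarith
      exact mul_nonneg h2 h4
  have hint : 0 ≤ ∫ s : ℝ, (U v * K v' s - U v' * K v s) * (G s ^ 5 - c * U s ^ 5) :=
    integral_nonneg hpt
  have e : (fun s : ℝ => (U v * K v' s - U v' * K v s) * (G s ^ 5 - c * U s ^ 5)) =
      fun s : ℝ => ((U v * (K v' s * G s ^ 5) - U v' * (K v s * G s ^ 5)) -
        ((c * U v) * (K v' s * U s ^ 5) - (c * U v') * (K v s * U s ^ 5))) := by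
    funext s; ring
  have iA : Integrable (fun s : ℝ => U v * (K v' s * G s ^ 5) - U v' * (K v s * G s ^ 5)) :=
    (a2.1.const_mul _).sub (a1.1.const_mul _)
  have iB : Integrable
      (fun s : ℝ => (c * U v) * (K v' s * U s ^ 5) - (c * U v') * (K v s * U s ^ 5)) :=
    (b2.1.const_mul _).sub (b1.1.const_mul _)
  rw [e, integral_sub iA iB,
    integral_sub (a2.1.const_mul _) (a1.1.const_mul _),
    integral_sub (b2.1.const_mul _) (b1.1.const_mul _),
    integral_const_mul, integral_const_mul, integral_const_mul, integral_const_mul,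
    hU1, hU2, a1.2, a2.2] at hint
  unfold T
  linarith

end Pool.Agent.H638.KP
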