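import Pool.Agent.H638.KP.Defs

/-! Task TU of the project KP: the profile of the ball is a fixed point of `T`. -/

set_option autoImplicit false

open MeasureTheory Set Filter Topology Metric
open scoped Pointwise RealInnerProductSpace ENNReal

namespace Pool.Agent.H638.KP

open Pool.Agent.H638.IB (E secVol IB)

namespace TUaux

lemma U_pos (v : ℝ) : 0 < U v := by
  unfold U
  have := Real.cosh_pos v
  positivity

lemma U_sq (v : ℝ) : U v ^ 2 * Real.cosh v = 1 := by
  unfold U
  have h := Real.cosh_pos v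
  rw [inv_pow, Real.sq_sqrt h.le]
  field_simp

lemma U_deriv (v : ℝ) : HasDerivAt U (-(1 / 2) * Real.sinh v * U v ^ 3) v := by
  have h := Real.cosh_pos v
  have h1 : HasDerivAt (fun v => √(Real.cosh v)) (Real.sinh v / (2 * √(Real.cosh v))) v :=
    (Real.hasDerivAt_cosh v).sqrt h.ne'
  have h2 := h1.inv (Real.sqrt_pos.2 h).ne'
  have h3 : -(Real.sinh v / (2 * √(Real.cosh v))) / √(Real.cosh v) ^ 2 =
      -(1 / 2) * Real.sinh v * U v ^ 3 := by
    unfold U
    have : √(Real.cosh v) ≠ 0 := (Real.sqrt_pos.2 h).ne'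
    field_simp
  rw [h3] at h2
  exact h2

lemma phi_deriv (c s : ℝ) : HasDerivAt (fun s => c * (Real.exp (3 * s / 2) * U s ^ 3 / 2))
    (c * (3 / 4 * (Real.exp (s / 2) * U s ^ 5))) s := by
  have h1 : HasDerivAt (fun s : ℝ => Real.exp (3 * s / 2)) (Real.exp (3 * s / 2) * (3 / 2)) s := by
    have h0 : HasDerivAt (fun s : ℝ => 3 * s / 2) (3 / 2) s := by
      have := ((hasDerivAt_id s).const_mul 3).div_const 2
      simpa using this
    exact h0.exp
  have h2 := (U_deriv s).pow 3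
  have h3 := ((h1.mul h2).div_const 2).const_mul c
  refine HasDerivAt.congr_deriv (f := fun s => c * (Real.exp (3 * s / 2) * U s ^ 3 / 2)) h3 ?_
  have h4 := U_sq s
  have h5 : Real.exp (3 * s / 2) = Real.exp (s / 2) * Real.exp s := by
    rw [← Real.exp_add]; congr 1; ring
  have h6 : Real.exp s = Real.cosh s + Real.sinh s := (Real.cosh_add_sinh s).symm
  have h7 : Real.cosh s ^ 2 - Real.sinh s ^ 2 = 1 := Real.cosh_sq_sub_sinh_sq s
  rw [h5, h6]
  simp only [Nat.cast_ofNat, Nat.add_one_sub_one, Pi.pow_apply]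
  -- U^5 = U^3 (cosh+sinh) - (cosh+sinh) sinh U^5
  have h8 : U s ^ 5 * (1 + (Real.cosh s + Real.sinh s) * Real.sinh s) =
      (Real.cosh s + Real.sinh s) * U s ^ 3 := by
    have e1 : (Real.cosh s + Real.sinh s) * U s ^ 3 =
      (Real.cosh s + Real.sinh s) * U s ^ 3 * (U s ^ 2 * Real.cosh s) := by rw [h4, mul_one]
    rw [e1]
    linear_combination (-U s ^ 5) * h7
  linear_combination (-(3 / 4) * c * Real.exp (s / 2)) * h8

lemma psi_deriv (c s : ℝ) : HasDerivAt (fun s => c * (-(Real.exp (-(3 * s / 2)) * U s ^ 3 / 2)))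
    (c * (3 / 4 * (Real.exp (-(s / 2)) * U s ^ 5))) s := by
  have h1 : HasDerivAt (fun s : ℝ => Real.exp (-(3 * s / 2)))
      (Real.exp (-(3 * s / 2)) * (-(3 / 2))) s := by
    have h0 : HasDerivAt (fun s : ℝ => -(3 * s / 2)) (-(3 / 2)) s := by
      have := (((hasDerivAt_id s).const_mul 3).div_const 2).neg
      exact this.congr_deriv (by ring)
    exact h0.exp
  have h2 := (U_deriv s).pow 3
  have h3 := (((h1.mul h2).div_const 2).neg).const_mul c
  refine HasDerivAt.congr_deriv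
    (f := fun s => c * (-(Real.exp (-(3 * s / 2)) * U s ^ 3 / 2))) h3 ?_
  have h4 := U_sq s
  have h5 : Real.exp (-(3 * s / 2)) = Real.exp (-(s / 2)) * Real.exp (-s) := by
    rw [← Real.exp_add]; congr 1; ring
  have h6 : Real.exp (-s) = Real.cosh s - Real.sinh s := (Real.cosh_sub_sinh s).symm
  have h7 : Real.cosh s ^ 2 - Real.sinh s ^ 2 = 1 := Real.cosh_sq_sub_sinh_sq s
  rw [h5, h6]
  simp only [Nat.cast_ofNat, Nat.add_one_sub_one, Pi.pow_apply]
  have h8 : U s ^ 5 * (1 - (Real.cosh s - Real.sinh s) * Real.sinh s) =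
      (Real.cosh s - Real.sinh s) * U s ^ 3 := by
    have e1 : (Real.cosh s - Real.sinh s) * U s ^ 3 =
      (Real.cosh s - Real.sinh s) * U s ^ 3 * (U s ^ 2 * Real.cosh s) := by rw [h4, mul_one]
    rw [e1]
    linear_combination (-U s ^ 5) * h7
  linear_combination (-(3 / 4) * c * Real.exp (-(s / 2))) * h8

lemma phi_lim (c : ℝ) (hU : ∀ v, U v ≤ 1) :
    Tendsto (fun s => c * (Real.exp (3 * s / 2) * U s ^ 3 / 2)) atBot (𝓝 0) := by
  have h1 : Tendsto (fun s : ℝ => Real.exp (3 * s / 2)) atBot (𝓝 0) := by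
    apply Real.tendsto_exp_atBot.comp
    have : (fun s : ℝ => 3 * s / 2) = fun s => (3 / 2) * s := by funext s; ring
    rw [this]
    exact tendsto_id.const_mul_atBot (by norm_num)
  have h2 : Tendsto (fun s => Real.exp (3 * s / 2) * U s ^ 3 / 2) atBot (𝓝 0) := by
    apply squeeze_zero (g := fun s : ℝ => Real.exp (3 * s / 2))
    · intro s
      have := U_pos s
      positivity
    · intro s
      have h3 : U s ^ 3 ≤ 1 := pow_le_one₀ (U_pos s).le (hU s)
      have h4 := Real.exp_pos (3 * s / 2)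
      nlinarith [pow_pos (U_pos s) 3]
    · exact h1
  simpa using h2.const_mul c

lemma psi_lim (c : ℝ) (hU : ∀ v, U v ≤ 1) :
    Tendsto (fun s => c * (-(Real.exp (-(3 * s / 2)) * U s ^ 3 / 2))) atTop (𝓝 0) := by
  have h1 : Tendsto (fun s : ℝ => Real.exp (-(3 * s / 2))) atTop (𝓝 0) := by
    apply Real.tendsto_exp_atBot.comp
    have : (fun s : ℝ => -(3 * s / 2)) = fun s => (-(3 / 2)) * s := by funext s; ring
    rw [this]
    exact tendsto_id.const_mul_atTop_of_neg (by norm_num)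
  have h2 : Tendsto (fun s => Real.exp (-(3 * s / 2)) * U s ^ 3 / 2) atTop (𝓝 0) := by
    apply squeeze_zero (g := fun s : ℝ => Real.exp (-(3 * s / 2)))
    · intro s
      have := U_pos s
      positivity
    · intro s
      have h3 : U s ^ 3 ≤ 1 := pow_le_one₀ (U_pos s).le (hU s)
      have h4 := Real.exp_pos (-(3 * s / 2))
      nlinarith [pow_pos (U_pos s) 3]
    · exact h1
  simpa using (h2.neg).const_mul c

end TUaux

open TUaux in
theorem TU_ok (h1 : S_UF) (h2 : S_UI) : S_TU := by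
  obtain ⟨hc, -, hb, -⟩ := h1
  have hU : ∀ v, U v ≤ 1 := fun v => (hb v).2
  obtain ⟨k1, -⟩ := h2 U hc ⟨1, fun v => by rw [abs_of_pos (U_pos v), one_mul]⟩
  unfold S_TU
  funext v
  have hint := k1 v
  have hT : T U v = 3 / 4 * ((∫ s in Iic v, Real.exp (-(|v - s| / 2)) * U s ^ 5) +
      ∫ s in Ioi v, Real.exp (-(|v - s| / 2)) * U s ^ 5) := by
    unfold T
    rw [intervalIntegral.integral_Iic_add_Ioi hint.integrableOn hint.integrableOn]
  have e1 : ∀ s ∈ Iic v, 3 / 4 * (Real.exp (-(|v - s| / 2)) * U s ^ 5) =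
      Real.exp (-(v / 2)) * (3 / 4 * (Real.exp (s / 2) * U s ^ 5)) := by
    intro s hs
    rw [mem_Iic] at hs
    rw [abs_of_nonneg (by linarith)]
    have : Real.exp (-((v - s) / 2)) = Real.exp (-(v / 2)) * Real.exp (s / 2) := by
      rw [← Real.exp_add]; congr 1; ring
    rw [this]; ring
  have e2 : ∀ s ∈ Ioi v, 3 / 4 * (Real.exp (-(|v - s| / 2)) * U s ^ 5) =
      Real.exp (v / 2) * (3 / 4 * (Real.exp (-(s / 2)) * U s ^ 5)) := by
    intro s hs
    rw [mem_Ioi] at hs
    rw [abs_of_nonpos (by linarith)]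
    have : Real.exp (-(-(v - s) / 2)) = Real.exp (v / 2) * Real.exp (-(s / 2)) := by
      rw [← Real.exp_add]; congr 1; ring
    rw [this]; ring
  have i1 : IntegrableOn (fun s => Real.exp (-(v / 2)) * (3 / 4 * (Real.exp (s / 2) * U s ^ 5)))
      (Iic v) := by
    apply (hint.const_mul (3 / 4)).integrableOn.congr_fun e1 measurableSet_Iic
  have i2 : IntegrableOn (fun s => Real.exp (v / 2) * (3 / 4 * (Real.exp (-(s / 2)) * U s ^ 5)))
      (Ioi v) := by
    apply (hint.const_mul (3 / 4)).integrableOn.congr_fun e2 measurableSet_Ioi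
  have j1 := integral_Iic_of_hasDerivAt_of_tendsto' (a := v)
    (fun s _ => phi_deriv (Real.exp (-(v / 2))) s) i1 (phi_lim _ hU)
  have j2 := integral_Ioi_of_hasDerivAt_of_tendsto' (a := v)
    (fun s _ => psi_deriv (Real.exp (v / 2)) s) i2 (psi_lim _ hU)
  rw [hT, mul_add, ← integral_const_mul, ← integral_const_mul,
    setIntegral_congr_fun measurableSet_Iic e1, setIntegral_congr_fun measurableSet_Ioi e2, j1, j2]
  have f1 : Real.exp (-(v / 2)) * Real.exp (3 * v / 2) = Real.exp v := by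
    rw [← Real.exp_add]; congr 1; ring
  have f2 : Real.exp (v / 2) * Real.exp (-(3 * v / 2)) = Real.exp (-v) := by
    rw [← Real.exp_add]; congr 1; ring
  have f3 : Real.exp v + Real.exp (-v) = 2 * Real.cosh v := by
    rw [Real.cosh_eq]; ring
  calc Real.exp (-(v / 2)) * (Real.exp (3 * v / 2) * U v ^ 3 / 2) - 0 +
        (0 - Real.exp (v / 2) * -(Real.exp (-(3 * v / 2)) * U v ^ 3 / 2))
      = (Real.exp (-(v / 2)) * Real.exp (3 * v / 2) + Real.exp (v / 2) * Real.exp (-(3 * v / 2))) *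
        U v ^ 3 / 2 := by ring
    _ = U v * (U v ^ 2 * Real.cosh v) := by rw [f1, f2, f3]; ring
    _ = U v := by rw [U_sq, mul_one]

end Pool.Agent.H638.KP
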