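import Pool.Agent.H638.KP.Defs

set_option autoImplicit false

open MeasureTheory Set Filter Topology Metric
open scoped Pointwise RealInnerProductSpace ENNReal

namespace Pool.Agent.H638.KP

open Pool.Agent.H638.IB (E secVol IB)

namespace TUNaux

/-- The increasing part. -/
noncomputable def A (G : ℝ → ℝ) (v : ℝ) : ℝ := ∫ s in Iic v, Real.exp (s / 2) * G s ^ 5

/-- The decreasing part. -/
noncomputable def Q (G : ℝ → ℝ) (v : ℝ) : ℝ := ∫ s in Ioi v, Real.exp (-(s / 2)) * G s ^ 5

theorem exp_int (v w : ℝ) : ∫ s in v..w, Real.exp (-(s / 2)) =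
    2 * (Real.exp (-(v / 2)) - Real.exp (-(w / 2))) := by
  have h : ∀ x ∈ uIcc v w, HasDerivAt (fun s => -2 * Real.exp (-(s / 2)))
      (Real.exp (-(x / 2))) x := by
    intro x _
    have h1 : HasDerivAt (fun s : ℝ => -(s / 2)) (-(1 / 2)) x :=
      ((hasDerivAt_id x).div_const 2).neg
    exact ((h1.exp).const_mul (-2)).congr_deriv (by ring)
  rw [intervalIntegral.integral_eq_sub_of_hasDerivAt h
    ((by fun_prop : Continuous fun s : ℝ => Real.exp (-(s / 2))).intervalIntegrable _ _)]
  ring

theorem exp_intI (v : ℝ) : ∫ s in Ioi v, Real.exp (-(s / 2)) = 2 * Real.exp (-(v / 2)) := by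
  have h := integral_exp_mul_Ioi (a := -(1/2)) (by norm_num) v
  have e : (fun s : ℝ => Real.exp (-(s / 2))) = fun s : ℝ => Real.exp (-(1/2) * s) := by
    funext s; congr 1; ring
  rw [e, h]
  have : -(1/2) * v = -(v/2) := by ring
  rw [this]; ring

theorem exp_intgI (v : ℝ) : IntegrableOn (fun s => Real.exp (-(s / 2))) (Ioi v) := by
  have h := integrableOn_exp_mul_Ioi (a := -(1/2)) (by norm_num) v
  have e : (fun s : ℝ => Real.exp (-(s / 2))) = fun s : ℝ => Real.exp (-(1/2) * s) := by
    funext s; congr 1; ring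
  rw [e]; exact h

end TUNaux

open TUNaux in
theorem TUN_ok (hUF : S_UF) (hUI : S_UI) (hTC : S_TC) : S_TUN := by
  intro G hG ⟨R, hR0, hmono, hanti⟩
  obtain ⟨c, C, hc, hb⟩ := hG.bd
  have hU := hUF.2.2.1
  have hGpos : ∀ v, 0 < G v := fun v => lt_of_lt_of_le (mul_pos hc (hU v).1) (hb v).1
  have hbd : ∃ C : ℝ, ∀ v, |G v| ≤ C * U v := ⟨C, fun v => by
    rw [abs_of_pos (hGpos v)]; exact (hb v).2⟩
  obtain ⟨i1, i2, i3, -, -⟩ := hUI G hG.cont hbd
  have hcont := hG.cont
  have ia : Integrable (fun s => Real.exp (s / 2) * G s ^ 5) := i3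
  have ib : Integrable (fun s => Real.exp (-(s / 2)) * G s ^ 5) := by
    have h := (i2.const_mul 2).sub i3
    refine h.congr (Eventually.of_forall fun s => ?_)
    simp only [Pi.sub_apply]
    rw [Real.cosh_eq]; ring_nf
  have ca : Continuous (fun s => Real.exp (s / 2) * G s ^ 5) := by fun_prop
  have cb : Continuous (fun s => Real.exp (-(s / 2)) * G s ^ 5) := by fun_prop
  -- derivatives
  have dA : ∀ v, HasDerivAt (A G) (Real.exp (v / 2) * G v ^ 5) v := by
    intro v
    have h1 : A G = fun w => (∫ s in (0:ℝ)..w, Real.exp (s / 2) * G s ^ 5) + A G 0 := by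
      funext w
      have := intervalIntegral.integral_Iic_sub_Iic (a := 0) (b := w) (μ := volume)
        ia.integrableOn ia.integrableOn
      simp only [A]; rw [← this]; ring
    rw [h1]
    exact (intervalIntegral.integral_hasDerivAt_right (ca.intervalIntegrable _ _)
      (ca.stronglyMeasurableAtFilter _ _) ca.continuousAt).add_const _
  have hQeq : ∀ v w, Q G v - Q G w = ∫ s in v..w, Real.exp (-(s / 2)) * G s ^ 5 := by
    intro v w
    have e1 : ∀ v, Q G v = (∫ s, Real.exp (-(s / 2)) * G s ^ 5) -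
        ∫ s in Iic v, Real.exp (-(s / 2)) * G s ^ 5 := by
      intro v
      have := intervalIntegral.integral_Iic_add_Ioi (b := v) (μ := volume)
        ib.integrableOn ib.integrableOn
      simp only [Q]; rw [← this]; ring
    rw [e1 v, e1 w, ← intervalIntegral.integral_Iic_sub_Iic ib.integrableOn ib.integrableOn]
    ring
  have dQ : ∀ v, HasDerivAt (Q G) (-(Real.exp (-(v / 2)) * G v ^ 5)) v := by
    intro v
    have h1 : Q G = fun w => Q G 0 - (∫ s in (0:ℝ)..w, Real.exp (-(s / 2)) * G s ^ 5) := by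
      funext w
      rw [← hQeq 0 w]; ring
    rw [h1]
    exact (intervalIntegral.integral_hasDerivAt_right (cb.intervalIntegrable _ _)
      (cb.stronglyMeasurableAtFilter _ _) cb.continuousAt).const_sub _
  have hT : ∀ v, T G v = 3 / 4 * (Real.exp (-(v / 2)) * A G v + Real.exp (v / 2) * Q G v) := by
    intro v
    simp only [T]
    congr 1
    rw [← intervalIntegral.integral_Iic_add_Ioi (b := v) (i1 v).integrableOn
      (i1 v).integrableOn]
    simp only [A, Q]
    rw [← integral_const_mul, ← integral_const_mul]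
    congr 1
    · refine setIntegral_congr_fun measurableSet_Iic fun s hs => ?_
      have hs' : s ≤ v := hs
      rw [abs_of_nonneg (by linarith), ← mul_assoc, ← Real.exp_add]
      congr 2; ring
    · refine setIntegral_congr_fun measurableSet_Ioi fun s hs => ?_
      have hs' : v < s := hs
      rw [abs_of_neg (by linarith), ← mul_assoc, ← Real.exp_add]
      congr 2; ring
  have de1 : ∀ v : ℝ, HasDerivAt (fun v => Real.exp (v / 2)) (Real.exp (v / 2) * (1 / 2)) v :=
    fun v => ((hasDerivAt_id v).div_const 2).exp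
  have de2 : ∀ v : ℝ, HasDerivAt (fun v => Real.exp (-(v / 2)))
      (Real.exp (-(v / 2)) * (-(1 / 2))) v :=
    fun v => (((hasDerivAt_id v).div_const 2).neg).exp
  have ee : ∀ v : ℝ, Real.exp (-(v / 2)) * Real.exp (v / 2) = 1 := by
    intro v; rw [← Real.exp_add]; simp
  have dT : ∀ v, HasDerivAt (T G) (3 / 8 * Real.exp (-(v / 2)) *
      (Real.exp v * Q G v - A G v)) v := by
    intro v
    have h1 : T G = fun v => 3 / 4 * (Real.exp (-(v / 2)) * A G v + Real.exp (v / 2) * Q G v) :=
      funext hT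
    rw [h1]
    refine ((((de2 v).mul (dA v)).add ((de1 v).mul (dQ v))).const_mul (3 / 4)).congr_deriv ?_
    have e1 := ee v
    have e2 : Real.exp v = Real.exp (v / 2) * Real.exp (v / 2) := by
      rw [← Real.exp_add]; congr 1; ring
    rw [e2]
    linear_combination (-(3 / 8) * (Real.exp (v/2)) * Q G v) * e1
  -- the function N
  set N : ℝ → ℝ := fun v => Real.exp v * Q G v - A G v with hN
  have N0 : N 0 = 0 := by
    simp only [hN, A, Q, Real.exp_zero, one_mul]
    have h := integral_comp_neg_Iic (0:ℝ) (fun s => Real.exp (-(s / 2)) * G s ^ 5)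
    rw [neg_zero] at h
    rw [← h]
    rw [sub_eq_zero]
    refine setIntegral_congr_fun measurableSet_Iic fun s _ => ?_
    rw [hG.even]; congr 2; ring
  set Ef : ℝ → ℝ := fun v => Q G v - 2 * Real.exp (-(v / 2)) * G v ^ 5 with hEf
  have dN : ∀ v, HasDerivAt N (Real.exp v * Ef v) v := by
    intro v
    refine (((Real.hasDerivAt_exp v).mul (dQ v)).sub (dA v)).congr_deriv ?_
    have e2 : Real.exp v = Real.exp (v / 2) * Real.exp (v / 2) := by
      rw [← Real.exp_add]; congr 1; ring
    simp only [hEf]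
    have e1 := ee v
    rw [e2]
    linear_combination (Real.exp (v/2) * G v ^ 5) * e1
  have hE1 : ∀ v w, 0 ≤ v → v ≤ w → w ≤ R → Ef w ≤ Ef v := by
    intro v w h0 hvw hwR
    have h1 := hQeq v w
    have h2 : G v ^ 5 * ∫ s in v..w, Real.exp (-(s / 2)) ≤
        ∫ s in v..w, Real.exp (-(s / 2)) * G s ^ 5 := by
      rw [← intervalIntegral.integral_const_mul]
      refine intervalIntegral.integral_mono_on hvw
        (Continuous.intervalIntegrable (by fun_prop) _ _) (cb.intervalIntegrable _ _) ?_
      intro s hs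
      have : G v ≤ G s := hmono ⟨h0, by linarith⟩ ⟨by linarith [hs.1], by linarith [hs.2]⟩ hs.1
      have h5 : G v ^ 5 ≤ G s ^ 5 := pow_le_pow_left₀ (hGpos v).le this 5
      rw [mul_comm]
      exact mul_le_mul_of_nonneg_left h5 (Real.exp_pos _).le
    rw [exp_int] at h2
    have h3 : G v ^ 5 ≤ G w ^ 5 :=
      pow_le_pow_left₀ (hGpos v).le (hmono ⟨h0, by linarith⟩ ⟨by linarith, hwR⟩ hvw) 5
    have h4 : Real.exp (-(w / 2)) * G v ^ 5 ≤ Real.exp (-(w / 2)) * G w ^ 5 :=
      mul_le_mul_of_nonneg_left h3 (Real.exp_pos _).le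
    simp only [hEf]
    nlinarith [h1, h2, h4]
  have hE2 : ∀ v, R ≤ v → Ef v ≤ 0 := by
    intro v hv
    have h2 : Q G v ≤ ∫ s in Ioi v, Real.exp (-(s / 2)) * G v ^ 5 := by
      simp only [Q]
      refine setIntegral_mono_on ib.integrableOn ((exp_intgI v).mul_const _)
        measurableSet_Ioi ?_
      intro s hs
      have hs' : v < s := hs
      have : G s ≤ G v := hanti hv (le_trans hv hs'.le : R ≤ s) hs'.le
      exact mul_le_mul_of_nonneg_left (pow_le_pow_left₀ (hGpos s).le this 5)
        (Real.exp_pos _).le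
    rw [integral_mul_const, exp_intI] at h2
    simp only [hEf]
    linarith
  -- N stays negative
  have hup : ∀ v w, 0 ≤ v → v ≤ w → N v < 0 → N w < 0 := by
    intro v w h0 hvw hv
    have h0' : 0 < v := by
      rcases h0.eq_or_lt with h | h
      · rw [← h, N0] at hv; exact absurd hv (lt_irrefl _)
      · exact h
    obtain ⟨x, hx, hx2⟩ := exists_hasDerivAt_eq_slope N (fun v => Real.exp v * Ef v) h0'
      (fun x _ => (dN x).continuousAt.continuousWithinAt) (fun x _ => dN x)
    have hneg : Real.exp x * Ef x < 0 := by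
      rw [hx2, N0]
      exact div_neg_of_neg_of_pos (by linarith) (by linarith)
    have hEx : Ef x < 0 := by
      by_contra h
      push Not at h
      exact absurd hneg (not_lt.mpr (mul_nonneg (Real.exp_pos _).le h))
    have hEy : ∀ y, x ≤ y → Ef y ≤ 0 := by
      intro y hy
      rcases le_total R y with h | h
      · exact hE2 y h
      · exact le_trans (hE1 x y hx.1.le hy h) hEx.le
    have hant : AntitoneOn N (Ici x) := by
      refine antitoneOn_of_deriv_nonpos (convex_Ici x)
        (fun y _ => (dN y).continuousAt.continuousWithinAt)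
        (fun y _ => (dN y).differentiableAt.differentiableWithinAt) ?_
      intro y hy
      rw [interior_Ici] at hy
      rw [(dN y).deriv]
      exact mul_nonpos_of_nonneg_of_nonpos (Real.exp_pos _).le (hEy y (le_of_lt hy))
    exact lt_of_le_of_lt (hant (hx.2.le : x ≤ v) (le_trans hx.2.le hvw : x ≤ w) hvw) hv
  -- the set is nonempty
  have hTG := hTC G hG
  obtain ⟨c', C', hc', hb'⟩ := hTG.1.bd
  have hT0 : 0 < T G 0 := lt_of_lt_of_le (mul_pos hc' (hU 0).1) (hb' 0).1
  have hne : ∃ v, 0 ≤ v ∧ N v < 0 := by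
    by_contra hcon
    push Not at hcon
    have hm : MonotoneOn (T G) (Ici 0) := by
      refine monotoneOn_of_deriv_nonneg (convex_Ici 0)
        (fun y _ => (dT y).continuousAt.continuousWithinAt)
        (fun y _ => (dT y).differentiableAt.differentiableWithinAt) ?_
      intro y hy
      rw [interior_Ici] at hy
      rw [(dT y).deriv]
      exact mul_nonneg (mul_nonneg (by norm_num) (Real.exp_pos _).le) (hcon y (le_of_lt hy))
    have ht : Tendsto (fun v : ℝ => C' * (√2 * Real.exp (-(v / 2)))) atTop (𝓝 (C' * (√2 * 0))) := by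
      refine Tendsto.const_mul _ (Tendsto.const_mul _ ?_)
      refine Real.tendsto_exp_neg_atTop_nhds_zero.comp ?_
      exact tendsto_id.atTop_div_const (by norm_num)
    rw [mul_zero, mul_zero] at ht
    have hev := (ht.eventually (gt_mem_nhds hT0)).and (eventually_ge_atTop (0:ℝ))
    obtain ⟨v, hv1, hv2⟩ := hev.exists
    have h1 : T G 0 ≤ T G v := hm (le_refl (0:ℝ)) hv2 hv2
    have h2 := (hb' v).2
    have h3 := (hUF.2.2.2.2.1 v).2
    rw [abs_of_nonneg hv2] at h3
    have hC' : 0 ≤ C' := by
      have h := (hb' 0).2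
      by_contra hh
      push Not at hh
      have := mul_neg_of_neg_of_pos hh (hU 0).1
      linarith
    have h4 := mul_le_mul_of_nonneg_left h3 hC'
    linarith
  -- the mode
  set S : Set ℝ := {v | 0 ≤ v ∧ N v < 0} with hS
  have hSne : S.Nonempty := hne
  have hSbdd : BddBelow S := ⟨0, fun v hv => hv.1⟩
  set z := sInf S with hz
  have hz0 : 0 ≤ z := le_csInf hSne fun v hv => hv.1
  refine ⟨z, hz0, ?_, ?_⟩
  · refine monotoneOn_of_deriv_nonneg (convex_Icc 0 z)
      (fun y _ => (dT y).continuousAt.continuousWithinAt)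
      (fun y _ => (dT y).differentiableAt.differentiableWithinAt) ?_
    intro y hy
    rw [interior_Icc] at hy
    rw [(dT y).deriv]
    refine mul_nonneg (mul_nonneg (by norm_num) (Real.exp_pos _).le) ?_
    by_contra hh
    push Not at hh
    exact absurd (csInf_le hSbdd (⟨hy.1.le, hh⟩ : y ∈ S)) (not_le.mpr hy.2)
  · refine antitoneOn_of_deriv_nonpos (convex_Ici z)
      (fun y _ => (dT y).continuousAt.continuousWithinAt)
      (fun y _ => (dT y).differentiableAt.differentiableWithinAt) ?_
    intro y hy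
    rw [interior_Ici] at hy
    have hy' : z < y := hy
    rw [(dT y).deriv]
    obtain ⟨w, hw, hwy⟩ := exists_lt_of_csInf_lt hSne hy'
    have := hup w y hw.1 hwy.le hw.2
    exact mul_nonpos_of_nonneg_of_nonpos (mul_nonneg (by norm_num) (Real.exp_pos _).le) this.le

end Pool.Agent.H638.KP
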