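import Pool.Agent.H638.KP.Defs

set_option autoImplicit false

open MeasureTheory Set Filter Topology Metric
open scoped Pointwise RealInnerProductSpace ENNReal

namespace Pool.Agent.H638.KP

namespace UFaux

theorem cosh_le (v : ℝ) : Real.cosh v ≤ Real.exp |v| := by
  rw [← Real.cosh_abs, Real.cosh_eq]
  have h1 : Real.exp (-|v|) ≤ Real.exp |v| := by
    apply Real.exp_le_exp.2
    have := abs_nonneg v
    linarith
  linarith

theorem le_cosh (v : ℝ) : Real.exp |v| / 2 ≤ Real.cosh v := by
  rw [← Real.cosh_abs, Real.cosh_eq]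
  have := Real.exp_pos (-|v|)
  linarith

theorem sqrt_exp (x : ℝ) : √(Real.exp x) = Real.exp (x / 2) := by
  rw [Real.sqrt_eq_iff_mul_self_eq (Real.exp_pos _).le (Real.exp_pos _).le, ← Real.exp_add]
  congr 1
  ring

theorem sqrt_pos (v : ℝ) : 0 < √(Real.cosh v) := Real.sqrt_pos.2 (Real.cosh_pos v)

theorem U_pos (v : ℝ) : 0 < U v := inv_pos.2 (sqrt_pos v)

theorem cosh_lip (v v' : ℝ) : Real.cosh v' ≤ Real.exp |v - v'| * Real.cosh v := by
  rw [Real.cosh_eq, Real.cosh_eq]
  have h1 : Real.exp v' ≤ Real.exp |v - v'| * Real.exp v := by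
    rw [← Real.exp_add]
    apply Real.exp_le_exp.2
    have := neg_abs_le (v - v')
    linarith
  have h2 : Real.exp (-v') ≤ Real.exp |v - v'| * Real.exp (-v) := by
    rw [← Real.exp_add]
    apply Real.exp_le_exp.2
    have := le_abs_self (v - v')
    linarith
  have h3 : Real.exp |v - v'| * ((Real.exp v + Real.exp (-v)) / 2) =
      (Real.exp |v - v'| * Real.exp v + Real.exp |v - v'| * Real.exp (-v)) / 2 := by ring
  rw [h3]
  linarith

theorem cosh_mul (a b : ℝ) : Real.cosh a * Real.cosh b = (Real.cosh (a + b) + Real.cosh (a - b)) / 2 := by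
  rw [Real.cosh_add, Real.cosh_sub]
  ring

theorem U_pow (v : ℝ) : U v ^ 6 = (Real.cosh v ^ 3)⁻¹ := by
  unfold U
  rw [inv_pow]
  congr 1
  have : √(Real.cosh v) ^ 6 = (√(Real.cosh v) ^ 2) ^ 3 := by ring
  rw [this, Real.sq_sqrt (Real.cosh_pos v).le]

theorem U_pow_le (v : ℝ) : U v ^ 6 ≤ 8 * Real.exp (-3 * |v|) := by
  rw [U_pow]
  have h1 : (Real.exp |v| / 2) ^ 3 ≤ Real.cosh v ^ 3 :=
    pow_le_pow_left₀ (by positivity) (le_cosh v) 3
  have h2 : (Real.cosh v ^ 3)⁻¹ ≤ ((Real.exp |v| / 2) ^ 3)⁻¹ := inv_anti₀ (by positivity) h1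
  refine h2.trans (le_of_eq ?_)
  rw [div_pow, inv_div, ← Real.exp_nat_mul, neg_mul, Real.exp_neg]
  push_cast
  rw [div_eq_mul_inv]
  norm_num

theorem int_exp : Integrable (fun v : ℝ => Real.exp (-3 * |v|)) := by
  have h1 : IntegrableOn (fun v : ℝ => Real.exp (-3 * |v|)) (Ioi 0) := by
    refine (integrableOn_exp_mul_Ioi (show (-3:ℝ) < 0 by norm_num) 0).congr_fun ?_
      measurableSet_Ioi
    intro v hv
    simp only
    rw [abs_of_pos hv]
  have h2 : IntegrableOn (fun v : ℝ => Real.exp (-3 * |v|)) (Iic 0) := by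
    refine (integrableOn_exp_mul_Iic (show (0:ℝ) < 3 by norm_num) 0).congr_fun ?_
      measurableSet_Iic
    intro v hv
    simp only
    rw [abs_of_nonpos hv]
    ring_nf
  rw [← integrableOn_univ, ← Iic_union_Ioi (a := (0:ℝ))]
  exact h2.union h1

theorem int_exp_val : ∫ v : ℝ, Real.exp (-3 * |v|) = 2 / 3 := by
  rw [integral_comp_abs (f := fun v => Real.exp (-3 * v)),
    integral_exp_mul_Ioi (show (-3:ℝ) < 0 by norm_num) 0]
  norm_num

end UFaux

open UFaux in
theorem UF_ok : S_UF := by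
  have hcont : Continuous U := by
    unfold U
    apply Continuous.inv₀ (Real.continuous_cosh.sqrt)
    intro v
    exact (sqrt_pos v).ne'
  have hint : Integrable (fun v => U v ^ 6) := by
    apply Integrable.mono' (int_exp.const_mul 8)
    · exact (hcont.pow 6).aestronglyMeasurable
    · refine Filter.Eventually.of_forall fun v => ?_
      have := U_pos v
      rw [Real.norm_of_nonneg (by positivity)]
      exact U_pow_le v
  refine ⟨hcont, ?_, ?_, ?_, ?_, ?_, ?_, ?_, hint, ?_⟩
  · intro v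
    unfold U
    rw [Real.cosh_neg]
  · intro v
    refine ⟨U_pos v, ?_⟩
    unfold U
    apply inv_le_one_of_one_le₀
    rw [Real.one_le_sqrt]
    exact Real.one_le_cosh v
  · unfold U
    simp
  · intro v
    constructor
    · unfold U
      rw [Real.exp_neg]
      apply inv_anti₀ (sqrt_pos v)
      rw [← sqrt_exp]
      exact Real.sqrt_le_sqrt (cosh_le v)
    · unfold U
      rw [Real.exp_neg, ← sqrt_exp, ← div_eq_mul_inv, ← Real.sqrt_div (by norm_num), ← Real.sqrt_inv]
      apply Real.sqrt_le_sqrt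
      have h1 := le_cosh v
      have h2 : (Real.cosh v)⁻¹ ≤ (Real.exp |v| / 2)⁻¹ := inv_anti₀ (by positivity) h1
      rwa [inv_div] at h2
  · intro v v'
    unfold U
    rw [← div_eq_mul_inv, le_div_iff₀ (sqrt_pos v'), inv_mul_le_iff₀ (sqrt_pos v), ← sqrt_exp,
      ← Real.sqrt_mul (Real.cosh_pos v).le]
    apply Real.sqrt_le_sqrt
    rw [mul_comm]
    exact cosh_lip v v'
  · intro v hv v' hv' h
    unfold U
    apply inv_anti₀ (sqrt_pos v)
    apply Real.sqrt_le_sqrt
    rw [Real.cosh_le_cosh, abs_of_nonneg hv, abs_of_nonneg hv']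
    exact h
  · intro v v' R hR h
    unfold U
    rw [← mul_inv, ← mul_inv, ← Real.sqrt_mul (Real.cosh_pos _).le,
      ← Real.sqrt_mul (Real.cosh_pos _).le]
    apply inv_anti₀
    · apply Real.sqrt_pos.2
      exact mul_pos (Real.cosh_pos _) (Real.cosh_pos _)
    · apply Real.sqrt_le_sqrt
      rw [cosh_mul, cosh_mul]
      have h1 : v' - R + v = v - R + v' := by ring
      have h2 : Real.cosh (v' - R - v) ≤ Real.cosh (v - R - v') := by
        rw [Real.cosh_le_cosh, abs_le]
        have h3 : |v - R - v'| = v' - v + R := by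
          rw [abs_of_nonpos (by linarith)]
          ring
        rw [h3]
        constructor <;> linarith
      rw [h1]
      linarith
  · unfold En
    have h1 : ∫ v : ℝ, U v ^ 6 ≤ ∫ v : ℝ, 8 * Real.exp (-3 * |v|) :=
      integral_mono hint (int_exp.const_mul 8) U_pow_le
    rw [integral_const_mul, int_exp_val] at h1
    linarith

end Pool.Agent.H638.KP
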