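import Pool.Agent.H638.KP.Defs

/-! Task UI: integrability. -/

set_option autoImplicit false

open MeasureTheory Set Filter Topology Metric
open scoped Pointwise RealInnerProductSpace ENNReal

namespace Pool.Agent.H638.KP

open Pool.Agent.H638.IB (E secVol IB)

namespace UIaux

theorem int_abs : Integrable (fun t : ℝ => Real.exp (-|t|)) := by
  have h1 : IntegrableOn (fun t : ℝ => Real.exp (-|t|)) (Set.Ioi 0) := by
    refine (integrableOn_exp_neg_Ioi 0).congr_fun (fun t ht => ?_) measurableSet_Ioi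
    try simp only
    rw [abs_of_pos ht]
  have h2 : IntegrableOn (fun t : ℝ => Real.exp (-|t|)) (Set.Iic 0) := by
    refine (integrableOn_exp_Iic 0).congr_fun (fun t ht => ?_) measurableSet_Iic
    try simp only
    rw [abs_of_nonpos ht, neg_neg]
  rw [← integrableOn_univ, ← Set.Iic_union_Ioi (a := (0:ℝ))]
  exact h2.union h1

theorem int_of_le (f : ℝ → ℝ) (D : ℝ) (hf : Continuous f)
    (h : ∀ s, |f s| ≤ D * Real.exp (-|s|)) : Integrable f :=
  Integrable.mono' (int_abs.const_mul D) hf.aestronglyMeasurable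
    (Filter.Eventually.of_forall fun s => by rw [Real.norm_eq_abs]; exact h s)

end UIaux

open UIaux in
theorem UI_ok (hUF : S_UF) : S_UI := by
  obtain ⟨-, -, hU1, hU0, hU2, -, -, -, -, -⟩ := hUF
  intro G hG hC
  obtain ⟨C, hC⟩ := hC
  have hC0 : 0 ≤ C := by
    have h1 := hC 0
    rw [hU0, mul_one] at h1
    exact (abs_nonneg _).trans h1
  -- the fifth power
  obtain ⟨D, hD0, hD⟩ : ∃ D : ℝ, 0 ≤ D ∧ ∀ s, |G s| ^ 5 ≤ D * Real.exp (-(5 / 2 * |s|)) := by
    refine ⟨(C * √2) ^ 5, by positivity, fun s => ?_⟩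
    have h1 : |G s| ≤ C * √2 * Real.exp (-(|s| / 2)) := by
      calc |G s| ≤ C * U s := hC s
        _ ≤ C * (√2 * Real.exp (-(|s| / 2))) := mul_le_mul_of_nonneg_left (hU2 s).2 hC0
        _ = _ := by ring
    calc |G s| ^ 5 ≤ (C * √2 * Real.exp (-(|s| / 2))) ^ 5 := pow_le_pow_left₀ (abs_nonneg _) h1 5
      _ = _ := by
        rw [mul_pow, ← Real.exp_nat_mul]
        congr 2
        push_cast
        ring
  have hGC : ∀ s, |G s| ≤ C := by
    intro s
    calc |G s| ≤ C * U s := hC s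
      _ ≤ C * 1 := mul_le_mul_of_nonneg_left (hU1 s).2 hC0
      _ = C := mul_one C
  have hexp : ∀ s : ℝ, Real.exp (-(5 / 2 * |s|)) ≤ Real.exp (-|s|) := by
    intro s
    apply Real.exp_le_exp.2
    have := abs_nonneg s
    linarith
  have hexp2 : ∀ s : ℝ, Real.exp (|s| / 2) * Real.exp (-(5 / 2 * |s|)) ≤ Real.exp (-|s|) := by
    intro s
    rw [← Real.exp_add]
    apply Real.exp_le_exp.2
    have := abs_nonneg s
    linarith
  have hbase : ∀ s, |G s ^ 5| ≤ D * Real.exp (-|s|) := by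
    intro s
    rw [abs_pow]
    exact (hD s).trans (mul_le_mul_of_nonneg_left (hexp s) hD0)
  have hw : ∀ (w : ℝ → ℝ), Continuous w → (∀ s, |w s| ≤ Real.exp (|s| / 2)) →
      Integrable (fun s => w s * G s ^ 5) := by
    intro w hw1 hw2
    refine int_of_le _ D (by fun_prop) fun s => ?_
    rw [abs_mul, abs_pow]
    calc |w s| * |G s| ^ 5 ≤ Real.exp (|s| / 2) * (D * Real.exp (-(5 / 2 * |s|))) :=
          mul_le_mul (hw2 s) (hD s) (by positivity) (Real.exp_pos _).le
      _ = D * (Real.exp (|s| / 2) * Real.exp (-(5 / 2 * |s|))) := by ring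
      _ ≤ _ := mul_le_mul_of_nonneg_left (hexp2 s) hD0
  have hs2 : ∀ s : ℝ, Real.exp (s / 2) ≤ Real.exp (|s| / 2) := by
    intro s
    apply Real.exp_le_exp.2
    have := le_abs_self s
    linarith
  have hs3 : ∀ s : ℝ, Real.exp (-(s / 2)) ≤ Real.exp (|s| / 2) := by
    intro s
    apply Real.exp_le_exp.2
    have := neg_le_abs s
    linarith
  refine ⟨fun v => ?_, ?_, ?_, ?_, ?_⟩
  · refine hw (fun s => Real.exp (-(|v - s| / 2))) (by fun_prop) fun s => ?_
    rw [abs_of_pos (Real.exp_pos _)]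
    apply Real.exp_le_exp.2
    have h1 := abs_nonneg s
    have h2 := abs_nonneg (v - s)
    linarith
  · refine hw (fun s => Real.cosh (s / 2)) (by fun_prop) fun s => ?_
    rw [abs_of_pos (Real.cosh_pos _), Real.cosh_eq]
    linarith [hs2 s, hs3 s]
  · refine hw (fun s => Real.exp (s / 2)) (by fun_prop) fun s => ?_
    rw [abs_of_pos (Real.exp_pos _)]
    exact hs2 s
  · refine int_of_le _ (D * C) (by fun_prop) fun s => ?_
    rw [abs_pow, pow_succ]
    calc |G s| ^ 5 * |G s| ≤ (D * Real.exp (-(5 / 2 * |s|))) * C :=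
          mul_le_mul (hD s) (hGC s) (abs_nonneg _) (by positivity)
      _ ≤ (D * Real.exp (-|s|)) * C :=
          mul_le_mul_of_nonneg_right (mul_le_mul_of_nonneg_left (hexp s) hD0) hC0
      _ = _ := by ring
  · exact int_of_le _ D (by fun_prop) hbase

end Pool.Agent.H638.KP
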