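import Pool.Agent.H638.KP.Defs

set_option autoImplicit false

open MeasureTheory Set Filter Topology Metric

namespace Pool.Agent.H638.KP

namespace UPPaux

theorem int4 (v : ℝ) : ∫ s : ℝ, Real.exp (-(|v - s| / 2)) = 4 := by
  rw [integral_sub_left_eq_self (fun s : ℝ => Real.exp (-(|s| / 2))) volume v,
    integral_comp_abs (f := fun s : ℝ => Real.exp (-(s / 2)))]
  have : (fun s : ℝ => Real.exp (-(s / 2))) = fun s : ℝ => Real.exp (-(1 / 2) * s) := by
    funext s; congr 1; ring
  rw [this, integral_exp_mul_Ioi (by norm_num)]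
  norm_num

theorem intg (v : ℝ) : Integrable (fun s : ℝ => Real.exp (-(|v - s| / 2))) := by
  by_contra h
  have := int4 v
  rw [integral_undef h] at this
  norm_num at this

end UPPaux

/-- UPP. -/
theorem UPP_ok (h1 : S_UF) (h2 : S_UI) : S_UPP := by
  intro G hG S hS v
  obtain ⟨c, C, hc, hb⟩ := hG.bd
  have hU : ∀ v, 0 < U v := fun v => (h1.2.2.1 v).1
  have hG0 : ∀ v, 0 ≤ G v := fun v => (mul_pos hc (hU v)).le.trans (hb v).1
  have hI := (h2 G hG.cont ⟨C, fun v => by rw [abs_of_nonneg (hG0 v)]; exact (hb v).2⟩).1 v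
  have : ∫ s : ℝ, Real.exp (-(|v - s| / 2)) * G s ^ 5 ≤ 4 * S ^ 5 := by
    rw [← UPPaux.int4 v, ← integral_mul_const]
    refine integral_mono hI ((UPPaux.intg v).mul_const _) (fun s => ?_)
    exact mul_le_mul_of_nonneg_left (pow_le_pow_left₀ (hG0 s) (hS s) 5) (Real.exp_pos _).le
  unfold T
  linarith

end Pool.Agent.H638.KP
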