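import Pool.Agent.H638.KP.Defs
import Pool.Agent.H638.KP.T_UF
import Pool.Agent.H638.KP.T_BA
import Pool.Agent.H638.KP.T_UI
import Pool.Agent.H638.KP.T_TU
import Pool.Agent.H638.KP.T_TM
import Pool.Agent.H638.KP.T_BT
import Pool.Agent.H638.KP.T_TC
import Pool.Agent.H638.KP.T_INF
import Pool.Agent.H638.KP.T_UPP
import Pool.Agent.H638.KP.T_IVT
import Pool.Agent.H638.KP.T_TL
import Pool.Agent.H638.KP.T_TMO
import Pool.Agent.H638.KP.T_TUN
import Pool.Agent.H638.KP.T_ADM
import Pool.Agent.H638.KP.T_CHN
import Pool.Agent.H638.KP.T_STEP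
import Pool.Agent.H638.KP.T_SML
import Pool.Agent.H638.KP.T_CH0
import Pool.Agent.H638.KP.T_LOW
import Pool.Agent.H638.KP.T_CHS
import Pool.Agent.H638.KP.T_ENE
import Pool.Agent.H638.KP.T_BE
import Pool.Agent.H638.KP.T_CHE
import Pool.Agent.H638.KP.T_CHM
import Pool.Agent.H638.KP.T_CHT
import Pool.Agent.H638.KP.T_CHU
import Pool.Agent.H638.KP.T_CPT
import Pool.Agent.H638.KP.T_DOM
import Pool.Agent.H638.KP.T_LIM
import Pool.Agent.H638.KP.T_PQ
import Pool.Agent.H638.KP.T_RHC
import Pool.Agent.H638.KP.T_SBR
import Pool.Agent.H638.KP.T_ROT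
import Pool.Agent.H638.KP.T_PAR
import Pool.Agent.H638.KP.T_FUB
import Pool.Agent.H638.KP.T_SUB
import Pool.Agent.H638.KP.T_SSB
import Pool.Agent.H638.KP.T_SEV
import Pool.Agent.H638.KP.T_SET
import Pool.Agent.H638.KP.T_SCA
import Pool.Agent.H638.KP.T_BEQ
import Pool.Agent.H638.KP.T_FIX
import Pool.Agent.H638.KP.T_NEL
import Pool.Agent.H638.KP.T_END

/-! Assembly of the project KP (MP_242fd5_gt): all statements proved. -/

set_option autoImplicit false

namespace Pool.Agent.H638.KP

theorem UF_final : S_UF := UF_ok

theorem BA_final : S_BA := BA_ok UF_final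

theorem UI_final : S_UI := UI_ok UF_final

theorem TU_final : S_TU := TU_ok UF_final UI_final

theorem TM_final : S_TM := TM_ok UI_final

theorem BT_final : S_BT := BT_ok UF_final UI_final TU_final TM_final BA_final

theorem TC_final : S_TC := TC_ok UF_final UI_final TU_final TM_final

theorem INF_final : S_INF := INF_ok UF_final UI_final

theorem UPP_final : S_UPP := UPP_ok UF_final UI_final

theorem IVT_final : S_IVT := IVT_ok BA_final BT_final TM_final TC_final TU_final INF_final UPP_final UF_final

theorem TL_final : S_TL := TL_ok UF_final UI_final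

theorem TMO_final : S_TMO := TMO_ok UF_final UI_final TU_final

theorem TUN_final : S_TUN := TUN_ok UF_final UI_final TC_final

theorem ADM_final : S_ADM := ADM_ok TC_final TL_final TMO_final TUN_final

theorem CHN_final : S_CHN := CHN_ok IVT_final ADM_final BA_final TM_final

theorem STEP_final : S_STEP := STEP_ok UF_final UI_final

theorem SML_final : S_SML := SML_ok UI_final UF_final

theorem CH0_final : S_CH0 := CH0_ok INF_final UF_final ADM_final

theorem LOW_final : S_LOW := LOW_ok UF_final UI_final

theorem CHS_final : S_CHS := CHS_ok CH0_final LOW_final UPP_final UF_final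

theorem ENE_final : S_ENE := ENE_ok UF_final UI_final TC_final

theorem BE_final : S_BE := BE_ok UF_final BA_final

theorem CHE_final : S_CHE := CHE_ok ENE_final BE_final BT_final TM_final BA_final CH0_final UF_final UI_final

theorem CHM_final : S_CHM := CHM_ok CHS_final CHE_final CH0_final LOW_final UF_final UI_final

theorem CHT_final : S_CHT := CHT_ok STEP_final SML_final CHM_final CHS_final CHE_final BA_final

theorem CHU_final : S_CHU := CHU_ok CHT_final CHM_final CHS_final UF_final

theorem CPT_final : S_CPT := CPT_ok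

theorem DOM_final : S_DOM := DOM_ok UF_final UI_final

theorem LIM_final : S_LIM := LIM_ok CHN_final CHU_final CPT_final DOM_final CHS_final UF_final

theorem PQ_final : S_PQ := PQ_ok

theorem RHC_final : S_RHC := RHC_ok PQ_final UF_final

theorem SBR_final : S_SBR := SBR_ok

theorem ROT_final : S_ROT := ROT_ok

theorem PAR_final : S_PAR := PAR_ok PQ_final

theorem FUB_final : S_FUB := FUB_ok

theorem SUB_final : S_SUB := SUB_ok UF_final

theorem SSB_final : S_SSB := SSB_ok PQ_final UF_final

theorem SEV_final : S_SEV := SEV_ok ROT_final PAR_final FUB_final SUB_final SSB_final PQ_final UF_final UI_final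

theorem SET_final : S_SET := SET_ok PQ_final UF_final UI_final

theorem SCA_final : S_SCA := SCA_ok

theorem BEQ_final : S_BEQ := BEQ_ok

theorem FIX_final : S_FIX := FIX_ok SEV_final SET_final SCA_final BEQ_final

theorem NEL_final : S_NEL := NEL_ok PQ_final UF_final

theorem END_final : S_END := END_ok LIM_final INF_final RHC_final SBR_final FIX_final NEL_final PQ_final UF_final

end Pool.Agent.H638.KP
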