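import Pool.Agent.H638.KP.Defs

/-! ROT: rotation invariance of the section volume. -/

set_option autoImplicit false

open MeasureTheory Set Filter Topology Metric
open scoped Pointwise RealInnerProductSpace ENNReal

namespace Pool.Agent.H638.KP

open Pool.Agent.H638.IB (E secVol IB)

namespace ROTaux

/-- the isometry of hyperplanes induced by an isometry -/
noncomputable def eqv {n : ℕ} (Φ : E n ≃ₗᵢ[ℝ] E n) (u v : E n) (h : Φ u = v) :
    ((ℝ ∙ u)ᗮ : Submodule ℝ (E n)) ≃ₗᵢ[ℝ] ((ℝ ∙ v)ᗮ : Submodule ℝ (E n)) :=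
  { LinearEquiv.ofSubmodules Φ.toLinearEquiv ((ℝ ∙ u)ᗮ) ((ℝ ∙ v)ᗮ) (by
      ext x
      rw [Submodule.mem_map]
      constructor
      · rintro ⟨y, hy, rfl⟩
        rw [Submodule.mem_orthogonal_singleton_iff_inner_right] at hy ⊢
        rw [← h]
        have : ⟪Φ u, Φ y⟫ = ⟪u, y⟫ := Φ.inner_map_map u y
        exact this.trans hy
      · intro hx
        refine ⟨Φ.symm x, ?_, Φ.apply_symm_apply x⟩
        rw [Submodule.mem_orthogonal_singleton_iff_inner_right] at hx ⊢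
        rw [← h] at hx
        have : ⟪Φ u, Φ (Φ.symm x)⟫ = ⟪u, Φ.symm x⟫ := Φ.inner_map_map u _
        rw [Φ.apply_symm_apply] at this
        rw [← this]
        exact hx) with
    norm_map' := fun x => by
      change ‖Φ (x : E n)‖ = ‖(x : E n)‖
      exact Φ.norm_map _ }

theorem eqv_coe {n : ℕ} (Φ : E n ≃ₗᵢ[ℝ] E n) (u v : E n) (h : Φ u = v)
    (x : ((ℝ ∙ u)ᗮ : Submodule ℝ (E n))) : (eqv Φ u v h x : E n) = Φ x := rfl

theorem secVol_eq {n : ℕ} (Φ : E n ≃ₗᵢ[ℝ] E n) (u v : E n) (h : Φ u = v) (L : Set (E n))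
    (hL : ∀ z, z ∈ L ↔ Φ z ∈ L) : secVol L u = secVol L v := by
  unfold secVol
  congr 1
  have hmp : MeasurePreserving (eqv Φ u v h) (volume : Measure (ℝ ∙ u)ᗮ)
      (volume : Measure (ℝ ∙ v)ᗮ) := (eqv Φ u v h).measurePreserving
  have he : MeasurableEmbedding (eqv Φ u v h) := (eqv Φ u v h).toHomeomorph.measurableEmbedding
  rw [← hmp.measure_preimage_emb he]
  congr 1
  ext x
  simp only [Set.mem_ofPred_eq, mem_preimage, eqv_coe]
  exact hL _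

theorem PP_sq (z : E 6) : PP z ^ 2 = z 0 ^ 2 + z 1 ^ 2 + z 2 ^ 2 :=
  Real.sq_sqrt (by positivity)

theorem QQ_sq (z : E 6) : QQ z ^ 2 = z 3 ^ 2 + z 4 ^ 2 + z 5 ^ 2 :=
  Real.sq_sqrt (by positivity)

theorem inner6 (x y : E 6) : ⟪x, y⟫ = x 0 * y 0 + x 1 * y 1 + x 2 * y 2 + x 3 * y 3 + x 4 * y 4 +
    x 5 * y 5 := by
  rw [PiLp.inner_apply]
  simp only [Fin.sum_univ_succ, Fin.isValue]
  have e1 : (Fin.succ (0 : Fin 5)) = (1 : Fin 6) := rfl
  have e2 : (Fin.succ (Fin.succ (0 : Fin 4))) = (2 : Fin 6) := rfl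
  have e3 : (Fin.succ (Fin.succ (Fin.succ (0 : Fin 3)))) = (3 : Fin 6) := rfl
  have e4 : (Fin.succ (Fin.succ (Fin.succ (Fin.succ (0 : Fin 2))))) = (4 : Fin 6) := rfl
  have e5 : (Fin.succ (Fin.succ (Fin.succ (Fin.succ (Fin.succ (0 : Fin 1)))))) = (5 : Fin 6) := rfl
  simp [e1, e2, e3, e4, e5]
  ring

theorem norm_sq' (z : E 6) : ‖z‖ ^ 2 = PP z ^ 2 + QQ z ^ 2 := by
  rw [PP_sq, QQ_sq, ← real_inner_self_eq_norm_sq, inner6]
  ring

theorem refl_apply (w z : E 6) : (ℝ ∙ w)ᗮ.reflection z = z - (2 * (⟪w, z⟫ / ‖w‖ ^ 2)) • w := by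
  rw [Submodule.reflection_orthogonal_apply, Submodule.reflection_singleton_apply]
  simp only [RCLike.ofReal_real_eq_id, id_eq]
  module

theorem PP_nonneg (z : E 6) : 0 ≤ PP z := Real.sqrt_nonneg _
theorem QQ_nonneg (z : E 6) : 0 ≤ QQ z := Real.sqrt_nonneg _

/-- reflections in vectors supported in the first three coordinates -/
theorem refl1 (w : E 6) (h3 : w 3 = 0) (h4 : w 4 = 0) (h5 : w 5 = 0) (z : E 6) :
    PP ((ℝ ∙ w)ᗮ.reflection z) = PP z ∧ QQ ((ℝ ∙ w)ᗮ.reflection z) = QQ z := by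
  have hQ : QQ ((ℝ ∙ w)ᗮ.reflection z) = QQ z := by
    rw [refl_apply]
    unfold QQ
    simp [h3, h4, h5]
  refine ⟨?_, hQ⟩
  have h1 := norm_sq' ((ℝ ∙ w)ᗮ.reflection z)
  have h2 := norm_sq' z
  rw [LinearIsometryEquiv.norm_map, hQ] at h1
  have h3 : PP ((ℝ ∙ w)ᗮ.reflection z) ^ 2 = PP z ^ 2 := by linarith
  exact (sq_eq_sq₀ (PP_nonneg _) (PP_nonneg _)).mp h3

theorem refl2 (w : E 6) (h3 : w 0 = 0) (h4 : w 1 = 0) (h5 : w 2 = 0) (z : E 6) :
    PP ((ℝ ∙ w)ᗮ.reflection z) = PP z ∧ QQ ((ℝ ∙ w)ᗮ.reflection z) = QQ z := by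
  have hQ : PP ((ℝ ∙ w)ᗮ.reflection z) = PP z := by
    rw [refl_apply]
    unfold PP
    simp [h3, h4, h5]
  refine ⟨hQ, ?_⟩
  have h1 := norm_sq' ((ℝ ∙ w)ᗮ.reflection z)
  have h2 := norm_sq' z
  rw [LinearIsometryEquiv.norm_map, hQ] at h1
  have h3 : QQ ((ℝ ∙ w)ᗮ.reflection z) ^ 2 = QQ z ^ 2 := by linarith
  exact (sq_eq_sq₀ (QQ_nonneg _) (QQ_nonneg _)).mp h3

/-- there is an isometry which moves `u` to the standard position -/
theorem exists_iso (u : E 6) : ∃ Φ : E 6 ≃ₗᵢ[ℝ] E 6, Φ u = pt (PP u) (QQ u) ∧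
    ∀ z, PP (Φ z) = PP z ∧ QQ (Φ z) = QQ z := by
  set x : E 6 := WithLp.toLp 2 ![u 0, u 1, u 2, 0, 0, 0] with hx
  set y : E 6 := WithLp.toLp 2 ![0, 0, 0, u 3, u 4, u 5] with hy
  set p : E 6 := pt (PP u) 0 with hp
  set q : E 6 := pt 0 (QQ u) with hq
  have hu : u = x + y := by
    ext i
    fin_cases i <;> simp [hx, hy]
  have hnx : ‖x‖ = ‖p‖ := by
    have h1 : ‖x‖ ^ 2 = ‖p‖ ^ 2 := by
      rw [← real_inner_self_eq_norm_sq, ← real_inner_self_eq_norm_sq, inner6, inner6]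
      have := PP_sq u
      simp [hx, hp, pt]
      nlinarith
    exact (sq_eq_sq₀ (norm_nonneg _) (norm_nonneg _)).mp h1
  have hny : ‖y‖ = ‖q‖ := by
    have h1 : ‖y‖ ^ 2 = ‖q‖ ^ 2 := by
      rw [← real_inner_self_eq_norm_sq, ← real_inner_self_eq_norm_sq, inner6, inner6]
      have := QQ_sq u
      simp [hy, hq, pt]
      nlinarith
    exact (sq_eq_sq₀ (norm_nonneg _) (norm_nonneg _)).mp h1
  have hR1x : (ℝ ∙ (x - p))ᗮ.reflection x = p := Submodule.reflection_sub hnx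
  have hR1y : (ℝ ∙ (x - p))ᗮ.reflection y = y := by
    rw [refl_apply]
    have : ⟪x - p, y⟫ = 0 := by
      rw [inner6]; simp [hx, hy, hp, pt]
    rw [this]; simp
  have hR2p : (ℝ ∙ (y - q))ᗮ.reflection p = p := by
    rw [refl_apply]
    have : ⟪y - q, p⟫ = 0 := by
      rw [inner6]; simp [hy, hq, hp, pt]
    rw [this]; simp
  have hR2y : (ℝ ∙ (y - q))ᗮ.reflection y = q := Submodule.reflection_sub hny
  refine ⟨((ℝ ∙ (x - p))ᗮ.reflection).trans ((ℝ ∙ (y - q))ᗮ.reflection), ?_, fun z => ?_⟩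
  · have h1 : (ℝ ∙ (x - p))ᗮ.reflection u = p + y := by
      conv_lhs => rw [hu]
      rw [map_add, hR1x, hR1y]
    rw [LinearIsometryEquiv.trans_apply, h1, map_add, hR2p, hR2y]
    ext i
    fin_cases i <;> simp [hp, hq, pt]
  · rw [LinearIsometryEquiv.trans_apply]
    have h1 := refl1 (x - p) (by simp [hx, hp, pt]) (by simp [hx, hp, pt]) (by simp [hx, hp, pt]) z
    have h2 := refl2 (y - q) (by simp [hy, hq, pt]) (by simp [hy, hq, pt]) (by simp [hy, hq, pt])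
      ((ℝ ∙ (x - p))ᗮ.reflection z)
    exact ⟨h2.1.trans h1.1, h2.2.trans h1.2⟩

end ROTaux

/-- rotation invariance of the section volume -/
theorem ROT_ok : S_ROT := by
  intro L hL u
  obtain ⟨Φ, h1, h2⟩ := ROTaux.exists_iso u
  exact ROTaux.secVol_eq Φ u _ h1 L fun z => hL z (Φ z) (h2 z).1.symm (h2 z).2.symm

end Pool.Agent.H638.KP
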