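import Pool.Agent.H638.KP.Defs

set_option autoImplicit false

open MeasureTheory Set Filter Topology Metric
open scoped Pointwise RealInnerProductSpace ENNReal

namespace Pool.Agent.H638.KP

open Pool.Agent.H638.IB (E secVol IB)

/-- STEP: one step of the tail estimate. -/
theorem STEP_ok (_h1 : S_UF) (h2 : S_UI) : S_STEP := by
  intro G hG h2G h2T D η L X R R' hD hη hL hX hRR htail v hv
  obtain ⟨c, C, hc, hcC⟩ := hG.bd
  have hUpos : ∀ s, 0 < U s := fun s => inv_pos.2 (Real.sqrt_pos.2 (Real.cosh_pos s))
  have hGpos : ∀ s, 0 ≤ G s := fun s => (mul_nonneg hc.le (hUpos s).le).trans (hcC s).1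
  have hint := (h2 G hG.cont ⟨C, fun s => by
    rw [abs_of_nonneg (hGpos s)]
    exact (hcC s).2⟩).1 v
  have hfac : (48 : ℝ) ≤ 48 + 3 / 2 * η ^ 3 * X ^ 2 := by
    have : 0 ≤ 3 / 2 * η ^ 3 * X ^ 2 := by positivity
    linarith
  set V := R' + L with hV
  rcases lt_or_ge v V with hlt | hge
  · have h3 : 1 ≤ Real.exp (D / 2) * Real.exp (-((v - R - L) / 2)) := by
      rw [← Real.exp_add]
      exact Real.one_le_exp (by linarith)
    calc T G v ≤ 2 := h2T v
      _ ≤ (48 + 3 / 2 * η ^ 3 * X ^ 2) * 1 := by linarith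
      _ ≤ (48 + 3 / 2 * η ^ 3 * X ^ 2) *
          (Real.exp (D / 2) * Real.exp (-((v - R - L) / 2))) :=
        mul_le_mul_of_nonneg_left h3 (by linarith)
      _ = _ := by ring
  · have hle : ∀ s, Real.exp (-(|v - s| / 2)) ≤ Real.exp (-((v - s) / 2)) := fun s => by
      apply Real.exp_le_exp.2
      have := le_abs_self (v - s)
      linarith
    -- left part
    have hA : ∫ s in Iic V, Real.exp (-(|v - s| / 2)) * G s ^ 5 ≤
        64 * Real.exp (-((v - V) / 2)) := by
      have e1 : ∫ s in Iic V, 32 * Real.exp (-(v / 2)) * Real.exp (1 / 2 * s) =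
          64 * Real.exp (-((v - V) / 2)) := by
        rw [integral_const_mul, integral_exp_mul_Iic (by norm_num)]
        have : Real.exp (-((v - V) / 2)) = Real.exp (-(v / 2)) * Real.exp (1 / 2 * V) := by
          rw [← Real.exp_add]
          congr 1
          ring
        rw [this]
        ring
      rw [← e1]
      refine setIntegral_mono_on hint.integrableOn
        ((integrableOn_exp_mul_Iic (by norm_num) V).const_mul _) measurableSet_Iic fun s _ => ?_
      have e2 : G s ^ 5 ≤ 32 := by
        have := pow_le_pow_left₀ (hGpos s) (h2G s) 5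
        norm_num at this
        exact this
      calc Real.exp (-(|v - s| / 2)) * G s ^ 5 ≤ Real.exp (-((v - s) / 2)) * 32 :=
            mul_le_mul (hle s) e2 (pow_nonneg (hGpos s) _) (Real.exp_pos _).le
        _ = 32 * Real.exp (-(v / 2)) * Real.exp (1 / 2 * s) := by
            have : Real.exp (-((v - s) / 2)) = Real.exp (-(v / 2)) * Real.exp (1 / 2 * s) := by
              rw [← Real.exp_add]
              congr 1
              ring
            rw [this]
            ring
    -- right part
    have hB : ∫ s in Ioi V, Real.exp (-(|v - s| / 2)) * G s ^ 5 ≤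
        2 * η ^ 3 * X ^ 2 * Real.exp (-((v - V) / 2)) := by
      have e1 : ∫ s in Ioi V, η ^ 3 * X ^ 2 * Real.exp (-(v / 2) + V) *
          Real.exp (-(1 / 2) * s) = 2 * η ^ 3 * X ^ 2 * Real.exp (-((v - V) / 2)) := by
        rw [integral_const_mul, integral_exp_mul_Ioi (by norm_num)]
        have : Real.exp (-((v - V) / 2)) =
            Real.exp (-(v / 2) + V) * Real.exp (-(1 / 2) * V) := by
          rw [← Real.exp_add]
          congr 1
          ring
        rw [this]
        ring
      rw [← e1]
      refine setIntegral_mono_on hint.integrableOn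
        ((integrableOn_exp_mul_Ioi (by norm_num) V).const_mul _) measurableSet_Ioi fun s hs => ?_
      obtain ⟨g1, g2⟩ := htail s (le_of_lt hs)
      have e2 : G s ^ 5 ≤ η ^ 3 * (X * Real.exp (-((s - R' - L) / 2))) ^ 2 := by
        have : G s ^ 5 = G s ^ 3 * G s ^ 2 := by ring
        rw [this]
        exact mul_le_mul (pow_le_pow_left₀ (hGpos s) g1 3) (pow_le_pow_left₀ (hGpos s) g2 2)
          (pow_nonneg (hGpos s) _) (by positivity)
      calc Real.exp (-(|v - s| / 2)) * G s ^ 5 ≤
            Real.exp (-((v - s) / 2)) * (η ^ 3 * (X * Real.exp (-((s - R' - L) / 2))) ^ 2) :=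
            mul_le_mul (hle s) e2 (pow_nonneg (hGpos s) _) (Real.exp_pos _).le
        _ = η ^ 3 * X ^ 2 * Real.exp (-(v / 2) + V) * Real.exp (-(1 / 2) * s) := by
            have e3 : Real.exp (-((v - s) / 2)) * Real.exp (-((s - R' - L) / 2)) ^ 2 =
                Real.exp (-(v / 2) + V) * Real.exp (-(1 / 2) * s) := by
              rw [sq, ← Real.exp_add, ← Real.exp_add, ← Real.exp_add]
              congr 1
              rw [hV]
              ring
            calc Real.exp (-((v - s) / 2)) * (η ^ 3 * (X * Real.exp (-((s - R' - L) / 2))) ^ 2)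
                = η ^ 3 * X ^ 2 *
                  (Real.exp (-((v - s) / 2)) * Real.exp (-((s - R' - L) / 2)) ^ 2) := by ring
              _ = _ := by rw [e3]; ring
    have hsum : T G v ≤ (48 + 3 / 2 * η ^ 3 * X ^ 2) * Real.exp (-((v - V) / 2)) := by
      unfold T
      rw [← intervalIntegral.integral_Iic_add_Ioi (b := V) hint.integrableOn hint.integrableOn]
      have : (48 + 3 / 2 * η ^ 3 * X ^ 2) * Real.exp (-((v - V) / 2)) =
        3 / 4 * (64 * Real.exp (-((v - V) / 2)) +
          2 * η ^ 3 * X ^ 2 * Real.exp (-((v - V) / 2))) := by ring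
      rw [this]
      exact mul_le_mul_of_nonneg_left (add_le_add hA hB) (by norm_num)
    refine hsum.trans ?_
    have h4 : Real.exp (-((v - V) / 2)) ≤ Real.exp (D / 2) * Real.exp (-((v - R - L) / 2)) := by
      rw [← Real.exp_add]
      apply Real.exp_le_exp.2
      rw [hV]
      linarith
    calc (48 + 3 / 2 * η ^ 3 * X ^ 2) * Real.exp (-((v - V) / 2)) ≤
          (48 + 3 / 2 * η ^ 3 * X ^ 2) *
            (Real.exp (D / 2) * Real.exp (-((v - R - L) / 2))) :=
          mul_le_mul_of_nonneg_left h4 (by linarith)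
      _ = _ := by ring

end Pool.Agent.H638.KP
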